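import Pool.Agent.Helper25.MS.UM

/-!
Project MS.  An unsplit family of fewer than `𝔡` sets gives an ultrafilter with a base of fewer than `𝔡` sets (Aubrey).
-/

set_option autoImplicit false

namespace Pool.Agent.Helper25.MS

open Set Filter Cardinal Topology

/-- Unsplit (reaping) families of infinite sets of natural numbers. -/
def Unsplit (R : Set (Set ℕ)) : Prop :=
  (∀ r ∈ R, r.Infinite) ∧ ∀ A : Set ℕ, ∃ r ∈ R, (r ∩ A).Finite ∨ (r \ A).Finite

theorem exists_smallU {R : Set (Set ℕ)} (hR : Unsplit R) (hRc : #R < dd) : ∃ U : Ultrafilter ℕ, SmallU U := by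
  classical
  have hc : #(Fin 3 → R) < dd := by
    rw [mk_arrow, lift_id, lift_id, mk_fin]
    refine lt_of_le_of_lt (power_nat_le_max (n := 3)) (max_lt hRc aleph0_lt_dd)
  have h1 : ∀ (v : Fin 3 → R) (n : ℕ), ∃ m, ∀ q, ∃ a ∈ (v q).1, n ≤ a ∧ a ≤ m := fun v n => by
    have h2 : ∀ q, ∃ a ∈ (v q).1, n ≤ a := fun q => by
      obtain ⟨a, ha, hna⟩ := (hR.1 _ (v q).2).exists_gt n
      exact ⟨a, ha, hna.le⟩
    choose a ha hna using h2
    exact ⟨∑ q, a q, fun q => ⟨a q, ha q, hna q,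
      Finset.single_le_sum (f := a) (fun _ _ => Nat.zero_le _) (Finset.mem_univ q)⟩⟩
  choose F hF using h1
  obtain ⟨p, hp, hp0, -, hpF⟩ := part hc F fun _ => 0
  -- three members of the filter meet
  have key : ∀ (r : Fin 3 → R) (A : Fin 3 → Set ℕ), (∀ q, ((r q).1 \ blk p ⁻¹' (A q)).Finite) →
      ∃ k, ∀ q, k ∈ A q := by
    intro r A hrA
    have h2 : ∀ᶠ k in atTop, ∀ q, ∀ a, k ≤ a → a ∈ (r q).1 → blk p a ∈ A q := by
      rw [eventually_all]
      intro q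
      obtain ⟨M, hM⟩ := (hrA q).bddAbove
      filter_upwards [eventually_gt_atTop M] with k hk a hka ha
      by_contra hc
      have := hM ⟨ha, hc⟩
      omega
    obtain ⟨k, hk1, hk2⟩ := ((hpF r).and_eventually h2).exists
    refine ⟨k, fun q => ?_⟩
    obtain ⟨a, ha, hka, hak⟩ := hF r (p k) q
    have h3 : blk p a = k := blk_eq hp hp0 hka (lt_of_le_of_lt hak hk1)
    have := hk2 q a (le_trans (hp.id_le k) hka) ha
    rwa [h3] at this
  obtain ⟨r0, hr0, -⟩ := hR.2 univ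
  let G : Filter ℕ :=
    { sets := {A | ∃ r ∈ R, (r \ blk p ⁻¹' A).Finite}
      univ_sets := ⟨r0, hr0, by simp⟩
      sets_of_superset := by
        rintro A B ⟨r, hr, hA⟩ hAB
        exact ⟨r, hr, hA.subset (sdiff_subset_sdiff_right (preimage_mono hAB))⟩
      inter_sets := by
        rintro A B ⟨r, hr, hA⟩ ⟨s, hs, hB⟩
        obtain ⟨t, ht, h | h⟩ := hR.2 (blk p ⁻¹' (A ∩ B))
        · exfalso
          obtain ⟨k, hk⟩ := key ![⟨r, hr⟩, ⟨s, hs⟩, ⟨t, ht⟩] ![A, B, (A ∩ B)ᶜ] (by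
            intro q
            fin_cases q
            · exact hA
            · exact hB
            · refine h.subset fun a ha => ⟨ha.1, ?_⟩
              by_contra hc
              exact ha.2 hc)
          exact hk 2 ⟨hk 0, hk 1⟩
        · exact ⟨t, ht, h⟩ }
  have hG : ∀ A : Set ℕ, A ∈ G ↔ ∃ r ∈ R, (r \ blk p ⁻¹' A).Finite := fun A => Iff.rfl
  have hcompl : ∀ s, sᶜ ∉ G ↔ s ∈ G := by
    intro A
    constructor
    · intro h
      obtain ⟨t, ht, h2 | h2⟩ := hR.2 (blk p ⁻¹' A)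
      · exfalso
        apply h
        refine ⟨t, ht, h2.subset fun a ha => ⟨ha.1, ?_⟩⟩
        by_contra hc
        exact ha.2 hc
      · exact ⟨t, ht, h2⟩
    · rintro ⟨r, hr, hA⟩ ⟨s, hs, hB⟩
      obtain ⟨k, hk⟩ := key ![⟨r, hr⟩, ⟨s, hs⟩, ⟨s, hs⟩] ![A, Aᶜ, Aᶜ] (by
        intro q
        fin_cases q
        · exact hA
        · exact hB
        · exact hB)
      exact hk 1 (hk 0)
  let U : Ultrafilter ℕ := Ultrafilter.ofComplNotMemIff G hcompl
  have hU : ∀ A : Set ℕ, A ∈ U ↔ ∃ r ∈ R, (r \ blk p ⁻¹' A).Finite := fun A => Iff.rfl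
  refine ⟨U, ⟨?_, ?_⟩⟩
  · rw [atTop_basis.ge_iff]
    intro N _
    refine ⟨r0, hr0, ?_⟩
    have h1 := (tendsto_blk hp).eventually_ge_atTop N
    obtain ⟨M, hM⟩ := eventually_atTop.1 h1
    refine (finite_lt_nat M).subset fun a ha => ?_
    by_contra hc
    exact ha.2 (hM a (not_lt.1 hc))
  · refine ⟨range fun v : R × ℕ => blk p '' (v.1.1 ∩ Ici v.2), ?_, ?_, ?_⟩
    · refine lt_of_le_of_lt mk_range_le ?_
      rw [mk_prod, lift_id, lift_id, mk_nat]
      exact mul_lt_of_lt aleph0_lt_dd.le hRc aleph0_lt_dd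
    · rintro b ⟨⟨⟨r, hr⟩, M⟩, rfl⟩
      refine ⟨r, hr, (finite_lt_nat M).subset fun a ha => ?_⟩
      by_contra hc
      have hMa : M ≤ a := not_lt.1 hc
      exact ha.2 ⟨a, ⟨ha.1, hMa⟩, rfl⟩
    · rintro A ⟨r, hr, hA⟩
      obtain ⟨M, hM⟩ := hA.bddAbove
      refine ⟨_, ⟨(⟨r, hr⟩, M + 1), rfl⟩, ?_⟩
      rintro _ ⟨a, ⟨ha, haM⟩, rfl⟩
      by_contra hc
      have := hM ⟨ha, hc⟩
      have h2 : M + 1 ≤ a := haM
      omega

end Pool.Agent.Helper25.MS
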