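import Pool.Agent.Helper25.MS.Spl

/-!
Project MS.  `𝔡`-concentrated sets; an unsplit family of fewer than `𝔡` sets exists if there are simultaneous
selections for `𝔡`-concentrated sets.
-/

set_option autoImplicit false

namespace Pool.Agent.Helper25.MS

open Set Filter Cardinal Topology

/-- `𝔡`-concentrated sets of reals: there is a countable subset `D` such that every open set which
contains `D` contains all but fewer than `𝔡` elements. -/
def Concentrated (X : Set ℝ) : Prop :=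
  ∃ D ⊆ X, D.Countable ∧ ∀ W : Set ℝ, IsOpen W → D ⊆ W → #(X \ W : Set ℝ) < dd

theorem Menger.countable {X : Set ℝ} (h : X.Countable) : Menger X :=
  menger_of_lt (lt_of_le_of_lt (le_aleph0_iff_set_countable.2 h) aleph0_lt_dd)

theorem Concentrated.menger {X : Set ℝ} (h : Concentrated X) : Menger X := by
  obtain ⟨D, hDX, hD, hW⟩ := h
  apply menger_of_sel
  intro V hV
  obtain ⟨g, -, -, hg⟩ := (Menger.countable hD).sel (hV.subset hDX)
  have ho : IsOpen (⋃ n, V n (g n)) := isOpen_iUnion fun n => hV.op _ _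
  have hDW : D ⊆ ⋃ n, V n (g n) := fun x hx => by
    obtain ⟨n, -, hn⟩ := hg x hx 0
    exact mem_iUnion.2 ⟨n, hn⟩
  obtain ⟨g', -, -, hg'⟩ := (menger_of_lt (hW _ ho hDW)).sel (hV.subset sdiff_subset)
  refine ⟨fun n => max (g n) (g' n), fun x hx => ?_⟩
  by_cases hxW : x ∈ ⋃ n, V n (g n)
  · obtain ⟨n, hn⟩ := mem_iUnion.1 hxW
    exact ⟨n, hV.mono _ _ _ (le_max_left _ _) hn⟩
  · obtain ⟨n, -, hn⟩ := hg' x ⟨hx, hxW⟩ 0
    exact ⟨n, hV.mono _ _ _ (le_max_right _ _) hn⟩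

theorem Concentrated.of_lt {X : Set ℝ} (h : #X < dd) : Concentrated X :=
  ⟨∅, empty_subset _, countable_empty, fun _ _ _ => lt_of_le_of_lt (mk_le_mk_of_subset sdiff_subset) h⟩

/-- The sequences which are eventually equal to `v`. -/
def cof (v : Bool) : Set (ℕ → Bool) := {c | ∃ n, ∀ a, n ≤ a → c a = v}

theorem countable_cof (v : Bool) : (cof v).Countable := by
  have : cof v ⊆ ⋃ n, range fun s : (Fin n → Bool) => fun a : ℕ => if h : a < n then s ⟨a, h⟩ else v := by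
    rintro c ⟨n, hn⟩
    refine mem_iUnion.2 ⟨n, fun a => c a, ?_⟩
    funext a
    by_cases h : a < n
    · simp [h]
    · simp [h, hn a (not_lt.1 h)]
  exact (countable_iUnion fun n => countable_range _).mono this

/-- An open neighbourhood of `cof v` contains all sequences with a long run of `v`. -/
theorem exists_run (v : Bool) {W : Set (ℕ → Bool)} (hW : IsOpen W) (h : cof v ⊆ W) :
    ∃ b : ℕ → ℕ, ∀ n, ∀ c : ℕ → Bool, (∀ a, n ≤ a → a ≤ b n → c a = v) → c ∈ W := by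
  have h1 : ∀ n, ∃ m, {c : ℕ → Bool | ∀ a, n ≤ a → a ≤ m → c a = v} ⊆ W := by
    intro n
    apply exists_subset_nhds_of_compactSpace (V := fun m => {c : ℕ → Bool | ∀ a, n ≤ a → a ≤ m → c a = v})
    · exact directed_of_isDirected_le fun m m' hm c hc a h1 h2 => hc a h1 (h2.trans hm)
    · intro m
      simp only [ofPred_forall]
      exact isClosed_iInter fun a => isClosed_iInter fun _ => isClosed_iInter fun _ =>
        (isClosed_discrete ({v} : Set Bool)).preimage (f := fun c : ℕ → Bool => c a) (by fun_prop)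
    · intro c hc
      refine hW.mem_nhds (h ⟨n, fun a ha => ?_⟩)
      exact mem_iInter.1 hc a a ha le_rfl
  choose b hb using h1
  exact ⟨b, fun n c hc => hb n hc⟩

theorem isOpen_hit2 (v : Bool) (n m : ℕ) :
    IsOpen {c : ℕ → Bool | ∀ e < 2, ∃ a, n ≤ a ∧ a ≤ m ∧ c (2 * a + e) = v} := by
  have : {c : ℕ → Bool | ∀ e < 2, ∃ a, n ≤ a ∧ a ≤ m ∧ c (2 * a + e) = v} =
      ⋂ e ∈ Finset.range 2, ⋃ a ∈ {a | n ≤ a ∧ a ≤ m}, (fun c : ℕ → Bool => c (2 * a + e)) ⁻¹' {v} := by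
    ext c; simp [and_assoc]
  rw [this]
  exact isOpen_biInter_finset fun e _ => isOpen_biUnion fun a _ =>
    (isOpen_discrete _).preimage (continuous_apply _)

theorem hit2_cov (v : Bool) {T : Set (ℕ → Bool)} (hT : ∀ t ∈ T, ∀ e < 2, ∀ n, ∃ a, n ≤ a ∧ t (2 * a + e) = v) :
    IncCover T fun n m => {c : ℕ → Bool | ∀ e < 2, ∃ a, n ≤ a ∧ a ≤ m ∧ c (2 * a + e) = v} := by
  refine ⟨isOpen_hit2 v, ?_, ?_, ?_⟩
  · intro n m m' h c hc e he
    obtain ⟨a, h1, h2, h3⟩ := hc e he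
    exact ⟨a, h1, h2.trans h, h3⟩
  · intro n n' m h c hc e he
    obtain ⟨a, h1, h2, h3⟩ := hc e he
    exact ⟨a, h.trans h1, h2, h3⟩
  · intro n t ht
    obtain ⟨a, ha, hta⟩ := hT t ht 0 (by norm_num) n
    obtain ⟨a', ha', hta'⟩ := hT t ht 1 (by norm_num) n
    refine ⟨max a a', fun e he => ?_⟩
    interval_cases e
    · exact ⟨a, ha, le_max_left _ _, hta⟩
    · exact ⟨a', ha', le_max_right _ _, hta'⟩

/-- Simultaneous selections for a Menger set and a `𝔡`-concentrated set give a small unsplit family. -/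
theorem unsplit_of_PS (H : ∀ (Y : Set ℝ) (T : Set (ℕ → Bool)), Menger Y → Concentrated (emb '' T) → PS Y T) :
    ∃ R : Set (Set ℕ), Unsplit R ∧ #R < dd := by
  by_contra hc
  obtain ⟨ι, x, h1, h2, h3⟩ := exists_coded hc
  let T : Bool → Set (ℕ → Bool) := fun v => cof v ∪ range x
  have hT : ∀ v, Concentrated (emb '' (T v)) := by
    intro v
    refine ⟨emb '' (cof v), image_mono subset_union_left, (countable_cof v).image _, fun W hW hDW => ?_⟩
    have ho : IsOpen (emb ⁻¹' W) := hW.preimage isEmbedding_emb.continuous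
    obtain ⟨b, hb⟩ := exists_run v ho (image_subset_iff.1 hDW)
    refine lt_of_le_of_lt ?_ (h1 v b)
    have hsub : (emb '' (T v)) \ W ⊆
        (fun i => emb (x i)) '' {i | ¬ ∃ n, ∀ a, n ≤ a → a ≤ b n → x i a = v} := by
      rintro _ ⟨⟨c, hc | ⟨i, rfl⟩, rfl⟩, hcW⟩
      · exact absurd (hDW ⟨c, hc, rfl⟩) hcW
      · refine ⟨i, ?_, rfl⟩
        rintro ⟨n, hn⟩
        exact hcW (hb n _ hn)
    exact (mk_le_mk_of_subset hsub).trans mk_image_le
  have hTi : ∀ v, ∀ t ∈ T v, ∀ e < 2, ∀ n, ∃ a, n ≤ a ∧ t (2 * a + e) = v := by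
    rintro v t (⟨N, hN⟩ | ⟨i, rfl⟩) e he n
    · exact ⟨max n N, le_max_left _ _, hN _ (by omega)⟩
    · exact h2 i e he v n
  obtain ⟨g, -, -, hg⟩ := H (emb '' (T true)) (T false) (hT true).menger (hT false) _ _
    (emb_cov (hit2_cov true (hTi true))) (hit2_cov false (hTi false))
  obtain ⟨i, N, hN⟩ := h3 g
  obtain ⟨n, hn, h4, h5⟩ := hg (emb (x i)) ⟨x i, Or.inr ⟨i, rfl⟩, rfl⟩ (x i) (Or.inr ⟨i, rfl⟩) N
  rw [mem_ext_emb (hit2_cov true (hTi true))] at h4
  refine hN n hn fun v => ?_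
  cases v
  · exact h5
  · exact h4

/-- The ultrafilter. -/
theorem UM_of_PS' (hR : ∃ R : Set (Set ℕ), Unsplit R ∧ #R < dd)
    (H : ∀ (Y : Set ℝ) (T : Set (ℕ → Bool)), Menger Y → #(emb '' T : Set ℝ) < dd → PS Y T) :
    ∃ U : Ultrafilter ℕ, SmallU U ∧ ∀ X : Set ℝ, Menger X → UM U X := by
  obtain ⟨R, hR, hRc⟩ := hR
  obtain ⟨U, hU⟩ := exists_smallU hR hRc
  obtain ⟨B, hBc, hBU, hB⟩ := hU.base
  exact ⟨U, hU, fun X hX => UM_of_PS hU hBU hB
    (H X _ hX (lt_of_le_of_lt mk_image_le (lt_of_le_of_lt mk_image_le hBc)))⟩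

theorem UM_of_pairs (H : ∀ X : Set ℝ, Menger X → PairScheepers X) :
    ∃ U : Ultrafilter ℕ, SmallU U ∧ ∀ X : Set ℝ, Menger X → UM U X :=
  UM_of_PS' (unsplit_of_PS fun _ _ hY hT => PS_of_pairs H hY hT.menger)
    fun _ _ hY hT => PS_of_pairs H hY (menger_of_lt hT)

theorem UM_of_prod (H : ∀ X Y : Set ℝ, Concentrated X → Menger Y → Menger (X ×ˢ Y)) :
    ∃ U : Ultrafilter ℕ, SmallU U ∧ ∀ X : Set ℝ, Menger X → UM U X :=
  UM_of_PS' (unsplit_of_PS fun _ _ hY hT => PS_of_prod (H _ _ hT hY))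
    fun _ _ hY hT => PS_of_prod (H _ _ (Concentrated.of_lt hT) hY)

theorem UM_of_small (hR : ∃ R : Set (Set ℕ), Unsplit R ∧ #R < dd)
    (H : ∀ X Y : Set ℝ, #X < dd → Menger Y → Menger (X ×ˢ Y)) :
    ∃ U : Ultrafilter ℕ, SmallU U ∧ ∀ X : Set ℝ, Menger X → UM U X :=
  UM_of_PS' hR fun _ _ hY hT => PS_of_prod (H _ _ hT hY)

theorem SmallU.unsplit {U : Ultrafilter ℕ} (hU : SmallU U) : ∃ R : Set (Set ℕ), Unsplit R ∧ #R < dd := by
  obtain ⟨B, hBc, hBU, hB⟩ := hU.base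
  refine ⟨B, ⟨fun b hb => ?_, fun A => ?_⟩, hBc⟩
  · intro hf
    have h1 : ∀ᶠ a in (U : Filter ℕ), a ∈ b := hBU b hb
    have h2 : ∀ᶠ a in (U : Filter ℕ), a ∉ b := hU.np (by
      obtain ⟨M, hM⟩ := hf.bddAbove
      filter_upwards [eventually_gt_atTop M] with a ha hab
      exact absurd (hM hab) (not_le.2 ha))
    obtain ⟨a, ha1, ha2⟩ := (h1.and h2).exists
    exact ha2 ha1
  · rcases em (A ∈ U) with h | h
    · obtain ⟨b, hb, hbA⟩ := hB A h
      exact ⟨b, hb, Or.inr (by rw [sdiff_eq_empty.2 hbA]; exact finite_empty)⟩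
    · obtain ⟨b, hb, hbA⟩ := hB _ (Ultrafilter.compl_mem_iff_notMem.2 h)
      exact ⟨b, hb, Or.inl (by
        rw [show b ∩ A = ∅ from disjoint_iff_inter_eq_empty.1 (disjoint_left.2 fun a ha => hbA ha)]
        exact finite_empty)⟩

end Pool.Agent.Helper25.MS
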