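import Pool.Agent.Helper25.MS.Prod

/-!
Project MS.  Covering by fewer than `𝔡` compact subsets of a `G_δ` set.
-/

set_option autoImplicit false

namespace Pool.Agent.Helper25.MS

open Set Filter Cardinal Topology

/-- Every `G_δ` set which contains `X` contains fewer than `𝔡` compact sets which cover `X`. -/
def CompactlyCovered (X : Set ℝ) : Prop :=
  ∀ O : Set ℝ, IsGδ O → X ⊆ O → ∃ 𝓚 : Set (Set ℝ), #𝓚 < dd ∧ (∀ K ∈ 𝓚, IsCompact K ∧ K ⊆ O) ∧ X ⊆ ⋃₀ 𝓚

theorem UM.compactlyCovered {U : Ultrafilter ℕ} (hU : SmallU U) {X : Set ℝ} (h : UM U X) :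
    CompactlyCovered X := by
  intro O hO hXO
  obtain ⟨O0, hO0, rfl⟩ := hO.eq_iInter_nat
  let P : ℕ → Set ℝ := fun n => ⋂ i ∈ Finset.range (n + 1), O0 i
  have hPo : ∀ n, IsOpen (P n) := fun n => isOpen_biInter_finset fun i _ => hO0 i
  have hPm : ∀ n n', n ≤ n' → P n' ⊆ P n := fun n n' h => biInter_subset_biInter_left fun i hi => by
    simp only [Finset.mem_coe, Finset.mem_range] at hi ⊢; omega
  have hPO : ∀ n, P n ⊆ O0 n := fun n => biInter_subset_of_mem (by simp)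
  have hXP : ∀ n, X ⊆ P n := fun n x hx => mem_iInter₂.2 fun i _ => mem_iInter.1 (hXO hx) i
  let V : ℕ → ℕ → Set ℝ := fun n m => {x | ((m : ENNReal) + 1)⁻¹ < Metric.infEDist x (P n)ᶜ}
  have hV : IncCover X V := by
    refine ⟨fun n m => isOpen_lt continuous_const Metric.continuous_infEDist, fun n m m' h x hx => ?_,
      fun n n' m h x hx => ?_, fun n x hx => ?_⟩
    · refine lt_of_le_of_lt (ENNReal.inv_le_inv.2 ?_) hx
      gcongr
    · exact lt_of_lt_of_le hx (Metric.infEDist_anti (compl_subset_compl.2 (hPm n n' h)))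
    · have h1 : 0 < Metric.infEDist x (P n)ᶜ := by
        rw [Metric.infEDist_pos_iff_notMem_closure, (hPo n).isClosed_compl.closure_eq]
        exact fun hc => hc (hXP n hx)
      obtain ⟨m, hm⟩ := ENNReal.exists_inv_nat_lt h1.ne'
      refine ⟨m, lt_of_le_of_lt (ENNReal.inv_le_inv.2 ?_) hm⟩
      exact le_self_add
  obtain ⟨l, G, hl, hlG⟩ := h V hV
  obtain ⟨𝓑, hBc, hBU, hBb⟩ := hU.base
  let K : 𝓑 × ℕ → Set ℝ := fun v =>
    Icc (-(v.2 : ℝ)) v.2 ∩ ⋂ a ∈ v.1.1, {x | ((G a : ENNReal) + 1)⁻¹ ≤ Metric.infEDist x (P (l a))ᶜ}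
  refine ⟨range K, lt_of_le_of_lt mk_range_le ?_, ?_, fun x hx => ?_⟩
  · rw [mk_prod, lift_id, lift_id, mk_nat]
    exact mul_lt_of_lt aleph0_lt_dd.le hBc aleph0_lt_dd
  · rintro _ ⟨v, rfl⟩
    refine ⟨isCompact_Icc.inter_right ?_, fun x hx => mem_iInter.2 fun n => ?_⟩
    · exact isClosed_biInter fun a _ => isClosed_le continuous_const Metric.continuous_infEDist
    · have h1 : ∀ᶠ a in (U : Filter ℕ), n ≤ l a := hU.np (hl.eventually_ge_atTop n)
      have h2 : ∀ᶠ a in (U : Filter ℕ), a ∈ v.1.1 := hBU _ v.1.2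
      obtain ⟨a, ha1, ha2⟩ := (h1.and h2).exists
      have h3 : ((G a : ENNReal) + 1)⁻¹ ≤ Metric.infEDist x (P (l a))ᶜ := mem_iInter₂.1 hx.2 a ha2
      have h4 : 0 < Metric.infEDist x (P (l a))ᶜ := lt_of_lt_of_le (by simp) h3
      rw [Metric.infEDist_pos_iff_notMem_closure, (hPo _).isClosed_compl.closure_eq] at h4
      exact hPO n (hPm _ _ ha1 (not_not.1 h4))
  · obtain ⟨b, hb, hbx⟩ := hBb _ (hlG x hx)
    obtain ⟨N, hN⟩ := exists_nat_ge |x|
    refine ⟨_, ⟨(⟨b, hb⟩, N), rfl⟩, ?_, mem_iInter₂.2 fun a ha => ?_⟩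
    · exact abs_le.1 hN
    · exact (show ((G a : ENNReal) + 1)⁻¹ < Metric.infEDist x (P (l a))ᶜ from hbx ha).le

theorem CompactlyCovered.scheepers {X : Set ℝ} (h : CompactlyCovered X) : Scheepers X := by
  classical
  apply scheepers_of_sel
  intro V hV
  have hG : IsGδ (⋂ n, ⋃ m, V n m) := IsGδ.iInter_of_isOpen fun n => isOpen_iUnion fun m => hV.op n m
  obtain ⟨𝓚, hc, hK, hXK⟩ := h _ hG fun x hx => mem_iInter.2 fun n => by
    obtain ⟨m, hm⟩ := hV.cov n x hx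
    exact mem_iUnion.2 ⟨m, hm⟩
  have h1 : ∀ (K : 𝓚) (n : ℕ), ∃ m, K.1 ⊆ V n m := fun K n =>
    (hK K.1 K.2).1.elim_directed_cover (V n) (hV.op n) ((hK K.1 K.2).2.trans (iInter_subset _ n))
      (directed_of_isDirected_le fun m m' h => hV.mono n m m' h)
  choose f hf using h1
  have hfc : #(Finset 𝓚) < dd := by
    by_cases hi : Infinite 𝓚
    · rwa [mk_finset_of_infinite]
    · have : Finite 𝓚 := not_infinite_iff_finite.1 hi
      exact lt_trans (lt_aleph0_of_finite _) aleph0_lt_dd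
  obtain ⟨g, hg⟩ := exists_not_dom hfc fun s n => ∑ K ∈ s, f K n
  refine ⟨g, fun S hS => ?_⟩
  choose k hk hkx using fun x : S => hXK (hS x.2)
  obtain ⟨n, hn⟩ := (hg (Finset.univ.image fun x : S => (⟨k x, hk x⟩ : 𝓚))).exists
  refine ⟨n, fun x hx => ?_⟩
  refine hV.mono _ _ _ ?_ (hf ⟨k ⟨x, hx⟩, hk _⟩ n (hkx ⟨x, hx⟩))
  refine le_trans ?_ hn.le
  exact Finset.single_le_sum (f := fun K => f K n) (fun _ _ => Nat.zero_le _) (by simp)

end Pool.Agent.Helper25.MS
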