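import Pool.Agent.Helper25.MS.TripE

/-!
Project MS.  A covering property of the real line which, with the equality of the Menger and the Scheepers property,
gives productivity.
-/

set_option autoImplicit false

namespace Pool.Agent.Helper25.MS

open Set Filter Cardinal Topology

/-- For every function `R` which assigns to each countable set `S` of reals a family of fewer than `𝔡` open sets which
contain `S`, there are fewer than `𝔡` countable sets `S` such that every real number lies, for one of them, in all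
members of `R S`. -/
def LineConcentrated : Prop :=
  ∀ R : Set ℝ → Set (Set ℝ), (∀ S : Set ℝ, S.Countable → #(R S) < dd ∧ ∀ W ∈ R S, IsOpen W ∧ S ⊆ W) →
    ∃ 𝓢 : Set (Set ℝ), #𝓢 < dd ∧ (∀ S ∈ 𝓢, S.Countable) ∧ ∀ x : ℝ, ∃ S ∈ 𝓢, ∀ W ∈ R S, x ∈ W

theorem weaklyConcentrated_of_line (hreg : dd.IsRegular) (hL : LineConcentrated) {X : Set ℝ}
    (hX : CompactlyCovered X) : WeaklyConcentrated X := by
  classical
  intro κ hκ R hR
  have hinf : ℵ₀ ≤ dd := aleph0_lt_dd.le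
  have h1 : ∀ S : Set ℝ, ∃ 𝓚 : Set (Set ℝ), S.Countable →
      #𝓚 < dd ∧ (∀ K ∈ 𝓚, IsCompact K ∧ K ⊆ (S \ X)ᶜ) ∧ X ⊆ ⋃₀ 𝓚 := fun S => by
    by_cases hS : S.Countable
    · have hF : IsGδ (S \ X)ᶜ := (hS.mono sdiff_subset).isGδ_compl
      obtain ⟨𝓚, h2, h3, h4⟩ := hX _ hF fun x hx h => h.2 hx
      exact ⟨𝓚, fun _ => ⟨h2, h3, h4⟩⟩
    · exact ⟨∅, fun h => absurd h hS⟩
  choose 𝓚 h𝓚 using h1
  have hD : ∀ S : Set ℝ, S.Countable → ∀ K ∈ 𝓚 S, S ∩ K ⊆ X ∧ IsSigmaCompact (S ∩ K) := fun S hS K hK => by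
    refine ⟨fun x hx => ?_, ?_⟩
    · by_contra hxX
      exact ((h𝓚 S hS).2.1 K hK).2 hx.2 ⟨hx.1, hxX⟩
    · rw [← biUnion_of_singleton (S ∩ K)]
      exact isSigmaCompact_biUnion (hS.mono inter_subset_left) fun x _ => isCompact_singleton.isSigmaCompact
  obtain ⟨𝓢, h𝓢, h𝓢c, hcov⟩ := hL (fun S => ⋃ K : 𝓚 S, (fun W => W ∪ K.1ᶜ) '' R (S ∩ K.1)) fun S hS => by
    refine ⟨?_, ?_⟩
    · refine (card_iUnion_lt_iff_forall_of_isRegular hreg (h𝓚 S hS).1).2 fun K => ?_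
      exact lt_of_le_of_lt mk_image_le (lt_of_le_of_lt (hR _ (hD S hS _ K.2).1 (hD S hS _ K.2).2).1 hκ)
    · rintro W' hW'
      obtain ⟨K, W, hW, rfl⟩ := mem_iUnion.1 hW'
      have h2 := (hR _ (hD S hS _ K.2).1 (hD S hS _ K.2).2).2 W hW
      refine ⟨h2.1.union ((h𝓚 S hS).2.1 K.1 K.2).1.isClosed.isOpen_compl, fun x hx => ?_⟩
      by_cases hxK : x ∈ K.1
      · exact Or.inl (h2.2 ⟨hx, hxK⟩)
      · exact Or.inr hxK
  refine ⟨⋃ S : 𝓢, ⋃ K : 𝓚 S.1, {S.1 ∩ K.1}, ?_, ?_, fun x hx => ?_⟩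
  · refine (card_iUnion_lt_iff_forall_of_isRegular hreg h𝓢).2 fun S => ?_
    refine (card_iUnion_lt_iff_forall_of_isRegular hreg (h𝓚 S.1 (h𝓢c _ S.2)).1).2 fun K => ?_
    rw [mk_singleton]
    exact lt_of_lt_of_le one_lt_aleph0 hinf
  · intro D hDm
    obtain ⟨S, hS⟩ := mem_iUnion.1 hDm
    obtain ⟨K, hK⟩ := mem_iUnion.1 hS
    rw [mem_singleton_iff] at hK
    subst hK
    exact hD _ (h𝓢c _ S.2) _ K.2
  · obtain ⟨S, hS, hxS⟩ := hcov x
    obtain ⟨K, hK, hxK⟩ := (h𝓚 S (h𝓢c _ hS)).2.2 hx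
    refine ⟨S ∩ K, mem_iUnion.2 ⟨⟨S, hS⟩, mem_iUnion.2 ⟨⟨K, hK⟩, rfl⟩⟩, fun W hW => ?_⟩
    have h2 := hxS (W ∪ Kᶜ) (mem_iUnion.2 ⟨⟨K, hK⟩, W, hW, rfl⟩)
    rcases h2 with h2 | h2
    · exact h2
    · exact absurd hxK h2

theorem productive_of_line (H : ∀ X : Set ℝ, Menger X → Scheepers X) (hL : LineConcentrated) (X Y : Set ℝ)
    (hX : Menger X) (hY : Menger Y) : Menger (X ×ˢ Y) := by
  obtain ⟨U, hU, hUX⟩ := UM_of_pairs fun X hX => (H X hX).pair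
  exact (weak H X Y (weaklyConcentrated_of_line hU.isRegular hL ((hUX X hX).compactlyCovered hU)) hY).menger

end Pool.Agent.Helper25.MS
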