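import Mathlib

/-!
Project MS (MP_e47b01_lc): Menger sets, Scheepers sets and products.  Definitions and basic facts.
-/

set_option autoImplicit false

namespace Pool.Agent.Helper25.MS

open Set Filter Cardinal Topology

/-- The Menger property (covers by open sets of the ambient space). -/
def Menger {α : Type} [TopologicalSpace α] (X : Set α) : Prop :=
  ∀ U : ℕ → Set (Set α), (∀ n, (∀ s ∈ U n, IsOpen s) ∧ X ⊆ ⋃₀ U n) →
    ∃ F : ℕ → Finset (Set α), (∀ n, (↑(F n) : Set (Set α)) ⊆ U n) ∧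
      X ⊆ ⋃ n, ⋃₀ (↑(F n) : Set (Set α))

/-- The Scheepers property (covers by open sets of the ambient space). -/
def Scheepers {α : Type} [TopologicalSpace α] (X : Set α) : Prop :=
  ∀ U : ℕ → Set (Set α), (∀ n, (∀ s ∈ U n, IsOpen s) ∧ X ⊆ ⋃₀ U n) →
    ∃ F : ℕ → Finset (Set α), (∀ n, (↑(F n) : Set (Set α)) ⊆ U n) ∧
      ∀ S : Finset α, (↑S : Set α) ⊆ X → ∃ n, (↑S : Set α) ⊆ ⋃₀ (↑(F n) : Set (Set α))

/-- The Scheepers property for pairs of points. -/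
def PairScheepers {α : Type} [TopologicalSpace α] (X : Set α) : Prop :=
  ∀ U : ℕ → Set (Set α), (∀ n, (∀ s ∈ U n, IsOpen s) ∧ X ⊆ ⋃₀ U n) →
    ∃ F : ℕ → Finset (Set α), (∀ n, (↑(F n) : Set (Set α)) ⊆ U n) ∧
      ∀ x ∈ X, ∀ y ∈ X, ∃ n, x ∈ ⋃₀ (↑(F n) : Set (Set α)) ∧ y ∈ ⋃₀ (↑(F n) : Set (Set α))

/-- Dominating families. -/
def Dom (D : Set (ℕ → ℕ)) : Prop := ∀ f : ℕ → ℕ, ∃ g ∈ D, ∀ᶠ n in atTop, f n ≤ g n

/-- The dominating number. -/
noncomputable def dd : Cardinal.{0} := sInf {c | ∃ D : Set (ℕ → ℕ), Dom D ∧ #D = c}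

theorem exists_dom : ∃ D : Set (ℕ → ℕ), Dom D ∧ #D = dd := by
  have h : {c : Cardinal.{0} | ∃ D : Set (ℕ → ℕ), Dom D ∧ #D = c}.Nonempty :=
    ⟨_, univ, fun f => ⟨f, mem_univ f, Eventually.of_forall fun _ => le_rfl⟩, rfl⟩
  exact csInf_mem h

theorem not_dom {D : Set (ℕ → ℕ)} (h : #D < dd) : ¬ Dom D := fun hD =>
  absurd (csInf_le' (show #D ∈ {c : Cardinal.{0} | ∃ D : Set (ℕ → ℕ), Dom D ∧ #D = c} from ⟨D, hD, rfl⟩)) (not_le.2 h)

theorem exists_not_dom {ι : Type} (hι : #ι < dd) (F : ι → ℕ → ℕ) :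
    ∃ f : ℕ → ℕ, ∀ i, ∃ᶠ n in atTop, F i n < f n := by
  have h : #(range F) < dd := lt_of_le_of_lt mk_range_le hι
  have h2 := not_dom h
  unfold Dom at h2
  push Not at h2
  obtain ⟨f, hf⟩ := h2
  exact ⟨f, fun i => hf (F i) ⟨i, rfl⟩⟩

theorem aleph0_lt_dd : ℵ₀ < dd := by
  by_contra h
  have h := not_lt.1 h
  obtain ⟨D, hD, hDc⟩ := exists_dom
  rw [← hDc, mk_le_aleph0_iff] at h
  obtain ⟨g0, hg0, -⟩ := hD fun _ => 0
  have hne : D.Nonempty := ⟨g0, hg0⟩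
  obtain ⟨e, he⟩ := (Set.countable_coe_iff.1 h).exists_eq_range hne
  obtain ⟨g, hg, hgf⟩ := hD fun n => (∑ k ∈ Finset.range (n + 1), e k n) + 1
  rw [he] at hg
  obtain ⟨k, rfl⟩ := hg
  obtain ⟨n, hn, hkn⟩ := (hgf.and (eventually_ge_atTop k)).exists
  have : e k n ≤ ∑ k ∈ Finset.range (n + 1), e k n :=
    Finset.single_le_sum (f := fun k => e k n) (fun _ _ => Nat.zero_le _) (Finset.mem_range.2 (by omega))
  omega

/-- The partition lemma. -/
theorem part {ι : Type} (hι : #ι < dd) (F : ι → ℕ → ℕ) (b : ℕ → ℕ) :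
    ∃ p : ℕ → ℕ, StrictMono p ∧ p 0 = 0 ∧ (∀ k, b (p k) < p (k + 1)) ∧
      ∀ i, ∃ᶠ k in atTop, F i (p k) < p (k + 1) := by
  -- monotone majorants
  let M : (ℕ → ℕ) → ℕ → ℕ := fun f n => ∑ i ∈ Finset.range (n + 1), f i
  have hM : ∀ f n, f n ≤ M f n := fun f n =>
    Finset.single_le_sum (f := f) (fun _ _ => Nat.zero_le _) (Finset.mem_range.2 (by omega))
  have hMm : ∀ f, Monotone (M f) := fun f a c hac =>
    Finset.sum_le_sum_of_subset (Finset.range_mono (by omega))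
  obtain ⟨h0, hh0⟩ := exists_not_dom hι fun i n => M (F i) (M (F i) n)
  let h : ℕ → ℕ := M fun n => h0 n + b n + n + 1
  have hh : Monotone h := hMm _
  have hh1 : ∀ n, h0 n + b n + n + 1 ≤ h n := fun n => hM (fun n => h0 n + b n + n + 1) n
  let p : ℕ → ℕ := fun k => h^[k] 0
  have hp : ∀ k, p (k + 1) = h (p k) := fun k => Function.iterate_succ_apply' h k 0
  have hps : StrictMono p := strictMono_nat_of_lt_succ fun k => by
    rw [hp]; have := hh1 (p k); omega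
  refine ⟨p, hps, rfl, fun k => by rw [hp]; have := hh1 (p k); omega, fun i => ?_⟩
  rw [frequently_atTop]
  intro K
  obtain ⟨n, hn, hn2⟩ := (frequently_atTop.1 (hh0 i)) (p K)
  -- the block of `n`
  obtain ⟨k, hk1, hk2⟩ : ∃ k, p k ≤ n ∧ n < p (k + 1) := by
    have hex : ∃ k, n < p k := ⟨n + 1, lt_of_lt_of_le (Nat.lt_succ_self n) (hps.id_le _)⟩
    have h1 := Nat.find_spec hex
    have h2 : Nat.find hex ≠ 0 := by
      intro h0'; rw [h0'] at h1; exact absurd h1 (Nat.not_lt_zero _)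
    obtain ⟨k, hk⟩ := Nat.exists_eq_succ_of_ne_zero h2
    refine ⟨k, not_lt.1 (Nat.find_min hex (by omega)), ?_⟩
    rw [hk] at h1; exact h1
  have hKk : K ≤ k := by
    by_contra hc
    have : p (k + 1) ≤ p K := hps.monotone (by omega)
    omega
  by_cases hc : M (F i) (p k) < p (k + 1)
  · exact ⟨k, hKk, lt_of_le_of_lt (hM _ _) hc⟩
  · refine ⟨k + 1, by omega, ?_⟩
    calc F i (p (k + 1)) ≤ M (F i) (p (k + 1)) := hM _ _
      _ ≤ M (F i) (M (F i) (p k)) := hMm _ (not_lt.1 hc)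
      _ ≤ M (F i) (M (F i) n) := hMm _ (hMm _ hk1)
      _ < h0 n := hn2
      _ ≤ h n := by have := hh1 n; omega
      _ ≤ h (p (k + 1)) := hh hk2.le
      _ = p (k + 1 + 1) := (hp _).symm

/-- The block of `a` with respect to `p`. -/
def blk (p : ℕ → ℕ) (a : ℕ) : ℕ := Nat.findGreatest (fun k => p k ≤ a) a

theorem blk_le {p : ℕ → ℕ} (h0 : p 0 = 0) (a : ℕ) : p (blk p a) ≤ a :=
  Nat.findGreatest_spec (P := fun k => p k ≤ a) (Nat.zero_le a) (by simp [h0])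

theorem lt_blk {p : ℕ → ℕ} (hp : StrictMono p) (a : ℕ) : a < p (blk p a + 1) := by
  by_contra h
  have h := not_lt.1 h
  have h2 : blk p a + 1 ≤ a := le_trans (hp.id_le _) h
  have := Nat.le_findGreatest (P := fun k => p k ≤ a) h2 h
  unfold blk at *
  omega

theorem blk_eq {p : ℕ → ℕ} (hp : StrictMono p) (h0 : p 0 = 0) {a k : ℕ} (h1 : p k ≤ a) (h2 : a < p (k + 1)) :
    blk p a = k := by
  have h3 := blk_le h0 a
  have h4 := lt_blk hp a
  have h5 : blk p a < k + 1 := hp.lt_iff_lt.1 (lt_of_le_of_lt h3 h2)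
  have h6 : k < blk p a + 1 := hp.lt_iff_lt.1 (lt_of_le_of_lt h1 h4)
  omega

theorem tendsto_blk {p : ℕ → ℕ} (hp : StrictMono p) : Tendsto (blk p) atTop atTop := by
  rw [tendsto_atTop]
  intro b
  filter_upwards [eventually_ge_atTop (p b)] with a ha
  have h4 := lt_blk hp a
  have h6 : b < blk p a + 1 := hp.lt_iff_lt.1 (lt_of_le_of_lt ha h4)
  omega

/-- Open covers, increasing in the second and decreasing in the first index. -/
structure IncCover {α : Type} [TopologicalSpace α] (X : Set α) (V : ℕ → ℕ → Set α) : Prop where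
  op : ∀ n m, IsOpen (V n m)
  mono : ∀ n m m', m ≤ m' → V n m ⊆ V n m'
  anti : ∀ n n' m, n ≤ n' → V n' m ⊆ V n m
  cov : ∀ n, ∀ x ∈ X, ∃ m, x ∈ V n m

variable {α : Type} [TopologicalSpace α]

theorem IncCover.subset {X Y : Set α} {V : ℕ → ℕ → Set α} (h : IncCover X V) (hY : Y ⊆ X) : IncCover Y V :=
  ⟨h.op, h.mono, h.anti, fun n x hx => h.cov n x (hY hx)⟩

omit [TopologicalSpace α] in
theorem fin_le {V : ℕ → ℕ → Set α} {n : ℕ} (hm : ∀ m m', m ≤ m' → V n m ⊆ V n m')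
    (F : Finset (Set α)) (hF : (↑F : Set (Set α)) ⊆ range (V n)) : ∃ m, ⋃₀ (↑F : Set (Set α)) ⊆ V n m := by
  classical
  induction F using Finset.induction_on with
  | empty => exact ⟨0, by simp⟩
  | insert s F hs ih =>
    obtain ⟨m, hm'⟩ := ih (fun t ht => hF (by simp [ht]))
    obtain ⟨m2, hm2⟩ := hF (show s ∈ (↑(insert s F) : Set (Set α)) by simp)
    refine ⟨max m m2, ?_⟩
    rw [Finset.coe_insert, sUnion_insert]
    exact union_subset (hm2 ▸ hm _ _ (le_max_right _ _)) (hm'.trans (hm _ _ (le_max_left _ _)))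

/-- Refinement of a sequence of open covers. -/
theorem refine_cover [SecondCountableTopology α] {X : Set α} {U : ℕ → Set (Set α)}
    (hU : ∀ n, (∀ s ∈ U n, IsOpen s) ∧ X ⊆ ⋃₀ U n) :
    ∃ V : ℕ → ℕ → Set α, IncCover X V ∧
      ∀ n m, ∃ F : Finset (Set α), (↑F : Set (Set α)) ⊆ U n ∧ V n m ⊆ ⋃₀ (↑F : Set (Set α)) := by
  classical
  have h1 : ∀ n, ∃ e : ℕ → Set α, (∀ k, e k ∈ U n ∨ e k = ∅) ∧ X ⊆ ⋃ k, e k := by
    intro n
    obtain ⟨T, hT, hTU, hTeq⟩ := TopologicalSpace.isOpen_sUnion_countable (U n) (hU n).1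
    obtain ⟨e, he⟩ := (hT.insert ∅).exists_eq_range (insert_nonempty _ _)
    refine ⟨e, fun k => ?_, fun x hx => ?_⟩
    · have : e k ∈ insert ∅ T := he ▸ mem_range_self k
      rcases this with h | h
      · exact Or.inr h
      · exact Or.inl (hTU h)
    · have := (hU n).2 hx
      rw [← hTeq] at this
      obtain ⟨t, ht, hxt⟩ := this
      have : t ∈ range e := he ▸ mem_insert_of_mem _ ht
      obtain ⟨k, rfl⟩ := this
      exact mem_iUnion.2 ⟨k, hxt⟩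
  choose e he heX using h1
  have heo : ∀ n k, IsOpen (e n k) := fun n k => by
    rcases he n k with h | h
    · exact (hU n).1 _ h
    · rw [h]; exact isOpen_empty
  let V0 : ℕ → ℕ → Set α := fun n m => ⋃ k ∈ Finset.range (m + 1), e n k
  have hV0o : ∀ n m, IsOpen (V0 n m) := fun n m => isOpen_biUnion fun k _ => heo n k
  have hV0m : ∀ n m m', m ≤ m' → V0 n m ⊆ V0 n m' := fun n m m' hmm =>
    biUnion_subset_biUnion_left fun k hk => by
      simp only [Finset.mem_coe, Finset.mem_range] at hk ⊢; omega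
  let V : ℕ → ℕ → Set α := fun n m => ⋂ i ∈ Finset.range (n + 1), V0 i m
  refine ⟨V, ⟨fun n m => ?_, fun n m m' hmm => ?_, fun n n' m hnn => ?_, fun n x hx => ?_⟩, fun n m => ?_⟩
  · exact isOpen_biInter_finset fun i _ => hV0o i m
  · exact iInter₂_mono fun i _ => hV0m i m m' hmm
  · exact biInter_subset_biInter_left fun i hi => by
      simp only [Finset.mem_coe, Finset.mem_range] at hi ⊢; omega
  · have : ∀ i, ∃ m, x ∈ V0 i m := fun i => by
      obtain ⟨k, hk⟩ := mem_iUnion.1 (heX i hx)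
      exact ⟨k, mem_iUnion₂.2 ⟨k, by simp, hk⟩⟩
    choose m hm using this
    refine ⟨∑ i ∈ Finset.range (n + 1), m i, mem_iInter₂.2 fun i hi => hV0m i _ _ ?_ (hm i)⟩
    exact Finset.single_le_sum (f := m) (fun _ _ => Nat.zero_le _) hi
  · refine ⟨((Finset.range (m + 1)).image (e n)).filter (· ∈ U n), fun s hs => ?_, fun x hx => ?_⟩
    · simp only [Finset.coe_filter, mem_ofPred_eq] at hs
      exact hs.2
    · have h2 : x ∈ V0 n m := mem_iInter₂.1 hx n (by simp)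
      obtain ⟨k, hk, hxk⟩ := mem_iUnion₂.1 h2
      have hU' : e n k ∈ U n := by
        rcases he n k with h | h
        · exact h
        · rw [h] at hxk; exact absurd hxk (notMem_empty x)
      exact ⟨e n k, by simp only [Finset.coe_filter, mem_ofPred_eq, Finset.mem_image]
                       exact ⟨⟨k, hk, rfl⟩, hU'⟩, hxk⟩

omit [TopologicalSpace α] in
theorem sel_aux {V : ℕ → ℕ → Set α} (hV : ∀ n m m', m ≤ m' → V n m ⊆ V n m') (g0 : ℕ → ℕ → ℕ) :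
    ∃ g : ℕ → ℕ, Monotone g ∧ (∀ n, n ≤ g n) ∧ ∀ N k, V (N + k) (g0 N k) ⊆ V (N + k) (g (N + k)) := by
  let g : ℕ → ℕ := fun n => n + ∑ N ∈ Finset.range (n + 1), ∑ k ∈ Finset.range (n + 1), g0 N k
  refine ⟨g, fun a b hab => ?_, fun n => Nat.le_add_right _ _, fun N k => hV _ _ _ ?_⟩
  · refine Nat.add_le_add hab ?_
    calc ∑ N ∈ Finset.range (a + 1), ∑ k ∈ Finset.range (a + 1), g0 N k
        ≤ ∑ N ∈ Finset.range (a + 1), ∑ k ∈ Finset.range (b + 1), g0 N k :=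
          Finset.sum_le_sum fun N _ => Finset.sum_le_sum_of_subset (Finset.range_mono (by omega))
      _ ≤ _ := Finset.sum_le_sum_of_subset (Finset.range_mono (by omega))
  · calc g0 N k ≤ ∑ k' ∈ Finset.range (N + k + 1), g0 N k' :=
          Finset.single_le_sum (f := fun k' => g0 N k') (fun _ _ => Nat.zero_le _) (Finset.mem_range.2 (by omega))
      _ ≤ ∑ N' ∈ Finset.range (N + k + 1), ∑ k' ∈ Finset.range (N + k + 1), g0 N' k' :=
          Finset.single_le_sum (f := fun N' => ∑ k' ∈ Finset.range (N + k + 1), g0 N' k')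
            (fun _ _ => Nat.zero_le _) (Finset.mem_range.2 (by omega))
      _ ≤ g (N + k) := Nat.le_add_left _ _

theorem Menger.sel {X : Set α} {V : ℕ → ℕ → Set α} (hX : Menger X) (hV : IncCover X V) :
    ∃ g : ℕ → ℕ, Monotone g ∧ (∀ n, n ≤ g n) ∧ ∀ x ∈ X, ∀ N, ∃ n, N ≤ n ∧ x ∈ V n (g n) := by
  have h1 : ∀ N, ∃ g0 : ℕ → ℕ, ∀ x ∈ X, ∃ k, x ∈ V (N + k) (g0 k) := by
    intro N
    obtain ⟨F, hF, hFX⟩ := hX (fun n => range (V (N + n))) fun n => ⟨by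
      rintro s ⟨m, rfl⟩; exact hV.op _ _, fun x hx => by
      obtain ⟨m, hm⟩ := hV.cov (N + n) x hx
      exact ⟨_, ⟨m, rfl⟩, hm⟩⟩
    have h2 : ∀ k, ∃ m, ⋃₀ (↑(F k) : Set (Set α)) ⊆ V (N + k) m := fun k =>
      fin_le (fun m m' => hV.mono _ m m') (F k) (hF k)
    choose g0 hg0 using h2
    refine ⟨g0, fun x hx => ?_⟩
    obtain ⟨k, hk⟩ := mem_iUnion.1 (hFX hx)
    exact ⟨k, hg0 k hk⟩
  choose g0 hg0 using h1
  obtain ⟨g, hg1, hg2, hg3⟩ := sel_aux hV.mono g0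
  refine ⟨g, hg1, hg2, fun x hx N => ?_⟩
  obtain ⟨k, hk⟩ := hg0 N x hx
  exact ⟨N + k, Nat.le_add_right _ _, hg3 N k hk⟩

theorem Scheepers.sel {X : Set α} {V : ℕ → ℕ → Set α} (hX : Scheepers X) (hV : IncCover X V) :
    ∃ g : ℕ → ℕ, Monotone g ∧ (∀ n, n ≤ g n) ∧
      ∀ S : Finset α, (↑S : Set α) ⊆ X → ∀ N, ∃ n, N ≤ n ∧ (↑S : Set α) ⊆ V n (g n) := by
  have h1 : ∀ N, ∃ g0 : ℕ → ℕ, ∀ S : Finset α, (↑S : Set α) ⊆ X → ∃ k, (↑S : Set α) ⊆ V (N + k) (g0 k) := by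
    intro N
    obtain ⟨F, hF, hFX⟩ := hX (fun n => range (V (N + n))) fun n => ⟨by
      rintro s ⟨m, rfl⟩; exact hV.op _ _, fun x hx => by
      obtain ⟨m, hm⟩ := hV.cov (N + n) x hx
      exact ⟨_, ⟨m, rfl⟩, hm⟩⟩
    have h2 : ∀ k, ∃ m, ⋃₀ (↑(F k) : Set (Set α)) ⊆ V (N + k) m := fun k =>
      fin_le (fun m m' => hV.mono _ m m') (F k) (hF k)
    choose g0 hg0 using h2
    refine ⟨g0, fun S hS => ?_⟩
    obtain ⟨k, hk⟩ := hFX S hS
    exact ⟨k, hk.trans (hg0 k)⟩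
  choose g0 hg0 using h1
  obtain ⟨g, hg1, hg2, hg3⟩ := sel_aux hV.mono g0
  refine ⟨g, hg1, hg2, fun S hS N => ?_⟩
  obtain ⟨k, hk⟩ := hg0 N S hS
  exact ⟨N + k, Nat.le_add_right _ _, hk.trans (hg3 N k)⟩

theorem PairScheepers.sel {X : Set α} {V : ℕ → ℕ → Set α} (hX : PairScheepers X) (hV : IncCover X V) :
    ∃ g : ℕ → ℕ, Monotone g ∧ (∀ n, n ≤ g n) ∧
      ∀ x ∈ X, ∀ y ∈ X, ∀ N, ∃ n, N ≤ n ∧ x ∈ V n (g n) ∧ y ∈ V n (g n) := by
  have h1 : ∀ N, ∃ g0 : ℕ → ℕ, ∀ x ∈ X, ∀ y ∈ X, ∃ k, x ∈ V (N + k) (g0 k) ∧ y ∈ V (N + k) (g0 k) := by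
    intro N
    obtain ⟨F, hF, hFX⟩ := hX (fun n => range (V (N + n))) fun n => ⟨by
      rintro s ⟨m, rfl⟩; exact hV.op _ _, fun x hx => by
      obtain ⟨m, hm⟩ := hV.cov (N + n) x hx
      exact ⟨_, ⟨m, rfl⟩, hm⟩⟩
    have h2 : ∀ k, ∃ m, ⋃₀ (↑(F k) : Set (Set α)) ⊆ V (N + k) m := fun k =>
      fin_le (fun m m' => hV.mono _ m m') (F k) (hF k)
    choose g0 hg0 using h2
    refine ⟨g0, fun x hx y hy => ?_⟩
    obtain ⟨k, hk⟩ := hFX x hx y hy
    exact ⟨k, hg0 k hk.1, hg0 k hk.2⟩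
  choose g0 hg0 using h1
  obtain ⟨g, hg1, hg2, hg3⟩ := sel_aux hV.mono g0
  refine ⟨g, hg1, hg2, fun x hx y hy N => ?_⟩
  obtain ⟨k, hk⟩ := hg0 N x hx y hy
  exact ⟨N + k, Nat.le_add_right _ _, hg3 N k hk.1, hg3 N k hk.2⟩

theorem Scheepers.pair {X : Set α} (h : Scheepers X) : PairScheepers X := by
  classical
  intro U hU
  obtain ⟨F, hF, hFS⟩ := h U hU
  refine ⟨F, hF, fun x hx y hy => ?_⟩
  obtain ⟨n, hn⟩ := hFS {x, y} (by
    intro z hz
    simp only [Finset.coe_insert, Finset.coe_singleton, mem_insert_iff, mem_singleton_iff] at hz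
    rcases hz with rfl | rfl
    · exact hx
    · exact hy)
  exact ⟨n, hn (by simp), hn (by simp)⟩

theorem menger_of_sel [SecondCountableTopology α] {X : Set α}
    (h : ∀ V, IncCover X V → ∃ g : ℕ → ℕ, ∀ x ∈ X, ∃ n, x ∈ V n (g n)) : Menger X := by
  intro U hU
  obtain ⟨V, hV, hVF⟩ := refine_cover hU
  obtain ⟨g, hg⟩ := h V hV
  choose F hF hVF using fun n => hVF n (g n)
  refine ⟨F, hF, fun x hx => ?_⟩
  obtain ⟨n, hn⟩ := hg x hx
  exact mem_iUnion.2 ⟨n, hVF n hn⟩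

theorem scheepers_of_sel [SecondCountableTopology α] {X : Set α}
    (h : ∀ V, IncCover X V → ∃ g : ℕ → ℕ, ∀ S : Finset α, (↑S : Set α) ⊆ X → ∃ n, (↑S : Set α) ⊆ V n (g n)) :
    Scheepers X := by
  intro U hU
  obtain ⟨V, hV, hVF⟩ := refine_cover hU
  obtain ⟨g, hg⟩ := h V hV
  choose F hF hVF using fun n => hVF n (g n)
  refine ⟨F, hF, fun S hS => ?_⟩
  obtain ⟨n, hn⟩ := hg S hS
  exact ⟨n, hn.trans (hVF n)⟩

theorem Scheepers.menger {X : Set α} (h : Scheepers X) : Menger X := by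
  intro U hU
  obtain ⟨F, hF, hFS⟩ := h U hU
  refine ⟨F, hF, fun x hx => ?_⟩
  obtain ⟨n, hn⟩ := hFS {x} (by simpa using hx)
  exact mem_iUnion.2 ⟨n, hn (by simp)⟩

/-- Sets with fewer than `𝔡` elements are Menger. -/
theorem menger_of_lt [SecondCountableTopology α] {X : Set α} (h : #X < dd) : Menger X := by
  apply menger_of_sel
  intro V hV
  choose f hf using fun (x : X) n => hV.cov n x.1 x.2
  obtain ⟨g, hg⟩ := exists_not_dom h f
  refine ⟨g, fun x hx => ?_⟩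
  obtain ⟨n, hn⟩ := (hg ⟨x, hx⟩).exists
  exact ⟨n, hV.mono _ _ _ hn.le (hf ⟨x, hx⟩ n)⟩

end Pool.Agent.Helper25.MS
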