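import Pool.Agent.Helper25.MS.Aub

/-!
Project MS.  Disjoint unions and embeddings in the real line.
-/

set_option autoImplicit false

namespace Pool.Agent.Helper25.MS

open Set Filter Cardinal Topology

section Ext

variable {α β : Type} [TopologicalSpace α] [TopologicalSpace β]

/-- The largest open set whose preimage is contained in `V`. -/
def ext (j : α → β) (V : Set α) : Set β := ⋃₀ {W | IsOpen W ∧ j ⁻¹' W ⊆ V}

omit [TopologicalSpace α] in
theorem isOpen_ext (j : α → β) (V : Set α) : IsOpen (ext j V) := isOpen_sUnion fun _ h => h.1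

omit [TopologicalSpace α] in
theorem ext_mono (j : α → β) {V V' : Set α} (h : V ⊆ V') : ext j V ⊆ ext j V' :=
  sUnion_subset_sUnion fun _ hW => ⟨hW.1, hW.2.trans h⟩

theorem mem_ext {j : α → β} (hj : IsInducing j) {V : Set α} (hV : IsOpen V) {x : α} :
    j x ∈ ext j V ↔ x ∈ V := by
  constructor
  · rintro ⟨W, hW, hx⟩
    exact hW.2 hx
  · intro hx
    obtain ⟨W, hW, rfl⟩ := hj.isOpen_iff.1 hV
    exact ⟨W, ⟨hW, Subset.rfl⟩, hx⟩

theorem Menger.image [SecondCountableTopology β] {X : Set α} {e : α → β} (he : Continuous e)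
    (hX : Menger X) : Menger (e '' X) := by
  apply menger_of_sel
  intro V hV
  have h1 : IncCover X fun n m => e ⁻¹' (V n m) :=
    ⟨fun n m => (hV.op n m).preimage he, fun n m m' h => preimage_mono (hV.mono n m m' h),
      fun n n' m h => preimage_mono (hV.anti n n' m h), fun n x hx => hV.cov n (e x) ⟨x, hx, rfl⟩⟩
  obtain ⟨g, -, -, hg⟩ := hX.sel h1
  refine ⟨g, ?_⟩
  rintro _ ⟨x, hx, rfl⟩
  obtain ⟨n, -, hn⟩ := hg x hx 0
  exact ⟨n, hn⟩

end Ext

/-- Simultaneous selections for two Menger sets, from the Scheepers property for pairs. -/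
theorem pairs2 (H : ∀ X : Set ℝ, Menger X → PairScheepers X) {X Y : Set ℝ} (hX : Menger X) (hY : Menger Y)
    {V W : ℕ → ℕ → Set ℝ} (hV : IncCover X V) (hW : IncCover Y W) :
    ∃ g : ℕ → ℕ, Monotone g ∧ (∀ n, n ≤ g n) ∧
      ∀ x ∈ X, ∀ y ∈ Y, ∀ N, ∃ n, N ≤ n ∧ x ∈ V n (g n) ∧ y ∈ W n (g n) := by
  classical
  let j : Bool → ℝ → ℝ := fun b => if b then Real.exp else fun x => -Real.exp x
  let P : Bool → Set ℝ := fun b => if b then Ioi 0 else Iio 0
  let X' : Bool → Set ℝ := fun b => if b then X else Y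
  let V' : Bool → ℕ → ℕ → Set ℝ := fun b => if b then V else W
  have hexp : IsInducing Real.exp := Real.isOpenEmbedding_exp.isInducing
  have hneg : IsInducing (fun x : ℝ => -x) := (Homeomorph.neg ℝ).isInducing
  have hj : ∀ b, IsInducing (j b) := fun b => by
    cases b
    · exact hneg.comp hexp
    · exact hexp
  have hP : ∀ b, IsOpen (P b) := fun b => by
    cases b
    · exact isOpen_Iio
    · exact isOpen_Ioi
  have hd : ∀ b b' z, z ∈ P b → z ∈ P b' → b = b' := by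
    rintro (_ | _) (_ | _) z h1 h2
    · rfl
    · exact absurd (show z < 0 from h1) (not_lt.2 (show (0 : ℝ) < z from h2).le)
    · exact absurd (show z < 0 from h2) (not_lt.2 (show (0 : ℝ) < z from h1).le)
    · rfl
  have hr : ∀ b x, j b x ∈ P b := by
    rintro (_ | _) x
    · show -Real.exp x < 0
      linarith [Real.exp_pos x]
    · exact Real.exp_pos x
  have hX' : ∀ b, Menger (X' b) := fun b => by
    cases b
    · exact hY
    · exact hX
  have hV' : ∀ b, IncCover (X' b) (V' b) := fun b => by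
    cases b
    · exact hW
    · exact hV
  let Z : Set ℝ := ⋃ i, j i '' X' i
  have hZ : Menger Z := by
    apply menger_of_sel
    intro W hW
    have h1 : ∀ i, ∃ g : ℕ → ℕ, ∀ x ∈ X' i, ∃ n, j i x ∈ W n (g n) := fun i => by
      have h2 : IncCover (X' i) fun n m => j i ⁻¹' W n m :=
        ⟨fun n m => (hW.op n m).preimage (hj i).continuous, fun n m m' h => preimage_mono (hW.mono n m m' h),
          fun n n' m h => preimage_mono (hW.anti n n' m h),
          fun n x hx => hW.cov n (j i x) (mem_iUnion.2 ⟨i, x, hx, rfl⟩)⟩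
      obtain ⟨g, -, -, hg⟩ := (hX' i).sel h2
      exact ⟨g, fun x hx => by obtain ⟨n, -, hn⟩ := hg x hx 0; exact ⟨n, hn⟩⟩
    choose g hg using h1
    refine ⟨fun n => ∑ i, g i n, fun z hz => ?_⟩
    obtain ⟨i, x, hx, rfl⟩ := mem_iUnion.1 hz
    obtain ⟨n, hn⟩ := hg i x hx
    exact ⟨n, hW.mono _ _ _
      (Finset.single_le_sum (f := fun i => g i n) (fun _ _ => Nat.zero_le _) (Finset.mem_univ i)) hn⟩
  have hcov : IncCover Z fun n m => ⋃ i, ext (j i) (V' i n m) ∩ P i := by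
    refine ⟨fun n m => isOpen_iUnion fun i => (isOpen_ext _ _).inter (hP i),
      fun n m m' h => iUnion_mono fun i => inter_subset_inter_left _ (ext_mono _ ((hV' i).mono n m m' h)),
      fun n n' m h => iUnion_mono fun i => inter_subset_inter_left _ (ext_mono _ ((hV' i).anti n n' m h)),
      fun n z hz => ?_⟩
    obtain ⟨i, x, hx, rfl⟩ := mem_iUnion.1 hz
    obtain ⟨m, hm⟩ := (hV' i).cov n x hx
    exact ⟨m, mem_iUnion.2 ⟨i, (mem_ext (hj i) ((hV' i).op n m)).2 hm, hr i x⟩⟩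
  obtain ⟨g, hg1, hg2, hg3⟩ := (H Z hZ).sel hcov
  have key : ∀ b n m x, j b x ∈ (⋃ i, ext (j i) (V' i n m) ∩ P i) → x ∈ V' b n m := by
    intro b n m x hx
    obtain ⟨i, h2, h3⟩ := mem_iUnion.1 hx
    obtain rfl := hd b i _ (hr b x) h3
    exact (mem_ext (hj b) ((hV' b).op _ _)).1 h2
  refine ⟨g, hg1, hg2, fun x hx y hy N => ?_⟩
  obtain ⟨n, hn, h1, h2⟩ := hg3 (j true x) (mem_iUnion.2 ⟨true, x, hx, rfl⟩) (j false y)
    (mem_iUnion.2 ⟨false, y, hy, rfl⟩) N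
  exact ⟨n, hn, key true n _ x h1, key false n _ y h2⟩

theorem exists_emb : ∃ e : (ℕ → Bool) → ℝ, IsEmbedding e := by
  have h : ¬ (univ : Set ℝ).Countable := Cardinal.not_countable_real
  obtain ⟨e, -, he, hi⟩ := isClosed_univ.exists_nat_bool_injection_of_not_countable h
  exact ⟨e, (he.isClosedEmbedding hi).isEmbedding⟩

/-- A fixed embedding of the Cantor space. -/
noncomputable def emb : (ℕ → Bool) → ℝ := Classical.choose exists_emb

theorem isEmbedding_emb : IsEmbedding emb := Classical.choose_spec exists_emb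

theorem emb_cov {X : Set (ℕ → Bool)} {W : ℕ → ℕ → Set (ℕ → Bool)} (hW : IncCover X W) :
    IncCover (emb '' X) fun n m => ext emb (W n m) := by
  refine ⟨fun n m => isOpen_ext _ _, fun n m m' h => ext_mono _ (hW.mono n m m' h),
    fun n n' m h => ext_mono _ (hW.anti n n' m h), ?_⟩
  rintro n _ ⟨x, hx, rfl⟩
  obtain ⟨m, hm⟩ := hW.cov n x hx
  exact ⟨m, (mem_ext isEmbedding_emb.isInducing (hW.op n m)).2 hm⟩

theorem mem_ext_emb {X : Set (ℕ → Bool)} {W : ℕ → ℕ → Set (ℕ → Bool)} (hW : IncCover X W) {n m : ℕ}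
    {x : ℕ → Bool} : emb x ∈ ext emb (W n m) ↔ x ∈ W n m :=
  mem_ext isEmbedding_emb.isInducing (hW.op n m)

/-- Simultaneous selections. -/
def PS (Y : Set ℝ) (T : Set (ℕ → Bool)) : Prop :=
  ∀ (V : ℕ → ℕ → Set ℝ) (W : ℕ → ℕ → Set (ℕ → Bool)), IncCover Y V → IncCover T W →
    ∃ g : ℕ → ℕ, Monotone g ∧ (∀ n, n ≤ g n) ∧
      ∀ y ∈ Y, ∀ t ∈ T, ∀ N, ∃ n, N ≤ n ∧ y ∈ V n (g n) ∧ t ∈ W n (g n)

theorem PS_of_pairs (H : ∀ X : Set ℝ, Menger X → PairScheepers X) {Y : Set ℝ} {T : Set (ℕ → Bool)}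
    (hY : Menger Y) (hT : Menger (emb '' T)) : PS Y T := by
  intro V W hV hW
  obtain ⟨g, hg1, hg2, hg3⟩ := pairs2 H hY hT hV (emb_cov hW)
  refine ⟨g, hg1, hg2, fun y hy t ht N => ?_⟩
  obtain ⟨n, hn, h1, h2⟩ := hg3 y hy (emb t) ⟨t, ht, rfl⟩ N
  exact ⟨n, hn, h1, (mem_ext_emb hW).1 h2⟩

theorem PS_of_prod {Y : Set ℝ} {T : Set (ℕ → Bool)} (h : Menger ((emb '' T) ×ˢ Y)) : PS Y T := by
  intro V W hV hW
  have h1 : IncCover ((emb '' T) ×ˢ Y) fun n m => ext emb (W n m) ×ˢ V n m := by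
    refine ⟨fun n m => (isOpen_ext _ _).prod (hV.op n m),
      fun n m m' h => prod_mono (ext_mono _ (hW.mono n m m' h)) (hV.mono n m m' h),
      fun n n' m h => prod_mono (ext_mono _ (hW.anti n n' m h)) (hV.anti n n' m h), ?_⟩
    rintro n ⟨_, y⟩ ⟨⟨t, ht, rfl⟩, hy⟩
    obtain ⟨m, hm⟩ := hW.cov n t ht
    obtain ⟨m', hm'⟩ := hV.cov n y hy
    exact ⟨max m m', (mem_ext_emb hW).2 (hW.mono _ _ _ (le_max_left _ _) hm),
      hV.mono _ _ _ (le_max_right _ _) hm'⟩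
  obtain ⟨g, hg1, hg2, hg3⟩ := h.sel h1
  refine ⟨g, hg1, hg2, fun y hy t ht N => ?_⟩
  obtain ⟨n, hn, h2, h3⟩ := hg3 (emb t, y) ⟨⟨t, ht, rfl⟩, hy⟩ N
  exact ⟨n, hn, h3, (mem_ext_emb hW).1 h2⟩

/-- The characteristic function. -/
noncomputable def chi (b : Set ℕ) : ℕ → Bool := fun n => by
  classical exact decide (n ∈ b)

theorem chi_iff (b : Set ℕ) (n : ℕ) : chi b n = true ↔ n ∈ b := by
  unfold chi; simp

theorem isOpen_hit (n m : ℕ) : IsOpen {c : ℕ → Bool | ∃ a, n ≤ a ∧ a ≤ m ∧ c a = true} := by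
  have : {c : ℕ → Bool | ∃ a, n ≤ a ∧ a ≤ m ∧ c a = true} =
      ⋃ a ∈ {a | n ≤ a ∧ a ≤ m}, (fun c : ℕ → Bool => c a) ⁻¹' {true} := by
    ext c; simp [and_assoc]
  rw [this]
  exact isOpen_biUnion fun a _ => (isOpen_discrete _).preimage (continuous_apply a)

/-- The cover by hitting sets. -/
theorem hit_cov {T : Set (ℕ → Bool)} (hT : ∀ t ∈ T, ∀ n, ∃ a, n ≤ a ∧ t a = true) :
    IncCover T fun n m => {c : ℕ → Bool | ∃ a, n ≤ a ∧ a ≤ m ∧ c a = true} := by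
  refine ⟨isOpen_hit, ?_, ?_, ?_⟩
  · rintro n m m' h c ⟨a, h1, h2, h3⟩
    exact ⟨a, h1, h2.trans h, h3⟩
  · rintro n n' m h c ⟨a, h1, h2, h3⟩
    exact ⟨a, h.trans h1, h2, h3⟩
  · intro n t ht
    obtain ⟨a, ha, hta⟩ := hT t ht n
    exact ⟨a, a, ha, le_rfl, hta⟩

/-- Menger sets are bounded modulo `U`, if simultaneous selections with the base of `U` exist. -/
theorem UM_of_PS {U : Ultrafilter ℕ} (hU : SmallU U) {B : Set (Set ℕ)} (hBU : ∀ b ∈ B, b ∈ U)
    (hB : ∀ A ∈ U, ∃ b ∈ B, b ⊆ A) {Y : Set ℝ} (h : PS Y (chi '' B)) : UM U Y := by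
  refine UM_of_sel hB fun V hV => ?_
  obtain ⟨g, hg1, hg2, hg3⟩ := h V _ hV (hit_cov (T := chi '' B) (by
    rintro _ ⟨b, hb, rfl⟩ n
    have h1 : ∀ᶠ a in (U : Filter ℕ), n ≤ a := hU.np (eventually_ge_atTop n)
    have h2 : ∀ᶠ a in (U : Filter ℕ), a ∈ b := hBU b hb
    obtain ⟨a, ha1, ha2⟩ := (h1.and h2).exists
    exact ⟨a, ha1, (chi_iff b a).2 ha2⟩))
  refine ⟨g, hg1, hg2, fun x hx b hb => ?_⟩
  obtain ⟨n, -, hn, a, ha1, ha2, ha3⟩ := hg3 x hx (chi b) ⟨b, hb, rfl⟩ 0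
  exact ⟨n, hn, a, (chi_iff b a).1 ha3, ha1, ha2⟩

end Pool.Agent.Helper25.MS
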