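import Pool.Agent.Helper25.MS.Uni
import Pool.Agent.Helper25.MS.Cpt

/-!
Project MS.  The equivalences.
-/

set_option autoImplicit false

namespace Pool.Agent.Helper25.MS

open Set Filter Cardinal Topology

/-- The Menger property modulo the ultrafilter `U`: for every sequence of open covers there are a function `l`
which tends to infinity and finite subfamilies `F a` of the covers with number `l a` such that, for each `x` in `X`,
the set of the `a` for which `F a` covers `x` belongs to `U`. -/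
def MengerMod (U : Ultrafilter ℕ) (X : Set ℝ) : Prop :=
  ∀ C : ℕ → Set (Set ℝ), (∀ n, (∀ s ∈ C n, IsOpen s) ∧ X ⊆ ⋃₀ C n) →
    ∃ (l : ℕ → ℕ) (F : ℕ → Finset (Set ℝ)), Tendsto l atTop atTop ∧
      (∀ a, (↑(F a) : Set (Set ℝ)) ⊆ C (l a)) ∧ ∀ x ∈ X, {a | x ∈ ⋃₀ (↑(F a) : Set (Set ℝ))} ∈ U

theorem mengerMod_iff {U : Ultrafilter ℕ} {X : Set ℝ} : MengerMod U X ↔ UM U X := by
  constructor
  · intro h V hV
    obtain ⟨l, F, hl, hF, hx⟩ := h (fun n => range (V n)) fun n => ⟨by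
      rintro s ⟨m, rfl⟩; exact hV.op _ _, fun x hx => by
      obtain ⟨m, hm⟩ := hV.cov n x hx
      exact ⟨_, ⟨m, rfl⟩, hm⟩⟩
    choose G hG using fun a => fin_le (fun m m' => hV.mono (l a) m m') (F a) (hF a)
    refine ⟨l, G, hl, fun x hx' => ?_⟩
    filter_upwards [hx x hx'] with a ha using hG a ha
  · intro h C hC
    obtain ⟨V, hV, hVF⟩ := refine_cover hC
    obtain ⟨l, G, hl, hlG⟩ := h V hV
    choose F hF hVF' using fun a => hVF (l a) (G a)
    refine ⟨l, F, hl, hF, fun x hx => ?_⟩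
    filter_upwards [hlG x hx] with a ha using hVF' a ha

/-- The statement that an ultrafilter as in (6) exists. -/
theorem tfae : List.TFAE [
    ∀ X : Set ℝ, Menger X → Scheepers X,
    ∀ X : Set ℝ, Menger X → PairScheepers X,
    ∀ X Y : Set ℝ, Concentrated X → Menger Y → Menger (X ×ˢ Y),
    ∀ X Y : Set ℝ, Concentrated X → Menger Y → Scheepers (X ×ˢ Y),
    (∃ R : Set (Set ℕ), Unsplit R ∧ #R < dd) ∧
      ∀ 𝓢 : Set (Set ℝ), #𝓢 < dd → (∀ S ∈ 𝓢, Menger S) → Menger (⋃₀ 𝓢),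
    ∀ X : Set ℝ, Menger X → CompactlyCovered X,
    ∃ U : Ultrafilter ℕ, SmallU U ∧ ∀ X : Set ℝ, Menger X → MengerMod U X] := by
  tfae_have 1 → 2 := fun h X hX => (h X hX).pair
  tfae_have 2 → 7 := fun h => by
    obtain ⟨U, hU, hUX⟩ := UM_of_pairs h
    exact ⟨U, hU, fun X hX => mengerMod_iff.2 (hUX X hX)⟩
  tfae_have 7 → 4 := fun ⟨U, hU, hUX⟩ X Y hX hY =>
    (prod_conc hU (mengerMod_iff.1 (hUX Y hY)) hX).scheepers
  tfae_have 4 → 3 := fun h X Y hX hY => (h X Y hX hY).menger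
  tfae_have 3 → 7 := fun h => by
    obtain ⟨U, hU, hUX⟩ := UM_of_prod h
    exact ⟨U, hU, fun X hX => mengerMod_iff.2 (hUX X hX)⟩
  tfae_have 7 → 5 := fun ⟨U, hU, hUX⟩ => ⟨hU.unsplit, fun 𝓢 hc hS =>
    (UM.sUnion hU hc fun S hS' => mengerMod_iff.1 (hUX S (hS S hS'))).scheepers.menger⟩
  tfae_have 5 → 7 := fun h => by
    obtain ⟨U, hU, hUX⟩ := UM_of_unions h.1 h.2
    exact ⟨U, hU, fun X hX => mengerMod_iff.2 (hUX X hX)⟩
  tfae_have 7 → 6 := fun ⟨U, hU, hUX⟩ X hX => (mengerMod_iff.1 (hUX X hX)).compactlyCovered hU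
  tfae_have 6 → 1 := fun h X hX => (h X hX).scheepers
  tfae_finish

theorem weak (H : ∀ X : Set ℝ, Menger X → Scheepers X) (X Y : Set ℝ) (hX : WeaklyConcentrated X)
    (hY : Menger Y) : Scheepers (X ×ˢ Y) := by
  obtain ⟨U, hU, hUX⟩ := UM_of_pairs fun X hX => (H X hX).pair
  exact (prod_weak hU (hUX Y hY) hX).scheepers

end Pool.Agent.Helper25.MS
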