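import Pool.Agent.Helper25.MS.Conc

/-!
Project MS.  Products of a Menger set with a `𝔡`-concentrated set, and with a weakly concentrated set.
-/

set_option autoImplicit false

namespace Pool.Agent.Helper25.MS

open Set Filter Cardinal Topology

/-- `X` is weakly concentrated: for every `κ < 𝔡` and every function which assigns to each `σ`-compact subset `D`
of `X` a family `R D` of at most `κ` open sets which contain `D`, there are fewer than `𝔡` sets `D` such that each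
point of `X` lies, for one of them, in all members of `R D`. -/
def WeaklyConcentrated (X : Set ℝ) : Prop :=
  ∀ κ < dd, ∀ R : Set ℝ → Set (Set ℝ),
    (∀ D, D ⊆ X → IsSigmaCompact D → #(R D) ≤ κ ∧ ∀ W ∈ R D, IsOpen W ∧ D ⊆ W) →
    ∃ 𝓓 : Set (Set ℝ), #𝓓 < dd ∧ (∀ D ∈ 𝓓, D ⊆ X ∧ IsSigmaCompact D) ∧
      ∀ x ∈ X, ∃ D ∈ 𝓓, ∀ W ∈ R D, x ∈ W

/-- Selections modulo `U` for one sequence of covers. -/
def Good (U : Ultrafilter ℕ) {α : Type} (V : ℕ → ℕ → Set α) (X : Set α) : Prop :=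
  ∃ l G : ℕ → ℕ, Tendsto l atTop atTop ∧ ∀ x ∈ X, ∀ᶠ a in (U : Filter ℕ), x ∈ V (l a) (G a)

theorem Good.iUnion {U : Ultrafilter ℕ} (hU : SmallU U) {α : Type} [TopologicalSpace α] {V : ℕ → ℕ → Set α}
    {Z : Set α} (hV : IncCover Z V) {ι : Type} (hι : #ι < dd)
    {X : ι → Set α} (h : ∀ i, Good U V (X i)) : Good U V (⋃ i, X i) := by
  choose l G hl hlG using h
  obtain ⟨l', G', hl', hlG'⟩ := merge hU hι l G hl
  refine ⟨l', G', hl', fun x hx => ?_⟩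
  obtain ⟨i, hi⟩ := mem_iUnion.1 hx
  filter_upwards [hlG i x hi, hlG' i] with a ha hb
  exact hV.mono _ _ _ hb.2 (hV.anti _ _ _ hb.1 ha)

theorem Good.subset {U : Ultrafilter ℕ} {α : Type} {V : ℕ → ℕ → Set α} {X Y : Set α} (h : Good U V X)
    (hY : Y ⊆ X) : Good U V Y := by
  obtain ⟨l, G, hl, hlG⟩ := h
  exact ⟨l, G, hl, fun x hx => hlG x (hY hx)⟩

theorem isOpen_slice {C : Set ℝ} (hC : IsCompact C) {V : Set (ℝ × ℝ)} (hV : IsOpen V) :
    IsOpen {y : ℝ | C ×ˢ {y} ⊆ V} := by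
  rw [isOpen_iff_mem_nhds]
  intro y hy
  obtain ⟨u, v, -, hv, hCu, hyv, huv⟩ := generalized_tube_lemma hC (isCompact_singleton (x := y)) hV hy
  filter_upwards [hv.mem_nhds (hyv rfl)] with z hz
  exact (prod_mono hCu (singleton_subset_iff.2 hz)).trans huv

/-- The basic step: a `σ`-compact subset `D` of `X` has a small family of open neighbourhoods such that the
points of `X` in all of them are good. -/
theorem prod_step {U : Ultrafilter ℕ} (hU : SmallU U) {Y : Set ℝ} (hY : UM U Y) {X D : Set ℝ}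
    (hD : IsSigmaCompact D) (hDX : D ⊆ X) {V : ℕ → ℕ → Set (ℝ × ℝ)} (hV : IncCover (X ×ˢ Y) V)
    {𝓑 : Set (Set ℕ)} (hBU : ∀ b ∈ 𝓑, b ∈ U) (hBb : ∀ A ∈ U, ∃ b ∈ 𝓑, b ⊆ A) :
    ∃ O : 𝓑 × ℕ → Set ℝ, (∀ v, IsOpen (O v)) ∧ (∀ v, D ⊆ O v) ∧ Good U V ((X ∩ ⋂ v, O v) ×ˢ Y) := by
  obtain ⟨K0, hK0, hKD⟩ := hD
  let K : ℕ → Set ℝ := fun n => ⋃ i ∈ Finset.range (n + 1), K0 i
  have hK : ∀ n, IsCompact (K n) := fun n => (Finset.range (n + 1)).isCompact_biUnion fun i _ => hK0 i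
  have hKm : ∀ n n', n ≤ n' → K n ⊆ K n' := fun n n' h => biUnion_subset_biUnion_left fun i hi => by
    simp only [Finset.mem_coe, Finset.mem_range] at hi ⊢; omega
  have hKD' : ∀ n, K n ⊆ D := fun n => iUnion₂_subset fun i _ => hKD ▸ subset_iUnion K0 i
  have hDK : ∀ x ∈ D, ∃ n, x ∈ K n := fun x hx => by
    rw [← hKD] at hx
    obtain ⟨n, hn⟩ := mem_iUnion.1 hx
    exact ⟨n, mem_iUnion₂.2 ⟨n, by simp, hn⟩⟩
  let W : ℕ → ℕ → Set ℝ := fun n m => {y | Metric.cthickening (1 / ((m : ℝ) + 1)) (K n) ×ˢ {y} ⊆ V n m}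
  have hW : IncCover Y W := by
    refine ⟨fun n m => isOpen_slice (hK n).cthickening (hV.op n m), fun n m m' h y hy => ?_,
      fun n n' m h y hy => ?_, fun n y hy => ?_⟩
    · refine ((prod_mono_left (Metric.cthickening_mono ?_ _)).trans hy).trans (hV.mono n m m' h)
      exact one_div_le_one_div_of_le (by positivity) (by exact_mod_cast Nat.succ_le_succ h)
    · exact ((prod_mono_left (Metric.cthickening_subset_of_subset _ (hKm n n' h))).trans hy).trans (hV.anti n n' m h)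
    · obtain ⟨m, hm⟩ := ((hK n).prod (isCompact_singleton (x := y))).elim_directed_cover (V n) (hV.op n)
        (by
          rintro ⟨x, z⟩ ⟨hx, hz⟩
          obtain rfl : z = y := hz
          obtain ⟨m, hm⟩ := hV.cov n (x, z) ⟨hDX (hKD' n hx), hy⟩
          exact mem_iUnion.2 ⟨m, hm⟩)
        (directed_of_isDirected_le fun m m' h => hV.mono n m m' h)
      have ho : IsOpen {x : ℝ | (x, y) ∈ V n m} := (hV.op n m).preimage (by fun_prop)
      obtain ⟨δ, hδ, hδK⟩ := (hK n).exists_cthickening_subset_open ho fun x hx => hm ⟨hx, rfl⟩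
      obtain ⟨k, hk⟩ := exists_nat_one_div_lt hδ
      refine ⟨max m k, ?_⟩
      rintro ⟨x, z⟩ ⟨hx, hz⟩
      obtain rfl : z = y := hz
      refine hV.mono _ _ _ (le_max_left _ _) (hδK (Metric.cthickening_mono ?_ _ hx))
      refine le_trans (one_div_le_one_div_of_le (by positivity) ?_) hk.le
      have : (k : ℝ) ≤ (max m k : ℕ) := by exact_mod_cast le_max_right m k
      linarith
  obtain ⟨l, G, hl, hlG⟩ := hY W hW
  let B : ℕ → Set ℝ := fun a => Metric.thickening (1 / ((G a : ℝ) + 1)) (K (l a))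
  have hB : ∀ a, IsOpen (B a) := fun a => Metric.isOpen_thickening
  refine ⟨fun v => ⋃ a ∈ v.1.1 ∩ Ici v.2, B a, fun v => isOpen_biUnion fun a _ => hB a, fun v x hx => ?_,
    l, G, hl, ?_⟩
  · obtain ⟨i, hi⟩ := hDK x hx
    have h1 : ∀ᶠ a in (U : Filter ℕ), v.2 ≤ a ∧ i ≤ l a :=
      hU.np ((eventually_ge_atTop v.2).and (hl.eventually_ge_atTop i))
    have h2 : ∀ᶠ a in (U : Filter ℕ), a ∈ v.1.1 := hBU _ v.1.2
    obtain ⟨a, ⟨ha1, ha2⟩, ha3⟩ := (h1.and h2).exists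
    exact mem_iUnion₂.2 ⟨a, ⟨ha3, ha1⟩, Metric.self_subset_thickening (by positivity) _ (hKm _ _ ha2 hi)⟩
  · rintro ⟨x, y⟩ ⟨⟨hx, hxO⟩, hy⟩
    have h1 : ∀ᶠ a in (U : Filter ℕ), x ∈ B a := mem_of_meets hBb fun b hb => by
      have := mem_iInter.1 hxO (⟨b, hb⟩, 0)
      obtain ⟨a, ⟨ha1, -⟩, ha2⟩ := mem_iUnion₂.1 this
      exact ⟨a, ha1, ha2⟩
    filter_upwards [h1, hlG y hy] with a ha1 ha2
    exact ha2 ⟨Metric.thickening_subset_cthickening _ _ ha1, rfl⟩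

theorem card_base {𝓑 : Set (Set ℕ)} (h : #𝓑 < dd) : #(𝓑 × ℕ) < dd := by
  rw [mk_prod, lift_id, lift_id, mk_nat]
  exact mul_lt_of_lt aleph0_lt_dd.le h aleph0_lt_dd

/-- Weakly concentrated sets. -/
theorem prod_weak {U : Ultrafilter ℕ} (hU : SmallU U) {Y : Set ℝ} (hY : UM U Y) {X : Set ℝ}
    (hX : WeaklyConcentrated X) : UM U (X ×ˢ Y) := by
  classical
  intro V hV
  obtain ⟨𝓑, hBc, hBU, hBb⟩ := hU.base
  have h1 : ∀ D : {D : Set ℝ // D ⊆ X ∧ IsSigmaCompact D}, ∃ O : 𝓑 × ℕ → Set ℝ, (∀ v, IsOpen (O v)) ∧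
      (∀ v, D.1 ⊆ O v) ∧ Good U V ((X ∩ ⋂ v, O v) ×ˢ Y) := fun D =>
    prod_step hU hY D.2.2 D.2.1 hV hBU hBb
  choose O hO hDO hG using h1
  let R : Set ℝ → Set (Set ℝ) := fun D =>
    if h : D ⊆ X ∧ IsSigmaCompact D then range (O ⟨D, h⟩) else ∅
  have hR : ∀ D (h : D ⊆ X ∧ IsSigmaCompact D), R D = range (O ⟨D, h⟩) := fun D h => dif_pos h
  obtain ⟨𝓓, hDc, hD, hcov⟩ := hX _ (card_base hBc) R (fun D h1 h2 => by
    rw [hR D ⟨h1, h2⟩]
    refine ⟨mk_range_le, ?_⟩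
    rintro _ ⟨v, rfl⟩
    exact ⟨hO _ v, hDO ⟨D, h1, h2⟩ v⟩)
  have h2 : Good U V (⋃ D : 𝓓, (X ∩ ⋂ v, O ⟨D.1, hD D.1 D.2⟩ v) ×ˢ Y) :=
    Good.iUnion hU hV hDc fun D => hG _
  refine h2.subset ?_
  rintro ⟨x, y⟩ ⟨hx, hy⟩
  obtain ⟨D, hD', hxD⟩ := hcov x hx
  refine mem_iUnion.2 ⟨⟨D, hD'⟩, ⟨hx, mem_iInter.2 fun v => hxD _ ?_⟩, hy⟩
  rw [hR D (hD D hD')]
  exact ⟨v, rfl⟩

theorem Good.singleton {U : Ultrafilter ℕ} {α : Type} [TopologicalSpace α] {V : ℕ → ℕ → Set α}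
    {Z : Set α} (hV : IncCover Z V) {z : α} (hz : z ∈ Z) : Good U V {z} := by
  choose m hm using fun n => hV.cov n z hz
  exact ⟨id, m, tendsto_id, fun x hx => Eventually.of_forall fun a => by
    obtain rfl : x = z := hx
    exact hm a⟩

/-- `𝔡`-concentrated sets. -/
theorem prod_conc {U : Ultrafilter ℕ} (hU : SmallU U) {Y : Set ℝ} (hY : UM U Y) {X : Set ℝ}
    (hX : Concentrated X) : UM U (X ×ˢ Y) := by
  intro V hV
  obtain ⟨𝓑, hBc, hBU, hBb⟩ := hU.base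
  obtain ⟨D, hDX, hD, hW⟩ := hX
  have hDs : IsSigmaCompact D := by
    rw [← biUnion_of_singleton D]
    exact isSigmaCompact_biUnion hD fun x _ => isCompact_singleton.isSigmaCompact
  obtain ⟨O, hO, hDO, hG⟩ := prod_step hU hY hDs hDX hV hBU hBb
  have hx : ∀ x ∈ X, Good U V ({x} ×ˢ Y) := fun x hx => by
    obtain ⟨O', hO', hDO', hG'⟩ := prod_step hU hY (isCompact_singleton (x := x)).isSigmaCompact
      (singleton_subset_iff.2 hx) hV hBU hBb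
    exact hG'.subset (prod_mono_left (singleton_subset_iff.2 ⟨hx, mem_iInter.2 fun v => hDO' v rfl⟩))
  have hE : Good U V (⋃ v, ⋃ x : (X \ O v : Set ℝ), {x.1} ×ˢ Y) :=
    Good.iUnion hU hV (card_base hBc) fun v =>
      Good.iUnion hU hV (hW _ (hO v) (hDO v)) fun x => hx x.1 x.2.1
  have hsub : X ×ˢ Y ⊆ ⋃ b : Bool, (if b then ⋃ v, ⋃ x : (X \ O v : Set ℝ), {x.1} ×ˢ Y
      else (X ∩ ⋂ v, O v) ×ˢ Y) := by
    rintro ⟨x, y⟩ ⟨hx, hy⟩
    by_cases h : ∀ v, x ∈ O v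
    · exact mem_iUnion.2 ⟨false, ⟨hx, mem_iInter.2 h⟩, hy⟩
    · push Not at h
      obtain ⟨v, hv⟩ := h
      exact mem_iUnion.2 ⟨true, mem_iUnion.2 ⟨v, mem_iUnion.2 ⟨⟨x, hx, hv⟩, rfl, hy⟩⟩⟩
  refine Good.subset (Good.iUnion hU hV (lt_trans (lt_aleph0_of_finite Bool) aleph0_lt_dd) fun b => ?_) hsub
  cases b
  · simpa using hG
  · simpa using hE

end Pool.Agent.Helper25.MS
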