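import Pool.Agent.Helper25.MS.UM

/-!
Project MS.  If there is an ultrafilter with a base of fewer than `𝔡` sets then `𝔡` is regular.
-/

set_option autoImplicit false

namespace Pool.Agent.Helper25.MS

open Set Filter Cardinal Topology

theorem SmallU.isRegular {U : Ultrafilter ℕ} (hU : SmallU U) : dd.IsRegular := by
  refine ⟨aleph0_lt_dd.le, ?_⟩
  by_contra h
  have h : dd.ord.cof < dd := not_le.1 h
  obtain ⟨D, hD, hDc⟩ := exists_dom
  have hcard : #(dd.ord.ToType) = dd := by simp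
  have hinf : ℵ₀ ≤ dd := aleph0_lt_dd.le
  obtain ⟨e⟩ : Nonempty (dd.ord.ToType ≃ D) := Cardinal.eq.1 (hcard.trans hDc.symm)
  have hIio : ∀ i : dd.ord.ToType, #(Iio i) < dd := fun i => by
    have := Cardinal.mk_Iio_lt i (by simp)
    rwa [hcard] at this
  have hIic : ∀ i : dd.ord.ToType, #{j // j ≤ i} < dd := fun i => by
    have h1 : (Iic i : Set dd.ord.ToType) = insert i (Iio i) := Iio_insert.symm
    have h2 : #(Iic i) < dd := by
      rw [h1]
      exact lt_of_le_of_lt mk_insert_le (add_lt_of_lt hinf (hIio i) (lt_of_lt_of_le one_lt_aleph0 hinf))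
    exact h2
  obtain ⟨S, hS, hSc⟩ := Order.exists_cof_eq dd.ord.ToType
  rw [Ordinal.cof_toType] at hSc
  have h1 : ∀ s : dd.ord.ToType, ∃ G : ℕ → ℕ, ∀ j ≤ s, ∀ᶠ a in (U : Filter ℕ), (e j).1 a ≤ G a := fun s => by
    obtain ⟨l, G, -, hG⟩ := merge hU (hIic s) (fun _ => id) (fun j => (e j.1).1) (fun _ => tendsto_id)
    exact ⟨G, fun j hj => (hG ⟨j, hj⟩).mono fun a ha => ha.2⟩
  choose G hG using h1
  obtain ⟨l, G', -, hG'⟩ := merge hU (ι := S) (by rw [hSc]; exact h) (fun _ => id) (fun s => G s.1)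
    (fun _ => tendsto_id)
  obtain ⟨f, hf, hfG⟩ := hD fun n => G' n + 1
  obtain ⟨s, hs, hjs⟩ := hS (e.symm ⟨f, hf⟩)
  have h2 := hG s _ hjs
  have h3 := hG' ⟨s, hs⟩
  have h4 : ∀ᶠ a in (U : Filter ℕ), G' a + 1 ≤ f a := hU.np hfG
  obtain ⟨a, ⟨ha1, ha2⟩, ha3⟩ := ((h2.and h3).and h4).exists
  simp only [Equiv.apply_symm_apply] at ha1
  have h5 : G s a ≤ G' a := ha2.2
  omega

end Pool.Agent.Helper25.MS
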