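import Pool.Agent.Helper25.MS.Tr
import Pool.Agent.Helper25.MS.Reg

/-!
Project MS.  The scale.
-/

set_option autoImplicit false

namespace Pool.Agent.Helper25.MS

open Set Filter Cardinal Topology

/-- The index set. -/
abbrev Ix : Type := dd.ord.ToType

theorem mk_Ix : #Ix = dd := by simp [Ix]

theorem mk_Iio_Ix (i : Ix) : #(Iio i) < dd := by
  have := Cardinal.mk_Iio_lt i (by simp)
  rwa [mk_Ix] at this

theorem mk_Iic_Ix (i : Ix) : #{j // j ≤ i} < dd := by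
  have h1 : (Iic i : Set Ix) = insert i (Iio i) := Iio_insert.symm
  have h2 : #(Iic i) < dd := by
    rw [h1]
    exact lt_of_le_of_lt mk_insert_le
      (add_lt_of_lt aleph0_lt_dd.le (mk_Iio_Ix i) (lt_of_lt_of_le one_lt_aleph0 aleph0_lt_dd.le))
  exact h2

theorem exists_scale {U : Ultrafilter ℕ} (hU : SmallU U) : ∃ l G : Ix → ℕ → ℕ, (∀ i, Tendsto (l i) atTop atTop) ∧
    ∀ l' G' : ℕ → ℕ, Tendsto l' atTop atTop → ∃ j, ∀ i, j ≤ i →
      ∀ᶠ a in (U : Filter ℕ), l i a ≤ l' a ∧ G' a ≤ G i a := by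
  classical
  obtain ⟨D, hD, hDc⟩ := exists_dom
  obtain ⟨e⟩ : Nonempty (Ix ≃ D) := Cardinal.eq.1 (mk_Ix.trans hDc.symm)
  let L : Ix → ℕ → ℕ := fun i a => Nat.findGreatest (fun n => ∀ k ≤ n, (e i).1 k ≤ a) a
  have hL : ∀ i, Tendsto (L i) atTop atTop := fun i => by
    rw [tendsto_atTop]
    intro N
    filter_upwards [eventually_ge_atTop (N + ∑ k ∈ Finset.range (N + 1), (e i).1 k)] with a ha
    refine Nat.le_findGreatest (by omega) fun k hk => ?_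
    have : (e i).1 k ≤ ∑ k ∈ Finset.range (N + 1), (e i).1 k :=
      Finset.single_le_sum (f := fun k => (e i).1 k) (fun _ _ => Nat.zero_le _) (Finset.mem_range.2 (by omega))
    omega
  have h1 : ∀ i, ∃ l' G' : ℕ → ℕ, Tendsto l' atTop atTop ∧
      ∀ j : {j // j ≤ i}, ∀ᶠ a in (U : Filter ℕ), l' a ≤ L j.1 a ∧ (e j.1).1 a ≤ G' a := fun i =>
    merge hU (mk_Iic_Ix i) (fun j => L j.1) (fun j => (e j.1).1) fun j => hL j.1
  choose l G hl hlG using h1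
  refine ⟨l, G, hl, fun l' G' hl' => ?_⟩
  have h2 : ∀ n, ∃ N, ∀ a, N ≤ a → n ≤ l' a := fun n => eventually_atTop.1 (hl'.eventually_ge_atTop n)
  choose Λ hΛ using h2
  obtain ⟨f, hf, hfh⟩ := hD fun n => max (G' n) (Λ n)
  refine ⟨e.symm ⟨f, hf⟩, fun i hi => ?_⟩
  have hef : (e (e.symm ⟨f, hf⟩)).1 = f := by simp
  obtain ⟨n0, hn0⟩ := eventually_atTop.1 hfh
  have h3 : ∀ᶠ a in (U : Filter ℕ), f 0 ≤ a ∧ n0 ≤ L (e.symm ⟨f, hf⟩) a :=
    hU.np ((eventually_ge_atTop (f 0)).and ((hL _).eventually_ge_atTop n0))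
  have h3' : ∀ᶠ a in (U : Filter ℕ), n0 ≤ a := hU.np (eventually_ge_atTop n0)
  filter_upwards [hlG i ⟨_, hi⟩, h3, h3'] with a ha1 ha2 ha3
  simp only [hef] at ha1
  refine ⟨ha1.1.trans ?_, (le_max_left _ _).trans ((hn0 a ha3).trans ha1.2)⟩
  apply hΛ
  have h4 : ∀ k ≤ L (e.symm ⟨f, hf⟩) a, (e (e.symm ⟨f, hf⟩)).1 k ≤ a := by
    by_cases hc : L (e.symm ⟨f, hf⟩) a = 0
    · intro k hk
      rw [hc] at hk
      obtain rfl : k = 0 := Nat.le_zero.1 hk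
      rw [hef]
      exact ha2.1
    · exact Nat.findGreatest_of_ne_zero (P := fun n => ∀ k ≤ n, (e (e.symm ⟨f, hf⟩)).1 k ≤ a) rfl hc
  have h5 := h4 _ le_rfl
  rw [hef] at h5
  exact (le_max_right _ _).trans ((hn0 _ ha2.2).trans h5)

theorem le_mk_range {β : Type} (hreg : dd.IsRegular) {x : Ix → β} (h : ∀ b, ∃ j, ∀ i, j ≤ i → x i ≠ b) :
    dd ≤ #(range x) := by
  by_contra hc
  have hc := not_le.1 hc
  choose j hj using h
  have h1 : (univ : Set Ix) ⊆ ⋃ b : range x, Iio (j b.1) := fun i _ => by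
    refine mem_iUnion.2 ⟨⟨x i, i, rfl⟩, ?_⟩
    by_contra hi
    exact hj (x i) i (not_lt.1 hi) rfl
  have h2 : #(⋃ b : range x, Iio (j b.1)) < dd :=
    (card_iUnion_lt_iff_forall_of_isRegular hreg hc).2 fun b => mk_Iio_Ix _
  have h3 := lt_of_le_of_lt (mk_le_mk_of_subset h1) h2
  rw [mk_univ, mk_Ix] at h3
  exact lt_irrefl _ h3

end Pool.Agent.Helper25.MS
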