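import Pool.Agent.Helper25.MS.Emb

/-!
Project MS.  If every family of fewer than `𝔡` infinite sets is split: doubly coded sequences.
-/

set_option autoImplicit false

namespace Pool.Agent.Helper25.MS

open Set Filter Cardinal Topology

theorem exists_split (h : ¬ ∃ R : Set (Set ℕ), Unsplit R ∧ #R < dd) {R : Set (Set ℕ)} (hR : #R < dd)
    (hi : ∀ r ∈ R, r.Infinite) : ∃ A : Set ℕ, ∀ r ∈ R, (r ∩ A).Infinite ∧ (r \ A).Infinite := by
  by_contra hc
  push Not at hc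
  refine h ⟨R, ⟨hi, fun A => ?_⟩, hR⟩
  obtain ⟨r, hr, h2⟩ := hc A
  refine ⟨r, hr, ?_⟩
  by_cases h3 : (r ∩ A).Infinite
  · exact Or.inr (by simpa using h2 h3)
  · exact Or.inl (by simpa using h3)

/-- Splitting through a map with finite fibres. -/
theorem exists_split_map (h : ¬ ∃ R : Set (Set ℕ), Unsplit R ∧ #R < dd) {ι : Type} (hι : #ι < dd)
    (R : ι → Set ℕ) (hi : ∀ i, (R i).Infinite) (φ : ℕ → ℕ) (hφ : ∀ n, (φ ⁻¹' {n}).Finite) :
    ∃ A : Set ℕ, ∀ i, ({k ∈ R i | φ k ∈ A}).Infinite ∧ ({k ∈ R i | φ k ∉ A}).Infinite := by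
  have hi' : ∀ i, (φ '' (R i)).Infinite := fun i hc => by
    apply hi i
    have : R i ⊆ ⋃ n ∈ φ '' (R i), φ ⁻¹' {n} := fun k hk =>
      mem_iUnion₂.2 ⟨φ k, ⟨k, hk, rfl⟩, rfl⟩
    exact (hc.biUnion fun n _ => hφ n).subset this
  obtain ⟨A, hA⟩ := exists_split h (R := range fun i => φ '' (R i)) (lt_of_le_of_lt mk_range_le hι) (by
    rintro _ ⟨i, rfl⟩; exact hi' i)
  refine ⟨A, fun i => ⟨fun hc => (hA _ ⟨i, rfl⟩).1 ?_, fun hc => (hA _ ⟨i, rfl⟩).2 ?_⟩⟩
  · refine (hc.image φ).subset ?_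
    rintro _ ⟨⟨k, hk, rfl⟩, hkA⟩
    exact ⟨k, ⟨hk, hkA⟩, rfl⟩
  · refine (hc.image φ).subset ?_
    rintro _ ⟨⟨k, hk, rfl⟩, hkA⟩
    exact ⟨k, ⟨hk, hkA⟩, rfl⟩

theorem exists_coded (h : ¬ ∃ R : Set (Set ℕ), Unsplit R ∧ #R < dd) :
    ∃ (ι : Type) (x : ι → ℕ → Bool),
      (∀ v : Bool, ∀ b : ℕ → ℕ, #{i | ¬ ∃ n, ∀ a, n ≤ a → a ≤ b n → x i a = v} < dd) ∧
      (∀ i, ∀ e < 2, ∀ v n, ∃ a, n ≤ a ∧ x i (2 * a + e) = v) ∧
      (∀ g : ℕ → ℕ, ∃ i N, ∀ n, N ≤ n → ¬ ∀ v : Bool, ∀ e < 2, ∃ a, n ≤ a ∧ a ≤ g n ∧ x i (2 * a + e) = v) := by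
  classical
  obtain ⟨D, hD, hDc⟩ := exists_dom
  have hcard : #(dd.ord.ToType) = dd := by simp
  have hinf : ℵ₀ ≤ dd := aleph0_lt_dd.le
  obtain ⟨e⟩ : Nonempty (dd.ord.ToType ≃ D) := Cardinal.eq.1 (hcard.trans hDc.symm)
  have hIio : ∀ i : dd.ord.ToType, #(Iio i) < dd := fun i => by
    have := Cardinal.mk_Iio_lt i (by simp)
    rwa [hcard] at this
  have hIic : ∀ i : dd.ord.ToType, #{j // j ≤ i} < dd := fun i => by
    have h1 : (Iic i : Set dd.ord.ToType) = insert i (Iio i) := Iio_insert.symm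
    have h2 : #(Iic i) < dd := by
      rw [h1]
      exact lt_of_le_of_lt mk_insert_le (add_lt_of_lt hinf (hIio i) (lt_of_lt_of_le one_lt_aleph0 hinf))
    exact h2
  let M : dd.ord.ToType → ℕ → ℕ := fun i n => ∑ k ∈ Finset.range (n + 1), (e i).1 k
  have hMm : ∀ i, Monotone (M i) := fun i a c hac =>
    Finset.sum_le_sum_of_subset (Finset.range_mono (by omega))
  have hMD : ∀ g : ℕ → ℕ, ∃ i, ∀ᶠ n in atTop, g n ≤ M i n := by
    intro g
    obtain ⟨f, hf, hfg⟩ := hD g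
    refine ⟨e.symm ⟨f, hf⟩, ?_⟩
    filter_upwards [hfg] with n hn
    refine hn.trans ?_
    have : f n = (e (e.symm ⟨f, hf⟩)).1 n := by simp
    rw [this]
    exact Finset.single_le_sum (f := fun k => (e (e.symm ⟨f, hf⟩)).1 k) (fun _ _ => Nat.zero_le _)
      (Finset.mem_range.2 (by omega))
  have hp : ∀ i, ∃ p : ℕ → ℕ, StrictMono p ∧ p 0 = 0 ∧ (∀ k, M i (p k) < p (k + 1)) ∧
      ∀ j : {j // j ≤ i}, ∃ᶠ k in atTop, M j.1 (p k) < p (k + 1) := fun i =>
    part (hIic i) (fun j => M j.1) (M i)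
  choose p hps hp0 hpM hpj using hp
  have hfib1 : ∀ n, ((fun k : ℕ => k / 2) ⁻¹' {n}).Finite := fun n =>
    (finite_lt_nat (2 * n + 2)).subset fun k hk => by
      have : k / 2 = n := hk
      show k < 2 * n + 2
      omega
  have hfib2 : ∀ n, ((fun k : ℕ => (k + 1) / 2) ⁻¹' {n}).Finite := fun n =>
    (finite_lt_nat (2 * n + 2)).subset fun k hk => by
      have : (k + 1) / 2 = n := hk
      show k < 2 * n + 2
      omega
  -- the two codings
  have hcol : ∀ i, ∃ A A' : Set ℕ, ∀ j ≤ i,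
      ({k | M j (p i k) < p i (k + 1) ∧ k / 2 ∈ A ∧ (k + 1) / 2 ∈ A'}).Infinite ∧
      ({k | M j (p i k) < p i (k + 1) ∧ k / 2 ∉ A ∧ (k + 1) / 2 ∉ A'}).Infinite := by
    intro i
    obtain ⟨A, hA⟩ := exists_split_map h (hIic i) (fun j => {k | M j.1 (p i k) < p i (k + 1)})
      (fun j => Nat.frequently_atTop_iff_infinite.1 (hpj i j)) (fun k => k / 2) hfib1
    have hc2 : #({j // j ≤ i} × Bool) < dd := by
      rw [mk_prod, lift_id, lift_id]
      exact mul_lt_of_lt hinf (hIic i) (lt_of_lt_of_le (lt_aleph0_of_finite Bool) hinf)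
    obtain ⟨A', hA'⟩ := exists_split_map h hc2
      (fun v : {j // j ≤ i} × Bool => if v.2 then {k ∈ {k | M v.1.1 (p i k) < p i (k + 1)} | k / 2 ∈ A}
        else {k ∈ {k | M v.1.1 (p i k) < p i (k + 1)} | k / 2 ∉ A})
      (fun v => by
        obtain ⟨j, b⟩ := v
        cases b
        · simpa using (hA j).2
        · simpa using (hA j).1) (fun k => (k + 1) / 2) hfib2
    refine ⟨A, A', fun j hj => ⟨?_, ?_⟩⟩
    · refine (hA' (⟨j, hj⟩, true)).1.mono ?_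
      rintro k ⟨hk1, hk2⟩
      simp only [if_true] at hk1
      exact ⟨hk1.1, hk1.2, hk2⟩
    · refine (hA' (⟨j, hj⟩, false)).2.mono ?_
      rintro k ⟨hk1, hk2⟩
      simp only [Bool.false_eq_true, if_false] at hk1
      exact ⟨hk1.1, hk1.2, hk2⟩
  choose A A' hAA using hcol
  let c0 : dd.ord.ToType → ℕ → Bool := fun i a => decide (blk (p i) a / 2 ∈ A i)
  let c1 : dd.ord.ToType → ℕ → Bool := fun i a => decide ((blk (p i) a + 1) / 2 ∈ A' i)
  let x : dd.ord.ToType → ℕ → Bool := fun i a => if a % 2 = 0 then c0 i (a / 2) else c1 i (a / 2)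
  have hx0 : ∀ i a, x i (2 * a + 0) = c0 i a := fun i a => by
    have h1 : (2 * a + 0) % 2 = 0 := by omega
    have h2 : (2 * a + 0) / 2 = a := by omega
    show (if (2 * a + 0) % 2 = 0 then c0 i ((2 * a + 0) / 2) else _) = _
    rw [if_pos h1, h2]
  have hx1 : ∀ i a, x i (2 * a + 1) = c1 i a := fun i a => by
    have h1 : ¬ (2 * a + 1) % 2 = 0 := by omega
    have h2 : (2 * a + 1) / 2 = a := by omega
    show (if (2 * a + 1) % 2 = 0 then _ else c1 i ((2 * a + 1) / 2)) = _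
    rw [if_neg h1, h2]
  have hbl : ∀ i k, blk (p i) (p i k) = k := fun i k =>
    blk_eq (hps i) (hp0 i) le_rfl ((hps i) (Nat.lt_succ_self k))
  -- infinitely many good blocks of each colour
  have hcolor : ∀ i, ∀ j ≤ i, ∀ v : Bool, ∀ K, ∃ k, K < k ∧ M j (p i k) < p i (k + 1) ∧
      ∀ a, blk (p i) a = k → c0 i a = v ∧ c1 i a = v := by
    intro i j hj v K
    cases v
    · obtain ⟨k, ⟨hk1, hk2, hk3⟩, hk4⟩ := (hAA i j hj).2.exists_gt K
      exact ⟨k, hk4, hk1, fun a ha => by simp [c0, c1, ha, hk2, hk3]⟩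
    · obtain ⟨k, ⟨hk1, hk2, hk3⟩, hk4⟩ := (hAA i j hj).1.exists_gt K
      exact ⟨k, hk4, hk1, fun a ha => by simp [c0, c1, ha, hk2, hk3]⟩
  refine ⟨dd.ord.ToType, x, fun v b => ?_, fun i e he v n => ?_, fun g => ?_⟩
  · obtain ⟨j, hj⟩ := hMD fun n => b (2 * n)
    obtain ⟨N, hN⟩ := eventually_atTop.1 hj
    refine lt_of_le_of_lt (mk_le_mk_of_subset fun i hi => ?_) (hIio j)
    by_contra hc
    apply hi
    obtain ⟨k, hk, hk1, hk2⟩ := hcolor i j (not_lt.1 hc) v N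
    refine ⟨2 * p i k, fun a ha1 ha2 => ?_⟩
    have h1 : b (2 * p i k) < p i (k + 1) :=
      lt_of_le_of_lt (hN _ (hk.le.trans ((hps i).id_le k))) hk1
    have h2 : blk (p i) (a / 2) = k := blk_eq (hps i) (hp0 i) (by omega) (by omega)
    show (if a % 2 = 0 then c0 i (a / 2) else c1 i (a / 2)) = v
    split_ifs
    · exact (hk2 _ h2).1
    · exact (hk2 _ h2).2
  · obtain ⟨k, hk, -, hk2⟩ := hcolor i i le_rfl v n
    refine ⟨p i k, hk.le.trans ((hps i).id_le k), ?_⟩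
    have h2 := hk2 _ (hbl i k)
    interval_cases e
    · rw [hx0]; exact h2.1
    · rw [hx1]; exact h2.2
  · obtain ⟨i, hi⟩ := hMD g
    obtain ⟨N, hN⟩ := eventually_atTop.1 hi
    refine ⟨i, N, fun n hn hq => ?_⟩
    have hk1 := blk_le (hp0 i) n
    have hk2 := lt_blk (hps i) n
    have hk3 : g n < p i (blk (p i) n + 2) :=
      lt_of_le_of_lt ((hN n hn).trans (hMm i hk2.le)) (hpM i _)
    have hb : ∀ a, n ≤ a → a ≤ g n → blk (p i) n ≤ blk (p i) a ∧ blk (p i) a < blk (p i) n + 2 := fun a h1 h2 => by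
      have h3 := blk_le (hp0 i) a
      have h4 := lt_blk (hps i) a
      constructor
      · have : blk (p i) n < blk (p i) a + 1 := (hps i).lt_iff_lt.1 (by omega)
        omega
      · exact (hps i).lt_iff_lt.1 (by omega)
    rcases Nat.even_or_odd' (blk (p i) n) with ⟨m, hm | hm⟩
    · -- the first coding is constant
      obtain ⟨a, ha1, ha2, ha3⟩ := hq (!(c0 i n)) 0 (by norm_num)
      rw [hx0] at ha3
      have h5 := hb a ha1 ha2
      have h6 : blk (p i) a / 2 = blk (p i) n / 2 := by omega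
      have h7 : c0 i a = c0 i n := by simp only [c0, h6]
      rw [h7] at ha3
      cases hc : c0 i n <;> simp [hc] at ha3
    · obtain ⟨a, ha1, ha2, ha3⟩ := hq (!(c1 i n)) 1 (by norm_num)
      rw [hx1] at ha3
      have h5 := hb a ha1 ha2
      have h6 : (blk (p i) a + 1) / 2 = (blk (p i) n + 1) / 2 := by omega
      have h7 : c1 i a = c1 i n := by simp only [c1, h6]
      rw [h7] at ha3
      cases hc : c1 i n <;> simp [hc] at ha3

end Pool.Agent.Helper25.MS
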