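import Pool.Agent.Helper25.MS.Prod

/-!
Project MS.  Transfer of Menger sets to the Cantor space.
-/

set_option autoImplicit false

namespace Pool.Agent.Helper25.MS

open Set Filter Cardinal Topology

/-- The set of all codes of the elements of a Menger set is Menger. -/
theorem menger_code {α β ι : Type} [TopologicalSpace α] [TopologicalSpace β] [SecondCountableTopology β]
    {P : Set α} (hP : Menger P) {K : Set β} (hK : IsCompact K) (V : ι → Set α) (C : ι → Set β)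
    (hV : ∀ i, IsOpen (V i)) (hC : ∀ i, IsClosed (C i)) :
    Menger {c | c ∈ K ∧ ∃ p ∈ P, ∀ i, p ∈ V i → c ∈ C i} := by
  classical
  apply menger_of_sel
  intro W hW
  have h1 : IncCover P fun n m =>
      {p | ∃ u : Finset ι, (∀ i ∈ u, p ∈ V i) ∧ ∀ c ∈ K, (∀ i ∈ u, c ∈ C i) → c ∈ W n m} := by
    refine ⟨fun n m => ?_, fun n m m' h p ⟨u, hu, hc⟩ => ⟨u, hu, fun c hcK hci => hW.mono n m m' h (hc c hcK hci)⟩,
      fun n n' m h p ⟨u, hu, hc⟩ => ⟨u, hu, fun c hcK hci => hW.anti n n' m h (hc c hcK hci)⟩, fun n p hp => ?_⟩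
    · rw [isOpen_iff_mem_nhds]
      rintro p ⟨u, hu, hc⟩
      have h2 : (⋂ i ∈ u, V i) ∈ 𝓝 p := (isOpen_biInter_finset fun i _ => hV i).mem_nhds (mem_iInter₂.2 hu)
      filter_upwards [h2] with q hq
      exact ⟨u, fun i hi => mem_iInter₂.1 hq i hi, hc⟩
    · have hKc : IsCompact (K ∩ ⋂ i : {i // p ∈ V i}, C i) :=
        hK.inter_right (isClosed_iInter fun i => hC i)
      obtain ⟨m, hm⟩ := hKc.elim_directed_cover (W n) (hW.op n) (by
          rintro c ⟨hcK, hc⟩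
          obtain ⟨m, hm⟩ := hW.cov n c ⟨hcK, p, hp, fun i hi => mem_iInter.1 hc ⟨i, hi⟩⟩
          exact mem_iUnion.2 ⟨m, hm⟩)
        (directed_of_isDirected_le fun m m' h => hW.mono n m m' h)
      obtain ⟨u, hu⟩ := (hK.inter_right (hW.op n m).isClosed_compl).elim_finite_subfamily_closed
        (fun i : {i // p ∈ V i} => C i.1) (fun i => hC i.1) (by
          rw [eq_empty_iff_forall_notMem]
          rintro c ⟨⟨hcK, hcW⟩, hc⟩
          exact hcW (hm ⟨hcK, hc⟩))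
      refine ⟨m, u.image Subtype.val, fun i hi => ?_, fun c hcK hci => ?_⟩
      · obtain ⟨j, -, rfl⟩ := Finset.mem_image.1 hi
        exact j.2
      · by_contra hcW
        have : c ∈ (K ∩ (W n m)ᶜ) ∩ ⋂ i ∈ u, C i.1 :=
          ⟨⟨hcK, hcW⟩, mem_iInter₂.2 fun i hi => hci i.1 (Finset.mem_image_of_mem _ hi)⟩
        rw [hu] at this
        exact this
  obtain ⟨g, -, -, hg⟩ := hP.sel h1
  refine ⟨g, ?_⟩
  rintro c ⟨hcK, p, hp, hc⟩
  obtain ⟨n, -, u, hu, hn⟩ := hg p hp 0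
  exact ⟨n, hn c hcK fun i hi => hc i (hu i hi)⟩

variable {α β : Type} [TopologicalSpace α] [TopologicalSpace β]

/-- The codes of the elements of `P` with respect to a sequence of sets. -/
def Cod (V : ℕ → Set α) (P : Set α) : Set (ℕ → Bool) := {c | ∃ p ∈ P, ∀ i, p ∈ V i → c i = true}

/-- The exact code. -/
noncomputable def cod (V : ℕ → Set α) (p : α) : ℕ → Bool := fun i => by
  classical exact decide (p ∈ V i)

omit [TopologicalSpace α] in
theorem cod_iff (V : ℕ → Set α) (p : α) (i : ℕ) : cod V p i = true ↔ p ∈ V i := by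
  unfold cod; simp

omit [TopologicalSpace α] in
theorem cod_mem {V : ℕ → Set α} {P : Set α} {p : α} (hp : p ∈ P) : cod V p ∈ Cod V P :=
  ⟨p, hp, fun i hi => (cod_iff V p i).2 hi⟩

theorem isClopen_bit (i : ℕ) : IsClopen {c : ℕ → Bool | c i = true} := by
  have h : IsClopen ((fun c : ℕ → Bool => c i) ⁻¹' {true}) := (isClopen_discrete _).preimage (continuous_apply i)
  exact h

theorem menger_Cod {P : Set α} (hP : Menger P) {V : ℕ → Set α} (hV : ∀ i, IsOpen (V i)) :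
    Menger (Cod V P) := by
  have h := menger_code hP (isCompact_univ (X := ℕ → Bool)) V (fun i => {c | c i = true}) hV fun i =>
    (isClopen_bit i).isClosed
  have h2 : {c : ℕ → Bool | c ∈ Set.univ ∧ ∃ p ∈ P, ∀ i, p ∈ V i → c ∈ {c : ℕ → Bool | c i = true}} = Cod V P := by
    ext c; simp [Cod]
  rwa [h2] at h

omit [TopologicalSpace α] in
/-- Selections from an ultrafilter. -/
theorem Good.sel {U : Ultrafilter ℕ} {V : ℕ → ℕ → Set α}
    {X : Set α} (hV : ∀ n m m', m ≤ m' → V n m ⊆ V n m') (h : Good U V X) :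
    ∃ g : ℕ → ℕ, ∀ x ∈ X, ∃ n, x ∈ V n (g n) := by
  obtain ⟨l, G, hl, hlG⟩ := h
  have hfin : ∀ n, {a | l a = n}.Finite := fun n => by
    have h1 := hl.eventually_gt_atTop n
    obtain ⟨N, hN⟩ := eventually_atTop.1 h1
    refine (finite_lt_nat N).subset fun a ha => ?_
    by_contra hc
    have := hN a (not_lt.1 hc)
    have h2 : l a = n := ha
    omega
  refine ⟨fun n => ∑ a ∈ (hfin n).toFinset, G a, fun x hx => ?_⟩
  obtain ⟨a, ha⟩ := (hlG x hx).exists
  refine ⟨l a, hV _ _ _ ?_ ha⟩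
  exact Finset.single_le_sum (f := G) (fun _ _ => Nat.zero_le _) ((hfin (l a)).mem_toFinset.2 rfl)

/-- If all Menger sets of reals are Menger modulo `U`, then so are all Menger subsets of all spaces. -/
theorem UM.all {U : Ultrafilter ℕ} (hUX : ∀ X : Set ℝ, Menger X → UM U X) {P : Set α} (hP : Menger P) :
    UM U P := by
  intro V hV
  let V' : ℕ → Set α := fun k => V k.unpair.1 k.unpair.2
  have hT : Menger (Cod V' P) := menger_Cod hP fun k => hV.op _ _
  let W : ℕ → ℕ → Set (ℕ → Bool) := fun n m => {c | ∀ n' ≤ n, ∃ m' ≤ m, c (Nat.pair n' m') = true}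
  have hW : IncCover (Cod V' P) W := by
    refine ⟨fun n m => ?_, fun n m m' h c hc n' hn' => ?_, fun n n' m h c hc k hk => hc k (hk.trans h), fun n c hc => ?_⟩
    · have : W n m = ⋂ n' ∈ Finset.range (n + 1), ⋃ m' ∈ Finset.range (m + 1),
          {c : ℕ → Bool | c (Nat.pair n' m') = true} := by
        ext c; simp [W]
      rw [this]
      exact isOpen_biInter_finset fun n' _ => isOpen_biUnion fun m' _ => (isClopen_bit _).isOpen
    · obtain ⟨m'', h1, h2⟩ := hc n' hn'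
      exact ⟨m'', h1.trans h, h2⟩
    · obtain ⟨p, hp, hpc⟩ := hc
      have h1 : ∀ n', ∃ m', c (Nat.pair n' m') = true := fun n' => by
        obtain ⟨m', hm'⟩ := hV.cov n' p hp
        exact ⟨m', hpc _ (by simpa [V'] using hm')⟩
      choose m hm using h1
      exact ⟨∑ k ∈ Finset.range (n + 1), m k, fun n' hn' => ⟨m n',
        Finset.single_le_sum (f := m) (fun _ _ => Nat.zero_le _) (Finset.mem_range.2 (by omega)), hm n'⟩⟩
  obtain ⟨l, G, hl, hlG⟩ := hUX _ (hT.image isEmbedding_emb.continuous) _ (emb_cov hW)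
  refine ⟨l, G, hl, fun p hp => ?_⟩
  filter_upwards [hlG (emb (cod V' p)) ⟨_, cod_mem hp, rfl⟩] with a ha
  have h1 := (mem_ext_emb hW).1 ha
  obtain ⟨m', hm', h2⟩ := h1 (l a) le_rfl
  have h3 := (cod_iff V' p _).1 h2
  have h4 : p ∈ V (l a) m' := by simpa [V'] using h3
  exact hV.mono _ _ _ hm' h4

/-- Rational balls. -/
theorem exists_balls : ∃ (I C : ℕ → Set ℝ), (∀ k, IsOpen (I k)) ∧ (∀ k, IsCompact (C k)) ∧ (∀ k, I k ⊆ C k) ∧
    ∀ x : ℝ, ∀ W : Set ℝ, IsOpen W → x ∈ W → ∃ k, x ∈ I k ∧ C k ⊆ W := by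
  obtain ⟨e, he⟩ := exists_surjective_nat (ℚ × ℕ)
  refine ⟨fun k => Metric.ball ((e k).1 : ℝ) (1 / ((e k).2 + 1)), fun k => Metric.closedBall ((e k).1 : ℝ) (1 / ((e k).2 + 1)),
    fun k => Metric.isOpen_ball, fun k => isCompact_closedBall _ _, fun k => Metric.ball_subset_closedBall,
    fun x W hW hx => ?_⟩
  obtain ⟨ε, hε, hεW⟩ := Metric.isOpen_iff.1 hW x hx
  obtain ⟨j, hj⟩ := exists_nat_one_div_lt (half_pos hε)
  have hj0 : (0 : ℝ) < 1 / ((j : ℝ) + 1) := by positivity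
  obtain ⟨q, hq1, hq2⟩ := exists_rat_btwn (show x < x + 1 / ((j : ℝ) + 1) by linarith)
  obtain ⟨k, hk⟩ := he (q, j)
  refine ⟨k, ?_, ?_⟩
  · simp only [hk, Metric.mem_ball, Real.dist_eq]
    rw [abs_lt]; constructor <;> linarith
  · simp only [hk]
    intro y hy
    apply hεW
    rw [Metric.mem_closedBall, Real.dist_eq, abs_le] at hy
    rw [Metric.mem_ball, Real.dist_eq, abs_lt]
    constructor <;> linarith [hy.1, hy.2]

theorem isOpen_slice' {C : Set ℝ} (hC : IsCompact C) {V : Set (ℝ × β)} (hV : IsOpen V) :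
    IsOpen {y : β | C ×ˢ {y} ⊆ V} := by
  rw [isOpen_iff_mem_nhds]
  intro y hy
  obtain ⟨u, v, -, hv, hCu, hyv, huv⟩ := generalized_tube_lemma hC (isCompact_singleton (x := y)) hV hy
  filter_upwards [hv.mem_nhds (hyv rfl)] with z hz
  exact (prod_mono hCu (singleton_subset_iff.2 hz)).trans huv

/-- The clopen sets of pairs of codes. -/
def Vc (n m : ℕ) : Set ((ℕ → Bool) × (ℕ → Bool)) :=
  {v | ∀ n' ≤ n, ∃ m' ≤ m, ∃ k ≤ m', v.1 k = true ∧ v.2 (Nat.pair k (Nat.pair n' m')) = true}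

theorem Vc_mono (n m m' : ℕ) (h : m ≤ m') : Vc n m ⊆ Vc n m' := fun v hv n' hn' => by
  obtain ⟨m'', h1, h2⟩ := hv n' hn'
  exact ⟨m'', h1.trans h, h2⟩

theorem Vc_anti (n n' m : ℕ) (h : n ≤ n') : Vc n' m ⊆ Vc n m := fun _ hv k hk => hv k (hk.trans h)

theorem isClopen_Vc (n m : ℕ) : IsClopen (Vc n m) := by
  have : Vc n m = ⋂ n' ∈ Finset.range (n + 1), ⋃ m' ∈ Finset.range (m + 1), ⋃ k ∈ Finset.range (m' + 1),
      ((fun v : (ℕ → Bool) × (ℕ → Bool) => v.1 k) ⁻¹' {true} ∩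
        (fun v : (ℕ → Bool) × (ℕ → Bool) => v.2 (Nat.pair k (Nat.pair n' m'))) ⁻¹' {true}) := by
    ext v
    simp only [Vc, mem_ofPred_eq, mem_iInter, mem_iUnion, Finset.mem_range, Nat.lt_succ_iff, mem_inter_iff,
      mem_preimage, mem_singleton_iff, exists_prop]
  rw [this]
  refine isClopen_biInter_finset fun n' _ => isClopen_biUnion_finset fun m' _ => isClopen_biUnion_finset fun k _ => ?_
  refine IsClopen.inter ((isClopen_discrete _).preimage ?_) ((isClopen_discrete _).preimage ?_) <;> fun_prop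

/-- The coded form of a sequence of covers of a product. -/
theorem exists_coding {Y : Set β} (hY : Menger Y) (V : ℕ → ℕ → Set (ℝ × β)) (hVo : ∀ n m, IsOpen (V n m))
    (hVm : ∀ n m m', m ≤ m' → V n m ⊆ V n m') :
    ∃ (I : ℕ → Set ℝ) (O : ℕ → Set β), (∀ k, IsOpen (I k)) ∧ Menger (Cod O Y) ∧
      (∀ X : Set ℝ, (∀ n, ∀ v ∈ X ×ˢ Y, ∃ m, v ∈ V n m) →
        ∀ n, ∀ a ∈ Cod I X, ∀ c ∈ Cod O Y, ∃ m, (a, c) ∈ Vc n m) ∧
      ∀ n m x y, (cod I x, cod O y) ∈ Vc n m → (x, y) ∈ V n m := by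
  obtain ⟨I, C, hI, hC, hIC, hICW⟩ := exists_balls
  let O : ℕ → Set β := fun j =>
    {y | C j.unpair.1 ×ˢ {y} ⊆ V j.unpair.2.unpair.1 j.unpair.2.unpair.2}
  have hO : ∀ k n m, O (Nat.pair k (Nat.pair n m)) = {y | C k ×ˢ {y} ⊆ V n m} := fun k n m => by
    simp [O]
  refine ⟨I, O, hI, menger_Cod hY fun j => isOpen_slice' (hC _) (hVo _ _), ?_, ?_⟩
  · rintro X hX n a ⟨x, hx, ha⟩ c ⟨y, hy, hc⟩
    have h1 : ∀ n', ∃ m', ∃ k ≤ m', a k = true ∧ c (Nat.pair k (Nat.pair n' m')) = true := fun n' => by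
      obtain ⟨m0, hm0⟩ := hX n' (x, y) ⟨hx, hy⟩
      have ho : IsOpen {x : ℝ | (x, y) ∈ V n' m0} := (hVo n' m0).preimage (by fun_prop)
      obtain ⟨k, hk, hkC⟩ := hICW x _ ho hm0
      refine ⟨max k m0, k, le_max_left _ _, ha k hk, hc _ ?_⟩
      rw [hO]
      rintro ⟨x', y'⟩ ⟨hx', hy'⟩
      obtain rfl : y' = y := hy'
      exact hVm _ _ _ (le_max_right _ _) (hkC hx')
    choose m hm using h1
    refine ⟨∑ k ∈ Finset.range (n + 1), m k, fun n' hn' => ⟨m n', ?_, hm n'⟩⟩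
    exact Finset.single_le_sum (f := m) (fun _ _ => Nat.zero_le _) (Finset.mem_range.2 (by omega))
  · intro n m x y h
    obtain ⟨m', hm', k, -, h1, h2⟩ := h n le_rfl
    have h3 := (cod_iff I x k).1 h1
    have h4 := (cod_iff O y _).1 h2
    rw [hO] at h4
    exact hVm _ _ _ hm' (h4 ⟨hIC k h3, rfl⟩)

theorem isEmbedding_embemb : IsEmbedding (Prod.map emb emb) := isEmbedding_emb.prodMap isEmbedding_emb

/-- If products of Menger sets of reals are Menger, then so are products of a Menger set of reals and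
a Menger subset of any second countable space. -/
theorem prod_all (hP : ∀ X Y : Set ℝ, Menger X → Menger Y → Menger (X ×ˢ Y)) [SecondCountableTopology β]
    {X : Set ℝ} {Y : Set β} (hX : Menger X) (hY : Menger Y) : Menger (X ×ˢ Y) := by
  apply menger_of_sel
  intro V hV
  obtain ⟨I, O, hI, hT, hcov, hex⟩ := exists_coding hY V hV.op hV.mono
  have hcov := hcov X fun n v hv => hV.cov n v hv
  have hS : Menger (Cod I X) := menger_Cod hX hI
  have hprod := hP _ _ (hS.image isEmbedding_emb.continuous) (hT.image isEmbedding_emb.continuous)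
  have hW : IncCover ((emb '' Cod I X) ×ˢ (emb '' Cod O Y)) fun n m => ext (Prod.map emb emb) (Vc n m) := by
    refine ⟨fun n m => isOpen_ext _ _, fun n m m' h => ext_mono _ (Vc_mono n m m' h),
      fun n n' m h => ext_mono _ (Vc_anti n n' m h), ?_⟩
    rintro n ⟨_, _⟩ ⟨⟨a, ha, rfl⟩, ⟨c, hc, rfl⟩⟩
    obtain ⟨m, hm⟩ := hcov n a ha c hc
    exact ⟨m, (mem_ext isEmbedding_embemb.isInducing (isClopen_Vc n m).isOpen).2 hm⟩
  obtain ⟨g, -, -, hg⟩ := hprod.sel hW
  refine ⟨g, ?_⟩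
  rintro ⟨x, y⟩ ⟨hx, hy⟩
  obtain ⟨n, -, hn⟩ := hg (emb (cod I x), emb (cod O y)) ⟨⟨_, cod_mem hx, rfl⟩, ⟨_, cod_mem hy, rfl⟩⟩ 0
  exact ⟨n, hex _ _ _ _ ((mem_ext (x := (cod I x, cod O y)) isEmbedding_embemb.isInducing
    (isClopen_Vc n (g n)).isOpen).1 hn)⟩

end Pool.Agent.Helper25.MS
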