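import Pool.Agent.Helper25.MS.Scale
import Pool.Agent.Helper25.MS.Main

/-!
Project MS.  Subsets which are `𝔡`-concentrated on a countable set.
-/

set_option autoImplicit false

namespace Pool.Agent.Helper25.MS

open Set Filter Cardinal Topology

/-- `X₁` is `𝔡`-concentrated on `H`: every open set which contains `H` contains all but fewer than `𝔡` points of `X₁`. -/
def ConcOn {α : Type} [TopologicalSpace α] (X₁ H : Set α) : Prop :=
  ∀ W : Set α, IsOpen W → H ⊆ W → #(X₁ \ W : Set α) < dd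

/-- No Menger set `X` has a subset with at least `𝔡` points which is `𝔡`-concentrated on a set which is disjoint
from `X` and has the property `𝓗`. -/
def NoConc (𝓗 : Set ℝ → Prop) : Prop :=
  ∀ X X₁ H : Set ℝ, Menger X → X₁ ⊆ X → 𝓗 H → Disjoint X H → ConcOn X₁ H → #X₁ < dd

/-- Transfer along a continuous injection. -/
theorem triple_map {α : Type} [TopologicalSpace α] {X X₁ H : Set α} {φ : α → ℝ} (hφ : Continuous φ)
    (hφi : Function.Injective φ) (hX : Menger X) (hX₁ : X₁ ⊆ X) (hd : Disjoint X H) (hc : ConcOn X₁ H)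
    (hcard : dd ≤ #X₁) :
    Menger (φ '' X) ∧ φ '' X₁ ⊆ φ '' X ∧ Disjoint (φ '' X) (φ '' H) ∧ ConcOn (φ '' X₁) (φ '' H) ∧
      dd ≤ #(φ '' X₁ : Set ℝ) := by
  refine ⟨hX.image hφ, image_mono hX₁, (disjoint_image_iff hφi).2 hd, fun W hW hHW => ?_, ?_⟩
  · refine lt_of_le_of_lt ?_ (hc (φ ⁻¹' W) (hW.preimage hφ) (image_subset_iff.1 hHW))
    refine le_trans (mk_le_mk_of_subset ?_) (mk_image_le (f := φ) (s := X₁ \ φ ⁻¹' W))
    rintro _ ⟨⟨x, hx, rfl⟩, hxW⟩
    exact ⟨x, ⟨hx, hxW⟩, rfl⟩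
  · rwa [mk_image_eq hφi]

/-- Menger modulo `U` excludes concentration on disjoint countable sets. -/
theorem noConc_countable {U : Ultrafilter ℕ} (hU : SmallU U) {X X₁ H : Set ℝ} (hX : UM U X) (hX₁ : X₁ ⊆ X)
    (hH : H.Countable) (hd : Disjoint X H) (hc : ConcOn X₁ H) : #X₁ < dd := by
  rcases H.eq_empty_or_nonempty with rfl | hne
  · have := hc ∅ isOpen_empty (empty_subset _)
    simpa using this
  obtain ⟨h, rfl⟩ := hH.exists_eq_range hne
  obtain ⟨B, hBc, hBU, hB⟩ := hU.base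
  have hne : ∀ x ∈ X, ∀ i, 0 < |x - h i| := fun x hx i => by
    rw [abs_pos, sub_ne_zero]
    rintro rfl
    exact disjoint_left.1 hd hx ⟨i, rfl⟩
  let V : ℕ → ℕ → Set ℝ := fun n m => {x | ∀ i ≤ n, 1 / ((m : ℝ) + 1) < |x - h i|}
  have hV : IncCover X V := by
    refine ⟨fun n m => ?_, fun n m m' hm x hx i hi => ?_, fun n n' m hn x hx i hi => hx i (hi.trans hn), fun n x hx => ?_⟩
    · have : V n m = ⋂ i ∈ Finset.range (n + 1), {x | 1 / ((m : ℝ) + 1) < |x - h i|} := by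
        ext x; simp [V]
      rw [this]
      exact isOpen_biInter_finset fun i _ => isOpen_lt continuous_const (by fun_prop)
    · refine lt_of_le_of_lt (one_div_le_one_div_of_le (by positivity) ?_) (hx i hi)
      exact_mod_cast Nat.succ_le_succ hm
    · choose m hm using fun i => exists_nat_one_div_lt (hne x hx i)
      refine ⟨∑ i ∈ Finset.range (n + 1), m i, fun i hi => lt_of_le_of_lt ?_ (hm i)⟩
      have h1 : m i ≤ ∑ i ∈ Finset.range (n + 1), m i :=
        Finset.single_le_sum (f := m) (fun _ _ => Nat.zero_le _) (Finset.mem_range.2 (by omega))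
      refine one_div_le_one_div_of_le (by positivity) ?_
      exact_mod_cast Nat.succ_le_succ h1
  obtain ⟨l, G, hl, hlG⟩ := hX V hV
  let W : Set ℕ → Set ℝ := fun b => ⋃ a ∈ b, ⋃ i ∈ Finset.range (l a + 1), Metric.ball (h i) (1 / ((G a : ℝ) + 1))
  have hW : ∀ b ∈ B, IsOpen (W b) ∧ range h ⊆ W b := fun b hb => ⟨isOpen_biUnion fun a _ =>
    isOpen_biUnion fun i _ => Metric.isOpen_ball, by
    rintro _ ⟨i, rfl⟩
    have h1 : ∀ᶠ a in (U : Filter ℕ), i ≤ l a := hU.np (hl.eventually_ge_atTop i)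
    have h2 : ∀ᶠ a in (U : Filter ℕ), a ∈ b := hBU b hb
    obtain ⟨a, ha1, ha2⟩ := (h1.and h2).exists
    exact mem_iUnion₂.2 ⟨a, ha2, mem_iUnion₂.2 ⟨i, by simpa using ha1, Metric.mem_ball_self (by positivity)⟩⟩⟩
  have h1 : #(⋃ b : B, X₁ \ W b.1) < dd :=
    (card_iUnion_lt_iff_forall_of_isRegular hU.isRegular hBc).2 fun b => hc _ (hW b.1 b.2).1 (hW b.1 b.2).2
  refine lt_of_le_of_lt (mk_le_mk_of_subset fun x hx => ?_) h1
  by_contra hc
  have hc' : ∀ b ∈ B, x ∈ W b := fun b hb => by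
    by_contra h3
    exact hc (mem_iUnion.2 ⟨⟨b, hb⟩, hx, h3⟩)
  have h4 : ∀ᶠ a in (U : Filter ℕ), x ∉ V (l a) (G a) := mem_of_meets hB fun b hb => by
    obtain ⟨a, ha, h5⟩ := mem_iUnion₂.1 (hc' b hb)
    obtain ⟨i, hi, h6⟩ := mem_iUnion₂.1 h5
    refine ⟨a, ha, fun h7 => ?_⟩
    have h8 := h7 i (by simpa [Nat.lt_succ_iff] using hi)
    rw [Metric.mem_ball, Real.dist_eq] at h6
    exact lt_asymm h6 h8
  obtain ⟨a, ha1, ha2⟩ := ((hlG x (hX₁ hx)).and h4).exists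
  exact ha2 ha1

/-- Functions with runs. -/
theorem exists_runs (h : ¬ ∃ R : Set (Set ℕ), Unsplit R ∧ #R < dd) {J : Type} (hJ : #J < dd) (b : J → ℕ → ℕ) :
    ∃ x : ℕ → Bool, ∀ j, ∀ v : Bool, ∃ n, ∀ a, n ≤ a → a ≤ b j n → x a = v := by
  classical
  obtain ⟨p, hp, hp0, -, hpb⟩ := part hJ b fun _ => 0
  obtain ⟨A, hA⟩ := exists_split h (R := range fun j => {k | b j (p k) < p (k + 1)})
    (lt_of_le_of_lt mk_range_le hJ) (by
      rintro _ ⟨j, rfl⟩
      exact Nat.frequently_atTop_iff_infinite.1 (hpb j))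
  refine ⟨fun a => decide (blk p a ∈ A), fun j v => ?_⟩
  have h1 : ∃ k, b j (p k) < p (k + 1) ∧ decide (k ∈ A) = v := by
    cases v
    · obtain ⟨k, hk1, hk2⟩ := (hA _ ⟨j, rfl⟩).2.nonempty
      exact ⟨k, hk1, by simpa using hk2⟩
    · obtain ⟨k, hk1, hk2⟩ := (hA _ ⟨j, rfl⟩).1.nonempty
      exact ⟨k, hk1, by simpa using hk2⟩
  obtain ⟨k, hk1, hk2⟩ := h1
  refine ⟨p k, fun a ha1 ha2 => ?_⟩
  have : blk p a = k := blk_eq hp hp0 ha1 (by omega)
  simpa [this] using hk2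

theorem conc_of_no_unsplit (h : ¬ ∃ R : Set (Set ℕ), Unsplit R ∧ #R < dd) :
    ∃ X X₁ H : Set ℝ, Menger X ∧ X₁ ⊆ X ∧ H.Countable ∧ Disjoint X H ∧ ConcOn X₁ H ∧ dd ≤ #X₁ := by
  classical
  obtain ⟨D, hD, hDc⟩ := exists_dom
  obtain ⟨e⟩ : Nonempty (Ix ≃ D) := Cardinal.eq.1 (mk_Ix.trans hDc.symm)
  -- both values occur in `[n, bt t n]`
  let bt : (ℕ → Bool) → ℕ → ℕ := fun t n =>
    if hn : ∃ m, ∀ v : Bool, ∃ a, n ≤ a ∧ a ≤ m ∧ t a = v then Nat.find hn else 0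
  have hinf : ℵ₀ ≤ dd := aleph0_lt_dd.le
  have hJ : ∀ i : Ix, #(({j : Ix // j ≤ i} × ℕ) ⊕ {j : Ix // j < i}) < dd := fun i => by
    rw [mk_sum, lift_id, lift_id, mk_prod, lift_id, lift_id, mk_nat]
    exact add_lt_of_lt hinf (mul_lt_of_lt hinf (mk_Iic_Ix i) aleph0_lt_dd) (mk_Iio_Ix i)
  have key : ∀ (i : Ix) (prev : ∀ j, j < i → ℕ → Bool), ∃ x : ℕ → Bool,
      ∀ s : ({j : Ix // j ≤ i} × ℕ) ⊕ {j : Ix // j < i}, ∀ v : Bool, ∃ n, ∀ a, n ≤ a →
        a ≤ Sum.elim (fun (v : {j : Ix // j ≤ i} × ℕ) n => max (max n v.2) ((e v.1.1).1 (max n v.2)))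
          (fun (j : {j : Ix // j < i}) => bt (prev j.1 j.2)) s n → x a = v := fun i prev =>
    exists_runs h (hJ i) _
  choose F hF using key
  let x : Ix → ℕ → Bool := (wellFounded_lt (α := Ix)).fix F
  have hx : ∀ i, x i = F i fun j _ => x j := fun i => (wellFounded_lt (α := Ix)).fix_eq F i
  have hrun : ∀ i j, j ≤ i → ∀ N, ∀ v : Bool, ∃ n, N ≤ n ∧ x i n = v ∧ ∀ a, n ≤ a → a ≤ (e j).1 n → x i a = v := by
    intro i j hj N v
    obtain ⟨n, hn⟩ := hF i (fun j _ => x j) (Sum.inl (⟨j, hj⟩, N)) v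
    rw [← hx] at hn
    simp only [Sum.elim_inl] at hn
    refine ⟨max n N, le_max_right _ _, hn _ (le_max_left _ _) (le_max_left _ _), fun a ha1 ha2 =>
      hn a ((le_max_left _ _).trans ha1) (ha2.trans (le_max_right _ _))⟩
  have hnc : ∀ i, ∀ v : Bool, ∀ N, ∃ n, N ≤ n ∧ x i n = v := fun i v N => by
    obtain ⟨n, h1, h2, -⟩ := hrun i i le_rfl N v
    exact ⟨n, h1, h2⟩
  have hinj : Function.Injective x := by
    have h1 : ∀ i j, j < i → x i ≠ x j := by
      intro i j hj hc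
      have hn : ∀ n, ∃ m, ∀ v : Bool, ∃ a, n ≤ a ∧ a ≤ m ∧ x j a = v := fun n => by
        obtain ⟨a0, h1, h2⟩ := hnc j true n
        obtain ⟨a1, h3, h4⟩ := hnc j false n
        refine ⟨max a0 a1, fun v => ?_⟩
        cases v
        · exact ⟨a1, h3, le_max_right _ _, h4⟩
        · exact ⟨a0, h1, le_max_left _ _, h2⟩
      obtain ⟨n, hn2⟩ := hF i (fun j _ => x j) (Sum.inr ⟨j, hj⟩) true
      rw [← hx] at hn2
      simp only [Sum.elim_inr] at hn2
      have h2 : bt (x j) n = Nat.find (hn n) := dif_pos (hn n)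
      obtain ⟨a, ha1, ha2, ha3⟩ := Nat.find_spec (hn n) false
      have h3 := hn2 a ha1 (by rw [h2]; exact ha2)
      rw [hc, ha3] at h3
      exact absurd h3 (by decide)
    intro i j hij
    rcases lt_trichotomy i j with h2 | h2 | h2
    · exact absurd hij.symm (h1 j i h2)
    · exact h2
    · exact absurd hij (h1 i j h2)
  have hconc : ∀ v : Bool, ConcOn (range x) (cof v) := by
    intro v W hW hcW
    obtain ⟨b, hb⟩ := exists_run v hW hcW
    obtain ⟨f, hf, hfb⟩ := hD b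
    obtain ⟨N, hN⟩ := eventually_atTop.1 hfb
    have h1 : (range x \ W) ⊆ x '' Iio (e.symm ⟨f, hf⟩) := by
      rintro _ ⟨⟨i, rfl⟩, hi⟩
      refine ⟨i, ?_, rfl⟩
      by_contra hc
      apply hi
      obtain ⟨n, hn1, -, hn2⟩ := hrun i _ (not_lt.1 hc) N v
      have hef : (e (e.symm ⟨f, hf⟩)).1 = f := by simp
      rw [hef] at hn2
      exact hb n _ fun a ha1 ha2 => hn2 a ha1 (ha2.trans (hN n hn1))
    exact lt_of_le_of_lt (mk_le_mk_of_subset h1) (lt_of_le_of_lt mk_image_le (mk_Iio_Ix _))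
  have hdis : ∀ v, ∀ i, x i ∉ cof v := fun v i ⟨n, hn⟩ => by
    obtain ⟨a, ha1, ha2⟩ := hnc i (!v) n
    rw [hn a ha1] at ha2
    cases v <;> simp at ha2
  have hM : Menger (emb '' (cof false ∪ range x)) := by
    apply Concentrated.menger
    refine ⟨emb '' cof false, image_mono subset_union_left, (countable_cof false).image _, fun W hW hcW => ?_⟩
    refine lt_of_le_of_lt ?_ (hconc false (emb ⁻¹' W) (hW.preimage isEmbedding_emb.continuous)
      (image_subset_iff.1 hcW))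
    refine le_trans (mk_le_mk_of_subset ?_) (mk_image_le (f := emb) (s := range x \ emb ⁻¹' W))
    rintro _ ⟨⟨t, ht | ht, rfl⟩, htW⟩
    · exact absurd (hcW ⟨t, ht, rfl⟩) htW
    · exact ⟨t, ⟨ht, htW⟩, rfl⟩
  refine ⟨emb '' (cof false ∪ range x), emb '' range x, emb '' cof true, hM, image_mono subset_union_right,
    (countable_cof true).image _, ?_, fun W hW hcW => ?_, ?_⟩
  · rw [disjoint_image_iff isEmbedding_emb.injective, disjoint_left]
    rintro t (⟨n, hn⟩ | ⟨i, rfl⟩) ⟨m, hm⟩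
    · have h1 := hn (max n m) (le_max_left _ _)
      rw [hm (max n m) (le_max_right _ _)] at h1
      exact absurd h1 (by decide)
    · exact hdis true i ⟨m, hm⟩
  · refine lt_of_le_of_lt ?_ (hconc true (emb ⁻¹' W) (hW.preimage isEmbedding_emb.continuous)
      (image_subset_iff.1 hcW))
    refine le_trans (mk_le_mk_of_subset ?_) (mk_image_le (f := emb) (s := range x \ emb ⁻¹' W))
    rintro _ ⟨⟨t, ht, rfl⟩, htW⟩
    exact ⟨t, ⟨ht, htW⟩, rfl⟩
  · rw [mk_image_eq isEmbedding_emb.injective, mk_range_eq x hinj, mk_Ix]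

end Pool.Agent.Helper25.MS
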