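import Pool.Agent.Helper25.MS.TripC

/-!
Project MS.  Products which are not Menger give subsets concentrated on disjoint Menger sets.
-/

set_option autoImplicit false

namespace Pool.Agent.Helper25.MS

open Set Filter Cardinal Topology

theorem isOpen_all {Z : Set ((ℕ → Bool) × (ℕ → Bool))} (hZ : IsClopen Z) {W : Set (ℕ → Bool)} (hW : IsOpen W) :
    IsOpen {c : ℕ → Bool | ∀ a, (a, c) ∉ Z → a ∈ W} := by
  have h1 : IsClosed (Prod.snd '' {v : (ℕ → Bool) × (ℕ → Bool) | v ∉ Z ∧ v.1 ∉ W}) := by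
    apply isClosedMap_snd_of_compactSpace
    exact hZ.isOpen.isClosed_compl.inter (hW.isClosed_compl.preimage continuous_fst)
  have h2 : {c : ℕ → Bool | ∀ a, (a, c) ∉ Z → a ∈ W} = (Prod.snd '' {v : (ℕ → Bool) × (ℕ → Bool) | v ∉ Z ∧ v.1 ∉ W})ᶜ := by
    ext c
    simp only [mem_ofPred_eq, mem_compl_iff, mem_image, Prod.exists, exists_eq_right, not_exists, not_and, not_not]
  rw [h2]
  exact h1.isOpen_compl

/-- The points in the fibres over `B` of the complement of the intersection of the unions of the `Vc n m`. -/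
def Fib (B : Set (ℕ → Bool)) : Set (ℕ → Bool) := {a | ∃ c ∈ B, ∃ n, ∀ m, (a, c) ∉ Vc n m}

theorem fib_cov {B : Set (ℕ → Bool)} {W : Set (ℕ → Bool)} (hW : IsOpen W) (hBW : Fib B ⊆ W) :
    IncCover B fun n m => {c : ℕ → Bool | ∀ a, (a, c) ∉ Vc n m → a ∈ W} := by
  refine ⟨fun n m => isOpen_all (isClopen_Vc n m) hW, fun n m m' h c hc a ha => hc a fun h2 => ha (Vc_mono _ _ _ h h2),
    fun n n' m h c hc a ha => hc a fun h2 => ha (Vc_anti _ _ _ h h2), fun n c hc => ?_⟩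
  obtain ⟨m, hm⟩ := (isCompact_univ (X := ℕ → Bool)).elim_directed_cover
    (fun m => {a : ℕ → Bool | (a, c) ∈ Vc n m} ∪ W)
    (fun m => ((isClopen_Vc n m).isOpen.preimage (by fun_prop)).union hW)
    (fun a _ => by
      by_cases h : ∃ m, (a, c) ∈ Vc n m
      · obtain ⟨m, hm⟩ := h
        exact mem_iUnion.2 ⟨m, Or.inl hm⟩
      · push Not at h
        exact mem_iUnion.2 ⟨0, Or.inr (hBW ⟨c, hc, n, h⟩)⟩)
    (directed_of_isDirected_le fun m m' h => union_subset_union_left _ fun a ha => Vc_mono _ _ _ h ha)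
  refine ⟨m, fun a ha => ?_⟩
  rcases hm (mem_univ a) with h | h
  · exact absurd h ha
  · exact h

theorem menger_Fib {B : Set (ℕ → Bool)} (hB : Menger B) : Menger (Fib B) := by
  apply menger_of_sel
  intro W hW
  have h1 : IncCover B fun k m => {c : ℕ → Bool | ∀ n ≤ k, ∀ a, (a, c) ∉ Vc n m → a ∈ W k m} := by
    refine ⟨fun k m => ?_, fun k m m' h c hc n hn a ha => hW.mono _ _ _ h (hc n hn a fun h2 => ha (Vc_mono _ _ _ h h2)),
      fun k k' m h c hc n hn a ha => hW.anti _ _ _ h (hc n (hn.trans h) a ha), fun k c hc => ?_⟩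
    · have : {c : ℕ → Bool | ∀ n ≤ k, ∀ a, (a, c) ∉ Vc n m → a ∈ W k m} =
          ⋂ n ∈ Finset.range (k + 1), {c : ℕ → Bool | ∀ a, (a, c) ∉ Vc n m → a ∈ W k m} := by
        ext c
        simp only [mem_ofPred_eq, mem_iInter, Finset.mem_range, Nat.lt_succ_iff]
      rw [this]
      exact isOpen_biInter_finset fun n _ => isOpen_all (isClopen_Vc n m) (hW.op k m)
    · have h2 : ∀ n, ∃ m, ∀ a, (a, c) ∈ Vc n m ∨ a ∈ W k m := fun n => by
        obtain ⟨m, hm⟩ := (isCompact_univ (X := ℕ → Bool)).elim_directed_cover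
          (fun m => {a : ℕ → Bool | (a, c) ∈ Vc n m} ∪ W k m)
          (fun m => ((isClopen_Vc n m).isOpen.preimage (by fun_prop)).union (hW.op k m))
          (fun a _ => by
            by_cases h : ∃ m, (a, c) ∈ Vc n m
            · obtain ⟨m, hm⟩ := h
              exact mem_iUnion.2 ⟨m, Or.inl hm⟩
            · push Not at h
              obtain ⟨m, hm⟩ := hW.cov k a ⟨c, hc, n, h⟩
              exact mem_iUnion.2 ⟨m, Or.inr hm⟩)
          (directed_of_isDirected_le fun m m' h => union_subset_union (fun a ha => Vc_mono _ _ _ h ha)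
            (hW.mono _ _ _ h))
        exact ⟨m, fun a => hm (mem_univ a)⟩
      choose m hm using h2
      refine ⟨∑ n ∈ Finset.range (k + 1), m n, fun n hn a ha => ?_⟩
      have h3 : m n ≤ ∑ n ∈ Finset.range (k + 1), m n :=
        Finset.single_le_sum (f := m) (fun _ _ => Nat.zero_le _) (Finset.mem_range.2 (by omega))
      rcases hm n a with h | h
      · exact absurd (Vc_mono _ _ _ h3 h) ha
      · exact hW.mono _ _ _ h3 h
  obtain ⟨g, -, -, hg⟩ := hB.sel h1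
  refine ⟨g, ?_⟩
  rintro a ⟨c, hc, n, hn⟩
  obtain ⟨k, hk, h2⟩ := hg c hc n
  exact ⟨k, h2 n hk a (hn _)⟩

theorem conc_of_not_prod {U : Ultrafilter ℕ} (hU : SmallU U) (hUX : ∀ X : Set ℝ, Menger X → UM U X)
    {X Y : Set ℝ} (hX : Menger X) (hY : Menger Y) (hn : ¬ Menger (X ×ˢ Y)) :
    ∃ X X₁ H : Set ℝ, Menger X ∧ X₁ ⊆ X ∧ Menger H ∧ Disjoint X H ∧ ConcOn X₁ H ∧ dd ≤ #X₁ := by
  classical
  obtain ⟨V, hV, hVn⟩ : ∃ V, IncCover (X ×ˢ Y) V ∧ ∀ g : ℕ → ℕ, ∃ v ∈ X ×ˢ Y, ∀ n, v ∉ V n (g n) := by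
    by_contra hc
    push Not at hc
    exact hn (menger_of_sel hc)
  obtain ⟨l, G, hl, hsc⟩ := exists_scale hU
  have hng : ¬ Good U V (X ×ˢ Y) := fun hg => by
    obtain ⟨g, hg⟩ := hg.sel hV.mono
    obtain ⟨v, hv, hvg⟩ := hVn g
    obtain ⟨n, hn⟩ := hg v hv
    exact hvg n hn
  have h1 : ∀ i, ∃ x ∈ X, ∃ y ∈ Y, ∀ᶠ a in (U : Filter ℕ), (x, y) ∉ V (l i a) (G i a) := fun i => by
    by_contra hc
    push Not at hc
    apply hng
    refine ⟨l i, G i, hl i, ?_⟩
    rintro ⟨x, y⟩ ⟨hx, hy⟩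
    by_contra h2
    exact h2 (by
      have h3 := hc x hx y hy
      simpa using h3)
  choose x hx y hy hxy using h1
  obtain ⟨I, O, hI, hB, hcov, hex⟩ := exists_coding hY V hV.op hV.mono
  have hcov := hcov X fun n v hv => hV.cov n v hv
  have hA : Menger (Cod I X) := menger_Cod hX hI
  have hAm : ∀ i, cod I (x i) ∈ Cod I X := fun i => cod_mem (hx i)
  have hdis : Disjoint (Cod I X) (Fib (Cod O Y)) := by
    rw [disjoint_left]
    rintro a ha ⟨c, hc, n, hn⟩
    obtain ⟨m, hm⟩ := hcov n a ha c hc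
    exact hn m hm
  have hmain : ∀ W : Set (ℕ → Bool), IsOpen W → Fib (Cod O Y) ⊆ W → ∃ j, ∀ i, j ≤ i → cod I (x i) ∈ W := by
    intro W hW hHW
    obtain ⟨l', G', hl', hlG'⟩ := UM.all hUX hB _ (fib_cov hW hHW)
    obtain ⟨j, hj⟩ := hsc l' G' hl'
    refine ⟨j, fun i hi => ?_⟩
    obtain ⟨a, ⟨⟨ha1, ha2⟩, ha3⟩, ha4⟩ := (((hj i hi).and (hxy i)).and (hlG' _ (cod_mem (hy i)))).exists
    apply ha4
    intro h2
    exact ha3 (hex _ _ _ _ (Vc_mono _ _ _ ha2 (Vc_anti _ _ _ ha1 h2)))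
  have hconc : ConcOn (range fun i => cod I (x i)) (Fib (Cod O Y)) := fun W hW hHW => by
    obtain ⟨j, hj⟩ := hmain W hW hHW
    refine lt_of_le_of_lt (mk_le_mk_of_subset (show _ ⊆ (fun i => cod I (x i)) '' Iio j from ?_))
      (lt_of_le_of_lt mk_image_le (mk_Iio_Ix j))
    rintro _ ⟨⟨i, rfl⟩, hi⟩
    exact ⟨i, not_le.1 fun hc => hi (hj i hc), rfl⟩
  have hcard : dd ≤ #(range fun i => cod I (x i)) := le_mk_range hU.isRegular fun b => by
    by_cases hb : b ∈ Fib (Cod O Y)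
    · obtain ⟨i0⟩ : Nonempty Ix := by
        rw [← mk_ne_zero_iff, mk_Ix]
        exact (aleph0_pos.trans aleph0_lt_dd).ne'
      exact ⟨i0, fun i _ hc => disjoint_left.1 hdis (hAm i) (hc ▸ hb)⟩
    · obtain ⟨j, hj⟩ := hmain {b}ᶜ isOpen_compl_singleton fun h hh hc => hb (by
        rw [mem_singleton_iff] at hc; rwa [← hc])
      exact ⟨j, fun i hi => hj i hi⟩
  have hsub : (range fun i => cod I (x i)) ⊆ Cod I X := by
    rintro _ ⟨i, rfl⟩
    exact hAm i
  obtain ⟨r1, r2, r3, r4, r5⟩ := triple_map isEmbedding_emb.continuous isEmbedding_emb.injective hA hsub hdis hconc hcard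
  exact ⟨_, _, _, r1, r2, (menger_Fib hB).image isEmbedding_emb.continuous, r3, r4, r5⟩

end Pool.Agent.Helper25.MS
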