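import Pool.Agent.Helper25.MS.TripA

/-!
Project MS.  A Menger set which is not Menger modulo `U` gives a subset concentrated on a disjoint countable set.
-/

set_option autoImplicit false

namespace Pool.Agent.Helper25.MS

open Set Filter Cardinal Topology

/-- The compact space of monotone functions below the identity. -/
def Kmon : Set (ℕ → ℕ) := {h | (∀ m, h m ≤ m) ∧ Monotone h}

theorem isCompact_Kmon : IsCompact Kmon := by
  have h1 : IsCompact (Set.pi Set.univ fun m : ℕ => Iic m) := isCompact_univ_pi fun m => (finite_Iic m).isCompact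
  have h2 : IsClosed {h : ℕ → ℕ | Monotone h} := isClosed_monotone
  have h3 : Kmon = (Set.pi Set.univ fun m : ℕ => Iic m) ∩ {h : ℕ → ℕ | Monotone h} := by
    ext h; simp [Kmon]
  rw [h3]
  exact h1.inter_right h2

/-- The bounded elements. -/
def Hb : Set (ℕ → ℕ) := {h | h ∈ Kmon ∧ ∃ n, ∀ m, h m ≤ n}

theorem countable_Hb : Hb.Countable := by
  have : Hb ⊆ ⋃ N : ℕ, ⋃ c : ℕ, range fun s : (Fin N → ℕ) => fun a : ℕ => if h : a < N then s ⟨a, h⟩ else c := by
    rintro h ⟨hK, n, hn⟩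
    have hfin : (range h).Finite := (finite_Iic n).subset (by rintro _ ⟨m, rfl⟩; exact hn m)
    obtain ⟨_, ⟨N, rfl⟩, hN⟩ := Set.exists_max_image (range h) id hfin ⟨h 0, 0, rfl⟩
    refine mem_iUnion.2 ⟨N, mem_iUnion.2 ⟨h N, fun a => h a, ?_⟩⟩
    funext a
    by_cases ha : a < N
    · simp [ha]
    · simp only [ha, dif_neg, not_false_eq_true]
      exact le_antisymm (hK.2 (not_lt.1 ha)) (hN (h a) ⟨a, rfl⟩)
  exact (countable_iUnion fun N => countable_iUnion fun c => countable_range _).mono this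

/-- An open neighbourhood of `Hb`. -/
theorem exists_bd {W : Set (ℕ → ℕ)} (hW : IsOpen W) (hH : Hb ⊆ W) :
    ∃ b : ℕ → ℕ, ∀ n, ∀ h ∈ Kmon, h (b n) ≤ n → h ∈ W := by
  have h1 : ∀ n, ∃ m, ∀ h ∈ Kmon, h m ≤ n → h ∈ W := by
    intro n
    obtain ⟨u, hu⟩ := (isCompact_Kmon.inter_right hW.isClosed_compl).elim_finite_subfamily_closed
      (fun m : ℕ => {h : ℕ → ℕ | h m ≤ n}) (fun m => by
        have : IsClosed ((fun h : ℕ → ℕ => h m) ⁻¹' Iic n) := (isClosed_discrete _).preimage (continuous_apply m)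
        exact this) (by
        rw [eq_empty_iff_forall_notMem]
        rintro h ⟨⟨hK, hhW⟩, hh⟩
        exact hhW (hH ⟨hK, n, fun m => mem_iInter.1 hh m⟩))
    refine ⟨∑ k ∈ u, k, fun h hK hh => ?_⟩
    by_contra hhW
    have : h ∈ (Kmon ∩ Wᶜ) ∩ ⋂ m ∈ u, {h : ℕ → ℕ | h m ≤ n} := ⟨⟨hK, hhW⟩, mem_iInter₂.2 fun m hm =>
      (hK.2 (Finset.single_le_sum (f := fun k => k) (fun _ _ => Nat.zero_le _) hm)).trans hh⟩
    rw [hu] at this
    exact this
  choose b hb using h1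
  exact ⟨b, hb⟩

/-- The code of a function. -/
noncomputable def cf (h : ℕ → ℕ) : ℕ → Bool := fun k => decide (h k.unpair.1 = k.unpair.2)

theorem continuous_cf : Continuous cf := by
  refine continuous_pi fun k => ?_
  exact (continuous_of_discreteTopology (f := fun j : ℕ => decide (j = k.unpair.2))).comp (continuous_apply k.unpair.1)

theorem injective_cf : Function.Injective cf := by
  intro h h' hh
  funext m
  have := congrFun hh (Nat.pair m (h m))
  simp only [cf, Nat.unpair_pair, decide_true] at this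
  exact (of_decide_eq_true this.symm).symm

theorem conc_of_not_UM {U : Ultrafilter ℕ} (hU : SmallU U) {X : Set ℝ} (hX : Menger X) (hn : ¬ UM U X) :
    ∃ X X₁ H : Set ℝ, Menger X ∧ X₁ ⊆ X ∧ H.Countable ∧ Disjoint X H ∧ ConcOn X₁ H ∧ dd ≤ #X₁ := by
  classical
  unfold UM at hn
  push Not at hn
  obtain ⟨V, hV, hVn⟩ := hn
  obtain ⟨l, G, hl, hsc⟩ := exists_scale hU
  have h1 : ∀ i, ∃ x ∈ X, ∀ᶠ a in (U : Filter ℕ), x ∉ V (l i a) (G i a) := fun i => by
    obtain ⟨x, hx, h2⟩ := hVn (l i) (G i) (hl i)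
    exact ⟨x, hx, h2⟩
  choose x hx hxV using h1
  let N : ℝ → ℕ → ℕ := fun x m => Nat.findGreatest (fun n => x ∈ V n m) m
  have hNK : ∀ x, N x ∈ Kmon := fun x => ⟨fun m => Nat.findGreatest_le m, fun m m' hmm => by
    by_cases h0 : N x m = 0
    · rw [h0]; exact Nat.zero_le _
    · have h2 : x ∈ V (N x m) m := Nat.findGreatest_of_ne_zero (P := fun n => x ∈ V n m) rfl h0
      exact Nat.le_findGreatest ((Nat.findGreatest_le m).trans hmm) (hV.mono _ _ _ hmm h2)⟩
  let T : Set (ℕ → ℕ) := {h | h ∈ Kmon ∧ ∃ x ∈ X, ∀ v : ℕ × ℕ, x ∈ V v.1 v.2 → h ∈ {h : ℕ → ℕ | v.1 ≤ v.2 → v.1 ≤ h v.2}}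
  have hT : Menger T := menger_code hX isCompact_Kmon (fun v : ℕ × ℕ => V v.1 v.2)
    (fun v => {h : ℕ → ℕ | v.1 ≤ v.2 → v.1 ≤ h v.2}) (fun v => hV.op _ _) fun v => by
      have : IsClosed ((fun h : ℕ → ℕ => h v.2) ⁻¹' {k | v.1 ≤ v.2 → v.1 ≤ k}) :=
        (isClosed_discrete _).preimage (continuous_apply v.2)
      exact this
  have hNT : ∀ x ∈ X, N x ∈ T := fun x hx => ⟨hNK x, x, hx, fun v hv hle => Nat.le_findGreatest hle hv⟩
  have hdis : Disjoint T Hb := by
    rw [disjoint_left]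
    rintro h ⟨hK, x, hx, hh⟩ ⟨-, n, hn⟩
    obtain ⟨m, hm⟩ := hV.cov (n + 1) x hx
    have h2 := hh (n + 1, max m (n + 1)) (hV.mono _ _ _ (le_max_left _ _) hm) (le_max_right _ _)
    have h3 := hn (max m (n + 1))
    simp only at h2
    omega
  have hmain : ∀ W : Set (ℕ → ℕ), IsOpen W → Hb ⊆ W → ∃ j, ∀ i, j ≤ i → N (x i) ∈ W := by
    intro W hW hHW
    obtain ⟨b, hb⟩ := exists_bd hW hHW
    obtain ⟨j, hj⟩ := hsc id (fun a => ∑ n ∈ Finset.range (a + 1), b n) tendsto_id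
    refine ⟨j, fun i hi => ?_⟩
    obtain ⟨a, ⟨ha1, ha2⟩, ha3⟩ := ((hj i hi).and (hxV i)).exists
    apply hb (l i a) _ (hNK _)
    have h2 : b (l i a) ≤ G i a := le_trans
      (Finset.single_le_sum (f := b) (fun _ _ => Nat.zero_le _) (Finset.mem_range.2 (Nat.lt_succ_of_le ha1))) ha2
    refine ((hNK (x i)).2 h2).trans ?_
    by_contra hc
    have hc := not_le.1 hc
    have h3 : x i ∈ V (N (x i) (G i a)) (G i a) :=
      Nat.findGreatest_of_ne_zero (P := fun n => x i ∈ V n (G i a)) rfl (by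
        have : l i a < N (x i) (G i a) := hc
        show N (x i) (G i a) ≠ 0
        omega)
    exact ha3 (hV.anti _ _ _ hc.le h3)
  have hconc : ConcOn (range fun i => N (x i)) Hb := fun W hW hHW => by
    obtain ⟨j, hj⟩ := hmain W hW hHW
    refine lt_of_le_of_lt (mk_le_mk_of_subset (show _ ⊆ (fun i => N (x i)) '' Iio j from ?_))
      (lt_of_le_of_lt mk_image_le (mk_Iio_Ix j))
    rintro _ ⟨⟨i, rfl⟩, hi⟩
    exact ⟨i, not_le.1 fun hc => hi (hj i hc), rfl⟩
  have hcard : dd ≤ #(range fun i => N (x i)) := le_mk_range hU.isRegular fun b => by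
    by_cases hb : b ∈ Hb
    · obtain ⟨i0⟩ : Nonempty Ix := by
        rw [← mk_ne_zero_iff, mk_Ix]
        exact (aleph0_pos.trans aleph0_lt_dd).ne'
      exact ⟨i0, fun i _ hc => disjoint_left.1 hdis (hNT _ (hx i)) (hc ▸ hb)⟩
    · obtain ⟨j, hj⟩ := hmain {b}ᶜ isOpen_compl_singleton fun h hh hc => hb (by
        rw [mem_singleton_iff] at hc; rwa [← hc])
      exact ⟨j, fun i hi => hj i hi⟩
  have hsub : (range fun i => N (x i)) ⊆ T := by
    rintro _ ⟨i, rfl⟩
    exact hNT _ (hx i)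
  obtain ⟨r1, r2, r3, r4, r5⟩ := triple_map (φ := fun h => emb (cf h)) (isEmbedding_emb.continuous.comp continuous_cf)
    (isEmbedding_emb.injective.comp injective_cf) hT hsub hdis hconc hcard
  exact ⟨_, _, _, r1, r2, countable_Hb.image _, r3, r4, r5⟩

/-- The first criterion. -/
theorem scheepers_iff : (∀ X : Set ℝ, Menger X → Scheepers X) ↔ NoConc Set.Countable := by
  constructor
  · intro H X X₁ Y hX hX₁ hY hd hc
    obtain ⟨U, hU, hUX⟩ := UM_of_pairs fun X hX => (H X hX).pair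
    exact noConc_countable hU (hUX X hX) hX₁ hY hd hc
  · intro H
    have hR : ∃ R : Set (Set ℕ), Unsplit R ∧ #R < dd := by
      by_contra hc
      obtain ⟨X, X₁, Y, h1, h2, h3, h4, h5, h6⟩ := conc_of_no_unsplit hc
      exact absurd (H X X₁ Y h1 h2 h3 h4 h5) (not_lt.2 h6)
    obtain ⟨R, hR, hRc⟩ := hR
    obtain ⟨U, hU⟩ := exists_smallU hR hRc
    intro X hX
    refine UM.scheepers (U := U) ?_
    by_contra hn
    obtain ⟨X, X₁, Y, h1, h2, h3, h4, h5, h6⟩ := conc_of_not_UM hU hX hn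
    exact absurd (H X X₁ Y h1 h2 h3 h4 h5) (not_lt.2 h6)

end Pool.Agent.Helper25.MS
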