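import Pool.Agent.Helper25.MS.TripB

/-!
Project MS.  A subset of a Menger set which is concentrated on a disjoint Menger set gives a product which is not Menger.
-/

set_option autoImplicit false

namespace Pool.Agent.Helper25.MS

open Set Filter Cardinal Topology

/-- Basic closed neighbourhoods of a sequence. -/
def Nb (f : ℕ → ℝ) (m : ℕ) : Set (ℕ → ℝ) := {f' | ∀ i ≤ m, |f' i - f i| ≤ 1 / ((m : ℝ) + 1)}

theorem inv_le {m m' : ℕ} (h : m ≤ m') : 1 / ((m' : ℝ) + 1) ≤ 1 / ((m : ℝ) + 1) :=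
  one_div_le_one_div_of_le (by positivity) (by exact_mod_cast Nat.succ_le_succ h)

theorem Nb_anti (f : ℕ → ℝ) {m m' : ℕ} (h : m ≤ m') : Nb f m' ⊆ Nb f m := fun _ hf i hi =>
  (hf i (hi.trans h)).trans (inv_le h)

theorem exists_Nb {f : ℕ → ℝ} {V : Set (ℕ → ℝ)} (hV : IsOpen V) (hf : f ∈ V) : ∃ m, Nb f m ⊆ V := by
  classical
  obtain ⟨I, u, hu, huV⟩ := isOpen_pi_iff.1 hV f hf
  have h1 : ∀ i : ℕ, ∃ j : ℕ, i ∈ I → ∀ r : ℝ, |r - f i| ≤ 1 / ((j : ℝ) + 1) → r ∈ u i := fun i => by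
    by_cases hi : i ∈ I
    · obtain ⟨ε, hε, hεu⟩ := Metric.isOpen_iff.1 (hu i hi).1 (f i) (hu i hi).2
      obtain ⟨j, hj⟩ := exists_nat_one_div_lt hε
      exact ⟨j, fun _ r hr => hεu (by rw [Metric.mem_ball, Real.dist_eq]; exact lt_of_le_of_lt hr hj)⟩
    · exact ⟨0, fun h => absurd h hi⟩
  choose j hj using h1
  refine ⟨∑ i ∈ I, (i + j i), fun f' hf' => huV fun i hi => ?_⟩
  have h2 : i + j i ≤ ∑ i ∈ I, (i + j i) := Finset.single_le_sum (f := fun i => i + j i) (fun _ _ => Nat.zero_le _) hi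
  exact hj i hi _ ((hf' i (by omega)).trans (inv_le (by omega)))

/-- The sequences which are in the range of `z` first and constant from `k` on. -/
noncomputable def sq (z : ℕ → ℝ) (k : ℕ) (τ : ℕ → ℕ) (w : ℝ) : ℕ → ℝ := fun i => if i < k then z (τ i) else w

theorem sq_cov {z : ℕ → ℝ} {H : Set ℝ} {Y : Set (ℕ → ℝ)} (hY : ∀ k τ, ∀ w ∈ H, sq z k τ w ∈ Y)
    {V : ℕ → ℕ → Set (ℕ → ℝ)} (hV : IncCover Y V) :
    IncCover H fun n m => interior {w | ∀ k ≤ n, ∀ τ : ℕ → ℕ, (∀ i < k, τ i ≤ n) → Nb (sq z k τ w) m ⊆ V n m} := by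
  classical
  refine ⟨fun n m => isOpen_interior, fun n m m' h => interior_mono fun w hw k hk τ hτ =>
      ((Nb_anti _ h).trans (hw k hk τ hτ)).trans (hV.mono _ _ _ h),
    fun n n' m h => interior_mono fun w hw k hk τ hτ =>
      (hw k (hk.trans h) τ fun i hi => (hτ i hi).trans h).trans (hV.anti _ _ _ h), fun n w hw => ?_⟩
  let ex : (Fin n → Fin (n + 1)) → ℕ → ℕ := fun t i => if h : i < n then (t ⟨i, h⟩ : ℕ) else 0
  have h1 : ∀ (k : ℕ) (t : Fin n → Fin (n + 1)), ∃ M, Nb (sq z k (ex t) w) M ⊆ V n M := fun k t => by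
    obtain ⟨m0, hm0⟩ := hV.cov n _ (hY k (ex t) w hw)
    obtain ⟨m1, hm1⟩ := exists_Nb (hV.op n m0) hm0
    exact ⟨max m0 m1, ((Nb_anti _ (le_max_right _ _)).trans hm1).trans (hV.mono _ _ _ (le_max_left _ _))⟩
  choose M hM using h1
  let N : ℕ := ∑ k ∈ Finset.range (n + 1), ∑ t, M k t
  have hN : ∀ k ≤ n, ∀ t, M k t ≤ N := fun k hk t =>
    (Finset.single_le_sum (f := fun t => M k t) (fun _ _ => Nat.zero_le _) (Finset.mem_univ t)).trans
      (Finset.single_le_sum (f := fun k => ∑ t, M k t) (fun _ _ => Nat.zero_le _) (Finset.mem_range.2 (by omega)))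
  refine ⟨2 * N + 1, mem_interior.2 ⟨Metric.ball w (1 / (2 * ((N : ℝ) + 1))), fun w' hw' k hk τ hτ => ?_,
    Metric.isOpen_ball, Metric.mem_ball_self (by positivity)⟩⟩
  let t : Fin n → Fin (n + 1) := fun i => ⟨min (τ i) n, by omega⟩
  have h2 : sq z k τ w = sq z k (ex t) w := by
    funext i
    unfold sq
    by_cases hi : i < k
    · have h3 : i < n := lt_of_lt_of_le hi hk
      have h4 : min (τ i) n = τ i := min_eq_left (hτ i hi)
      simp [hi, ex, h3, t, h4]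
    · simp [hi]
  have h5 : Nb (sq z k τ w') (2 * N + 1) ⊆ Nb (sq z k τ w) (M k t) := by
    intro f' hf' i hi
    have h6 := hf' i (by have := hN k hk t; omega)
    have h7 : |sq z k τ w' i - sq z k τ w i| ≤ 1 / (2 * ((N : ℝ) + 1)) := by
      unfold sq
      by_cases hi : i < k
      · simp only [hi, if_true, sub_self, abs_zero]; positivity
      · simp only [hi, if_false]
        rw [Metric.mem_ball, Real.dist_eq] at hw'
        exact hw'.le
    have h8 : 1 / (((2 * N + 1 : ℕ) : ℝ) + 1) = 1 / (2 * ((N : ℝ) + 1)) := by push_cast; ring_nf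
    rw [h8] at h6
    have h9 : (1 : ℝ) / (2 * ((N : ℝ) + 1)) + 1 / (2 * ((N : ℝ) + 1)) = 1 / ((N : ℝ) + 1) := by
      field_simp; ring
    calc |f' i - sq z k τ w i| ≤ |f' i - sq z k τ w' i| + |sq z k τ w' i - sq z k τ w i| := abs_sub_le _ _ _
      _ ≤ 1 / ((N : ℝ) + 1) := by rw [← h9]; exact add_le_add h6 h7
      _ ≤ 1 / ((M k t : ℝ) + 1) := inv_le (hN k hk t)
  have h10 : M k t ≤ 2 * N + 1 := by have := hN k hk t; omega
  refine h5.trans ?_
  rw [h2]
  exact (hM k t).trans (hV.mono _ _ _ h10)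

/-- Fast sequences with slow entries. -/
theorem exists_fast (U : Ultrafilter ℕ) {z : ℕ → ℝ} {x : ℝ}
    (hx : ∀ ε > 0, ∃ k, |x - z k| ≤ ε) {l G : ℕ → ℕ} (hl : Tendsto l atTop atTop) :
    ∃ y : ℕ → ℕ, ∀ᶠ a in (U : Filter ℕ), ∃ k ≤ l a, (∀ i < k, y i ≤ l a) ∧
      ∀ i, k ≤ i → |z (y i) - x| ≤ 1 / ((G a : ℝ) + 1) := by
  classical
  let G' : ℕ → ℕ := fun c => ∑ a ∈ Finset.range (c + 1), G a
  have hG' : ∀ a c, a ≤ c → G a ≤ G' c := fun a c h =>
    Finset.single_le_sum (f := G) (fun _ _ => Nat.zero_le _) (Finset.mem_range.2 (by omega))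
  have h1 : ∀ c, ∃ j, |x - z j| ≤ 1 / ((G' c : ℝ) + 1) := fun c => hx _ (by positivity)
  choose idx hidx using h1
  let S : ℕ → ℕ := fun c => ∑ c' ∈ Finset.range (c + 1), idx c'
  have hS : ∀ c' c, c' ≤ c → idx c' ≤ S c := fun a c h =>
    Finset.single_le_sum (f := idx) (fun _ _ => Nat.zero_le _) (Finset.mem_range.2 (by omega))
  have h2 : ∀ c, ∃ N, ∀ a, N ≤ a → c + 1 + S c ≤ l a := fun c => eventually_atTop.1 (hl.eventually_ge_atTop _)
  choose Φ hΦ using h2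
  obtain ⟨p, hp, hp0, hpΦ, -⟩ := part (ι := Empty) (lt_of_le_of_lt (by simp) aleph0_lt_dd) (fun _ => id) Φ
  have key : ∀ r < 2, (∀ᶠ a in (U : Filter ℕ), blk p a % 2 = r) →
      ∃ y : ℕ → ℕ, ∀ᶠ a in (U : Filter ℕ), ∃ k ≤ l a, (∀ i < k, y i ≤ l a) ∧
      ∀ i, k ≤ i → |z (y i) - x| ≤ 1 / ((G a : ℝ) + 1) := by
    intro r hr hE
    refine ⟨fun k => idx (p (2 * k + r + 1)), hE.mono fun a ha => ?_⟩
    obtain ⟨k, hk⟩ : ∃ k, blk p a = 2 * k + r := ⟨blk p a / 2, by omega⟩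
    have h3 := blk_le hp0 a
    have h4 := lt_blk hp a
    rw [hk] at h3 h4
    have h5 : ∀ i < k, p (2 * i + r + 1) ≤ p (2 * k + r - 1) := fun i hi => hp.monotone (by omega)
    have h6 : k ≠ 0 → p (2 * k + r - 1) + 1 + S (p (2 * k + r - 1)) ≤ l a := fun h0 => by
      apply hΦ
      have := hpΦ (2 * k + r - 1)
      rw [show 2 * k + r - 1 + 1 = 2 * k + r by omega] at this
      omega
    refine ⟨k, ?_, fun i hi => ?_, fun i hi => ?_⟩
    · by_cases h0 : k = 0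
      · omega
      · have h7 := h6 h0
        have h8 : 2 * k + r - 1 ≤ p (2 * k + r - 1) := hp.id_le _
        omega
    · have h7 := h6 (by omega)
      have h8 := hS _ _ (h5 i hi)
      show idx (p (2 * i + r + 1)) ≤ l a
      omega
    · rw [abs_sub_comm]
      refine (hidx _).trans (inv_le (hG' _ _ ?_))
      exact h4.le.trans (hp.monotone (by omega))
  rcases Ultrafilter.em U (fun a => blk p a % 2 = 0) with h | h
  · exact key 0 (by omega) h
  · exact key 1 (by omega) (h.mono fun a ha => by omega)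

end Pool.Agent.Helper25.MS
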