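import Pool.Agent.Helper25.MS.TripD

/-!
Project MS.  The criterion for productivity.
-/

set_option autoImplicit false

namespace Pool.Agent.Helper25.MS

open Set Filter Cardinal Topology

theorem noConc_menger (hP : ∀ X Y : Set ℝ, Menger X → Menger Y → Menger (X ×ˢ Y)) : NoConc Menger := by
  classical
  intro X X₁ H hX hX₁ hH hd hc
  by_contra hcard
  have hcard := not_lt.1 hcard
  obtain ⟨U, hU, hUX⟩ := UM_of_prod fun X Y hX hY => hP X Y hX.menger hY
  have hreg := hU.isRegular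
  have hinf : ℵ₀ ≤ dd := aleph0_lt_dd.le
  rcases H.eq_empty_or_nonempty with rfl | hne
  · have := hc ∅ isOpen_empty (empty_subset _)
    rw [sdiff_empty] at this
    exact absurd this (not_lt.2 hcard)
  -- a dense sequence
  have : Nonempty H := hne.to_subtype
  obtain ⟨u, hu⟩ := TopologicalSpace.exists_dense_seq H
  let z : ℕ → ℝ := fun n => (u n).1
  have hzH : ∀ n, z n ∈ H := fun n => (u n).2
  have hz : ∀ w ∈ H, ∀ ε > 0, ∃ k, |w - z k| < ε := fun w hw ε hε => by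
    obtain ⟨k, hk⟩ := hu.exists_dist_lt ⟨w, hw⟩ hε
    exact ⟨k, by simpa [Subtype.dist_eq, Real.dist_eq] using hk⟩
  -- the points of `X₁` in the closure of `H`
  let X₂ : Set ℝ := {x ∈ X₁ | ∀ ε > 0, ∃ k, |x - z k| ≤ ε}
  have hX₂ : dd ≤ #X₂ := by
    by_contra hlt
    have hlt := not_le.1 hlt
    have h1 : #(⋃ n : ℕ, X₁ \ ⋃ k, Metric.ball (z k) (1 / ((n : ℝ) + 1))) < dd :=
      (card_iUnion_lt_iff_forall_of_isRegular hreg (by rw [mk_nat]; exact aleph0_lt_dd)).2 fun n =>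
        hc _ (isOpen_iUnion fun k => Metric.isOpen_ball) fun w hw => by
          obtain ⟨k, hk⟩ := hz w hw (1 / ((n : ℝ) + 1)) (by positivity)
          exact mem_iUnion.2 ⟨k, by rwa [Metric.mem_ball, Real.dist_eq]⟩
    have h2 : X₁ ⊆ X₂ ∪ ⋃ n : ℕ, X₁ \ ⋃ k, Metric.ball (z k) (1 / ((n : ℝ) + 1)) := fun x hx => by
      by_cases hx2 : x ∈ X₂
      · exact Or.inl hx2
      · refine Or.inr ?_
        have h3 : ¬ ∀ ε > 0, ∃ k, |x - z k| ≤ ε := fun h => hx2 ⟨hx, h⟩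
        push Not at h3
        obtain ⟨ε, hε, h3⟩ := h3
        obtain ⟨n, hn⟩ := exists_nat_one_div_lt hε
        refine mem_iUnion.2 ⟨n, hx, fun h4 => ?_⟩
        obtain ⟨k, hk⟩ := mem_iUnion.1 h4
        rw [Metric.mem_ball, Real.dist_eq] at hk
        have := h3 k
        linarith
    have h4 := lt_of_le_of_lt (mk_le_mk_of_subset h2) (lt_of_le_of_lt (mk_union_le _ _) (add_lt_of_lt hinf hlt h1))
    exact absurd h4 (not_lt.2 hcard)
  obtain ⟨e⟩ : Nonempty (Ix ↪ X₂) := by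
    rw [← Cardinal.le_def, mk_Ix]; exact hX₂
  let x : Ix → ℝ := fun i => (e i).1
  have hxi : Function.Injective x := Subtype.val_injective.comp e.injective
  have hx1 : ∀ i, x i ∈ X₁ := fun i => (e i).2.1
  have hx2 : ∀ i, ∀ ε > 0, ∃ k, |x i - z k| ≤ ε := fun i => (e i).2.2
  obtain ⟨l, G, hl, hsc⟩ := exists_scale hU
  choose y hy using fun i => exists_fast U (hx2 i) (l := l i) (G := G i) (hl i)
  let yy : Ix → ℕ → ℝ := fun i n => z (y i n)
  let Y : Set (ℕ → ℝ) := {f | ∃ k τ, ∃ w ∈ H, f = sq z k τ w} ∪ range yy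
  have hYH : ∀ f ∈ Y, ∀ n, f n ∈ H := by
    rintro f (⟨k, τ, w, hw, rfl⟩ | ⟨i, rfl⟩) n
    · unfold sq
      by_cases hn : n < k
      · simp only [hn, if_true]; exact hzH _
      · simp only [hn, if_false]; exact hw
    · exact hzH _
  obtain ⟨B, hBc, hBU, hB⟩ := hU.base
  -- `Y` is Menger
  have hYU : UM U Y := by
    intro V hV
    have hW := sq_cov (z := z) (H := H) (Y := Y) (fun k τ w hw => Or.inl ⟨k, τ, w, hw, rfl⟩) hV
    obtain ⟨l', G', hl', hlG'⟩ := hUX H hH _ hW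
    set W : ℕ → ℕ → Set ℝ := fun n m =>
      interior {w | ∀ k ≤ n, ∀ τ : ℕ → ℕ, (∀ i < k, τ i ≤ n) → Nb (sq z k τ w) m ⊆ V n m} with hWdef
    have hWuse : ∀ n m, ∀ w ∈ W n m, ∀ k ≤ n, ∀ τ : ℕ → ℕ, (∀ i < k, τ i ≤ n) → Nb (sq z k τ w) m ⊆ V n m :=
      fun n m w hw => interior_subset hw
    let O : Set ℕ → Set ℝ := fun b => ⋃ a ∈ b, W (l' a) (G' a)
    have hO : ∀ b ∈ B, IsOpen (O b) ∧ H ⊆ O b := fun b hb => ⟨isOpen_biUnion fun a _ => hW.op _ _, fun w hw => by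
      have h2 : ∀ᶠ a in (U : Filter ℕ), a ∈ b := hBU b hb
      obtain ⟨a, ha1, ha2⟩ := ((hlG' w hw).and h2).exists
      exact mem_iUnion₂.2 ⟨a, ha2, ha1⟩⟩
    let Ex : Set Ix := {i | ∃ b ∈ B, x i ∉ O b}
    have hEx : #Ex < dd := by
      have h1 : Ex ⊆ ⋃ b : B, x ⁻¹' (X₁ \ O b.1) := fun i ⟨b, hb, hi⟩ => mem_iUnion.2 ⟨⟨b, hb⟩, hx1 i, hi⟩
      refine lt_of_le_of_lt (mk_le_mk_of_subset h1) ((card_iUnion_lt_iff_forall_of_isRegular hreg hBc).2 fun b => ?_)
      exact lt_of_le_of_lt (mk_preimage_of_injective x _ hxi) (hc _ (hO b.1 b.2).1 (hO b.1 b.2).2)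
    have hgood : ∀ i, i ∉ Ex → ∀ᶠ a in (U : Filter ℕ), x i ∈ W (l' a) (G' a) := fun i hi =>
      mem_of_meets hB fun b hb => by
        have h1 : x i ∈ O b := by
          by_contra h2
          exact hi ⟨b, hb, h2⟩
        obtain ⟨a, ha1, ha2⟩ := mem_iUnion₂.1 h1
        exact ⟨a, ha1, ha2⟩
    obtain ⟨j, hj⟩ := hsc l' G' hl'
    -- the good part
    have hg1 : Good U V ({f | ∃ k τ, ∃ w ∈ H, f = sq z k τ w} ∪ yy '' {i | i ∉ Ex ∧ j ≤ i}) := by
      refine ⟨l', G', hl', ?_⟩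
      rintro f (⟨k, τ, w, hw, rfl⟩ | ⟨i, ⟨hi1, hi2⟩, rfl⟩)
      · have h1 : ∀ᶠ a in (U : Filter ℕ), k + ∑ i ∈ Finset.range k, τ i ≤ l' a :=
          hU.np (hl'.eventually_ge_atTop _)
        filter_upwards [h1, hlG' w hw] with a ha1 ha2
        refine hWuse _ _ w ha2 k (by omega) τ (fun i hi => ?_) fun i _ => by simp; positivity
        have : τ i ≤ ∑ i ∈ Finset.range k, τ i :=
          Finset.single_le_sum (f := τ) (fun _ _ => Nat.zero_le _) (Finset.mem_range.2 hi)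
        omega
      · filter_upwards [hgood i hi1, hj i hi2, hy i] with a ha1 ha2 ha3
        obtain ⟨k, hk, hk1, hk2⟩ := ha3
        refine hWuse _ _ (x i) ha1 k (hk.trans ha2.1) (y i) (fun i' hi' => (hk1 i' hi').trans ha2.1) fun i' _ => ?_
        unfold sq
        by_cases hi' : i' < k
        · simp only [hi', if_true, yy, sub_self, abs_zero]; positivity
        · simp only [hi', if_false]
          exact (hk2 i' (not_lt.1 hi')).trans (inv_le ha2.2)
    have hE2 : #{i // i ∈ Ex ∨ i < j} < dd := by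
      have : #(Ex ∪ Iio j : Set Ix) < dd := lt_of_le_of_lt (mk_union_le _ _) (add_lt_of_lt hinf hEx (mk_Iio_Ix j))
      exact this
    have hE3 : #(Option {i // i ∈ Ex ∨ i < j}) < dd := by
      rw [mk_option]
      exact add_lt_of_lt hinf hE2 (lt_of_lt_of_le one_lt_aleph0 hinf)
    have hg2 : Good U V (⋃ o : Option {i // i ∈ Ex ∨ i < j}, o.elim
        ({f | ∃ k τ, ∃ w ∈ H, f = sq z k τ w} ∪ yy '' {i | i ∉ Ex ∧ j ≤ i}) fun i => {yy i.1}) := by
      refine Good.iUnion hU hV hE3 fun o => ?_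
      cases o with
      | none => exact hg1
      | some i => exact Good.singleton hV (Or.inr ⟨i.1, rfl⟩)
    refine hg2.subset ?_
    rintro f (hf | ⟨i, rfl⟩)
    · exact mem_iUnion.2 ⟨none, Or.inl hf⟩
    · by_cases hi : i ∈ Ex ∨ i < j
      · exact mem_iUnion.2 ⟨some ⟨i, hi⟩, rfl⟩
      · push Not at hi
        exact mem_iUnion.2 ⟨none, Or.inr ⟨i, hi, rfl⟩⟩
  have hYM : Menger Y := hYU.scheepers.menger
  -- the product
  have hXY : UM U (X ×ˢ Y) := UM.all hUX (prod_all hP hX hYM)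
  let V : ℕ → ℕ → Set (ℝ × (ℕ → ℝ)) := fun n m => {v | ∀ t ≤ n, 1 / ((m : ℝ) + 1) < |v.1 - v.2 t|}
  have hV : IncCover (X ×ˢ Y) V := by
    refine ⟨fun n m => ?_, fun n m m' hm v hv t ht => lt_of_le_of_lt (inv_le hm) (hv t ht),
      fun n n' m hn v hv t ht => hv t (ht.trans hn), fun n v hv => ?_⟩
    · have : V n m = ⋂ t ∈ Finset.range (n + 1), {v : ℝ × (ℕ → ℝ) | 1 / ((m : ℝ) + 1) < |v.1 - v.2 t|} := by
        ext v
        simp only [V, mem_ofPred_eq, mem_iInter, Finset.mem_range, Nat.lt_succ_iff]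
      rw [this]
      exact isOpen_biInter_finset fun t _ => isOpen_lt continuous_const (by fun_prop)
    · have h0 : ∀ t, 0 < |v.1 - v.2 t| := fun t => by
        rw [abs_pos, sub_ne_zero]
        intro h
        exact disjoint_left.1 hd hv.1 (h ▸ hYH _ hv.2 t)
      choose m hm using fun t => exists_nat_one_div_lt (h0 t)
      refine ⟨∑ t ∈ Finset.range (n + 1), m t, fun t ht => lt_of_le_of_lt (inv_le ?_) (hm t)⟩
      exact Finset.single_le_sum (f := m) (fun _ _ => Nat.zero_le _) (Finset.mem_range.2 (by omega))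
  obtain ⟨l', G', hl', hlG'⟩ := hXY V hV
  obtain ⟨j, hj⟩ := hsc l' G' hl'
  obtain ⟨a, ⟨ha1, ha2⟩, ha3⟩ := (((hlG' (x j, yy j) ⟨hX₁ (hx1 j), Or.inr ⟨j, rfl⟩⟩).and (hj j le_rfl)).and (hy j)).exists
  obtain ⟨k, hk, -, hk2⟩ := ha3
  have h1 := ha1 k (hk.trans ha2.1)
  have h2 := (hk2 k le_rfl).trans (inv_le ha2.2)
  rw [abs_sub_comm] at h2
  exact absurd h1 (not_lt.2 h2)

/-- The second criterion. -/
theorem productive_iff : (∀ X Y : Set ℝ, Menger X → Menger Y → Menger (X ×ˢ Y)) ↔ NoConc Menger := by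
  constructor
  · exact noConc_menger
  · intro H X Y hX hY
    have hR : ∃ R : Set (Set ℕ), Unsplit R ∧ #R < dd := by
      by_contra hc
      obtain ⟨X, X₁, Z, h1, h2, h3, h4, h5, h6⟩ := conc_of_no_unsplit hc
      exact absurd (H X X₁ Z h1 h2 (Menger.countable h3) h4 h5) (not_lt.2 h6)
    obtain ⟨R, hR, hRc⟩ := hR
    obtain ⟨U, hU⟩ := exists_smallU hR hRc
    have hUX : ∀ X : Set ℝ, Menger X → UM U X := by
      intro X hX
      by_contra hn
      obtain ⟨X, X₁, Z, h1, h2, h3, h4, h5, h6⟩ := conc_of_not_UM hU hX hn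
      exact absurd (H X X₁ Z h1 h2 (Menger.countable h3) h4 h5) (not_lt.2 h6)
    by_contra hn
    obtain ⟨X, X₁, Z, h1, h2, h3, h4, h5, h6⟩ := conc_of_not_prod hU hUX hX hY hn
    exact absurd (H X X₁ Z h1 h2 h3 h4 h5) (not_lt.2 h6)

end Pool.Agent.Helper25.MS
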