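import Pool.Agent.Helper25.MS.Defs

/-!
Project MS.  Ultrafilters with a base of fewer than `𝔡` sets, and the property `UM`.
-/

set_option autoImplicit false

namespace Pool.Agent.Helper25.MS

open Set Filter Cardinal Topology

/-- A nonprincipal ultrafilter with a base of fewer than `𝔡` sets. -/
structure SmallU (U : Ultrafilter ℕ) : Prop where
  np : (U : Filter ℕ) ≤ atTop
  base : ∃ B : Set (Set ℕ), #B < dd ∧ (∀ b ∈ B, b ∈ U) ∧ ∀ A ∈ U, ∃ b ∈ B, b ⊆ A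

/-- The Menger property with respect to an ultrafilter. -/
def UM (U : Ultrafilter ℕ) {α : Type} [TopologicalSpace α] (X : Set α) : Prop :=
  ∀ V : ℕ → ℕ → Set α, IncCover X V → ∃ l G : ℕ → ℕ, Tendsto l atTop atTop ∧
    ∀ x ∈ X, ∀ᶠ a in (U : Filter ℕ), x ∈ V (l a) (G a)

theorem mem_of_meets {U : Ultrafilter ℕ} {B : Set (Set ℕ)} (hB : ∀ A ∈ U, ∃ b ∈ B, b ⊆ A) {A : Set ℕ}
    (h : ∀ b ∈ B, ∃ a ∈ b, a ∈ A) : A ∈ U := by
  by_contra hA
  have hc := Ultrafilter.compl_mem_iff_notMem.2 hA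
  obtain ⟨b, hb, hbA⟩ := hB _ hc
  obtain ⟨a, ha1, ha2⟩ := h b hb
  exact hbA ha1 ha2

theorem merge {U : Ultrafilter ℕ} (hU : SmallU U) {ι : Type} (hι : #ι < dd) (l G : ι → ℕ → ℕ)
    (hl : ∀ i, Tendsto (l i) atTop atTop) :
    ∃ l' G' : ℕ → ℕ, Tendsto l' atTop atTop ∧
      ∀ i, ∀ᶠ a in (U : Filter ℕ), l' a ≤ l i a ∧ G i a ≤ G' a := by
  obtain ⟨B, hBc, hBU, hB⟩ := hU.base
  have hc : #(ι × B) < dd := by
    rw [mk_prod, lift_id, lift_id]
    exact mul_lt_of_lt aleph0_lt_dd.le hι hBc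
  have h1 : ∀ (v : ι × B) (n : ℕ), ∃ a ∈ v.2.1, n ≤ a ∧ n ≤ l v.1 a := fun v n => by
    have h2 : ∀ᶠ a in (U : Filter ℕ), n ≤ a ∧ n ≤ l v.1 a :=
      hU.np ((eventually_ge_atTop n).and ((hl v.1).eventually_ge_atTop n))
    have h3 : ∀ᶠ a in (U : Filter ℕ), a ∈ v.2.1 := hBU _ v.2.2
    exact (h3.and h2).exists
  choose s hs hs1 hs2 using h1
  obtain ⟨p, hp, hp0, -, hpF⟩ := part hc (fun v n => max (s v n) (G v.1 (s v n))) fun _ => 0
  refine ⟨blk p, fun a => p (blk p a + 1), tendsto_blk hp, fun i => ?_⟩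
  refine mem_of_meets hB fun b hb => ?_
  obtain ⟨k, hk⟩ := (hpF (i, ⟨b, hb⟩)).exists
  have h4 : blk p (s (i, ⟨b, hb⟩) (p k)) = k :=
    blk_eq hp hp0 (hs1 _ _) (lt_of_le_of_lt (le_max_left _ _) hk)
  refine ⟨s (i, ⟨b, hb⟩) (p k), hs (i, ⟨b, hb⟩) _, ?_⟩
  simp only [mem_ofPred_eq, h4]
  exact ⟨le_trans (hp.id_le k) (hs2 (i, ⟨b, hb⟩) (p k)), (lt_of_le_of_lt (le_max_right _ _) hk).le⟩

variable {α : Type} [TopologicalSpace α]

theorem UM.iUnion {U : Ultrafilter ℕ} (hU : SmallU U) {ι : Type} (hι : #ι < dd) {X : ι → Set α}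
    (h : ∀ i, UM U (X i)) : UM U (⋃ i, X i) := by
  intro V hV
  choose l G hl hlG using fun i => h i V (hV.subset (subset_iUnion _ i))
  obtain ⟨l', G', hl', hlG'⟩ := merge hU hι l G hl
  refine ⟨l', G', hl', fun x hx => ?_⟩
  obtain ⟨i, hi⟩ := mem_iUnion.1 hx
  filter_upwards [hlG i x hi, hlG' i] with a ha hb
  exact hV.mono _ _ _ hb.2 (hV.anti _ _ _ hb.1 ha)

theorem UM.sUnion {U : Ultrafilter ℕ} (hU : SmallU U) {S : Set (Set α)} (hS : #S < dd)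
    (h : ∀ s ∈ S, UM U s) : UM U (⋃₀ S) := by
  rw [sUnion_eq_iUnion]
  exact UM.iUnion hU hS fun s => h s.1 s.2

theorem UM.union {U : Ultrafilter ℕ} (hU : SmallU U) {X Y : Set α} (hX : UM U X) (hY : UM U Y) :
    UM U (X ∪ Y) := by
  rw [union_eq_iUnion]
  refine UM.iUnion hU (lt_trans ?_ aleph0_lt_dd) fun b => ?_
  · exact lt_aleph0_of_finite Bool
  · cases b
    · exact hY
    · exact hX

theorem UM.scheepers [SecondCountableTopology α] {U : Ultrafilter ℕ} {X : Set α}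
    (h : UM U X) : Scheepers X := by
  classical
  apply scheepers_of_sel
  intro V hV
  obtain ⟨l, G, hl, hlG⟩ := h V hV
  have hfin : ∀ n, {a | l a = n}.Finite := fun n => by
    have h1 := hl.eventually_gt_atTop n
    obtain ⟨N, hN⟩ := eventually_atTop.1 h1
    refine (finite_lt_nat N).subset fun a ha => ?_
    by_contra hc
    have := hN a (not_lt.1 hc)
    have h2 : l a = n := ha
    omega
  refine ⟨fun n => ∑ a ∈ (hfin n).toFinset, G a, fun S hS => ?_⟩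
  have h1 : ∀ᶠ a in (U : Filter ℕ), ∀ x ∈ S, x ∈ V (l a) (G a) :=
    (Filter.eventually_all_finset S).2 fun x hx => hlG x (hS hx)
  obtain ⟨a, ha⟩ := h1.exists
  refine ⟨l a, fun x hx => hV.mono _ _ _ ?_ (ha x hx)⟩
  exact Finset.single_le_sum (f := G) (fun _ _ => Nat.zero_le _) ((hfin (l a)).mem_toFinset.2 rfl)

/-- From simultaneous selections for `X` and the base of the ultrafilter to `UM`. -/
theorem UM_of_sel {U : Ultrafilter ℕ} {B : Set (Set ℕ)} (hB : ∀ A ∈ U, ∃ b ∈ B, b ⊆ A) {X : Set α}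
    (h : ∀ V, IncCover X V → ∃ g : ℕ → ℕ, Monotone g ∧ (∀ n, n ≤ g n) ∧
      ∀ x ∈ X, ∀ b ∈ B, ∃ n, x ∈ V n (g n) ∧ ∃ a ∈ b, n ≤ a ∧ a ≤ g n) : UM U X := by
  intro V hV
  obtain ⟨g, hg, hgn, hgX⟩ := h V hV
  have hex : ∀ a, ∃ n, a ≤ g n := fun a => ⟨a, hgn a⟩
  refine ⟨fun a => Nat.find (hex a), g, ?_, fun x hx => mem_of_meets hB fun b hb => ?_⟩
  · rw [tendsto_atTop]
    intro N
    filter_upwards [eventually_gt_atTop (g N)] with a ha
    by_contra hc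
    have h1 := Nat.find_spec (hex a)
    have h2 := hg (not_le.1 hc).le
    omega
  · obtain ⟨n, hn, a, ha, hna, hag⟩ := hgX x hx b hb
    refine ⟨a, ha, ?_⟩
    have h1 : Nat.find (hex a) ≤ n := Nat.find_min' _ hag
    exact hV.mono _ _ _ (hg hna) (hV.anti _ _ _ h1 hn)

end Pool.Agent.Helper25.MS
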