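import Pool.Agent.Helper25.MS.Prod

/-!
Project MS.  Unions of fewer than `𝔡` Menger sets.
-/

set_option autoImplicit false

namespace Pool.Agent.Helper25.MS

open Set Filter Cardinal Topology

theorem exists_emb2 : ∃ e : (ℕ → Bool) × (ℕ → Bool) → ℝ, IsEmbedding e := by
  obtain ⟨f, hf⟩ : ∃ f : (ℕ → Bool) × (ℕ → Bool) → (ℕ → Bool), IsEmbedding f := by
    refine ⟨fun v n => if n % 2 = 0 then v.1 (n / 2) else v.2 (n / 2), ?_⟩
    refine (Continuous.isClosedEmbedding ?_ ?_).isEmbedding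
    · refine continuous_pi fun n => ?_
      by_cases h : n % 2 = 0
      · simp only [h, if_true]; fun_prop
      · simp only [h, if_false]; fun_prop
    · rintro ⟨a, b⟩ ⟨a', b'⟩ h
      have h1 : ∀ n, a n = a' n := fun n => by
        have := congrFun h (2 * n)
        have h2 : (2 * n) % 2 = 0 := by omega
        have h3 : (2 * n) / 2 = n := by omega
        simpa [h2, h3] using this
      have h2 : ∀ n, b n = b' n := fun n => by
        have := congrFun h (2 * n + 1)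
        have h2 : ¬ (2 * n + 1) % 2 = 0 := by omega
        have h3 : (2 * n + 1) / 2 = n := by omega
        simpa [h2, h3] using this
      exact Prod.ext (funext h1) (funext h2)
  exact ⟨emb ∘ f, isEmbedding_emb.comp hf⟩

/-- Preimages of Menger sets under continuous maps of the Cantor space. -/
theorem Menger.preimage {Y : Set ℝ} (hY : Menger Y) {φ : (ℕ → Bool) → ℝ} (hφ : Continuous φ) :
    Menger (φ ⁻¹' Y) := by
  apply menger_of_sel
  intro V hV
  have hcov : IncCover Y fun n m => (φ '' (V n m)ᶜ)ᶜ := by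
    refine ⟨fun n m => ?_, fun n m m' h => ?_, fun n n' m h => ?_, fun n y hy => ?_⟩
    · exact (((hV.op n m).isClosed_compl.isCompact.image hφ).isClosed).isOpen_compl
    · exact compl_subset_compl.2 (image_mono (compl_subset_compl.2 (hV.mono n m m' h)))
    · exact compl_subset_compl.2 (image_mono (compl_subset_compl.2 (hV.anti n n' m h)))
    · have hc : IsCompact (φ ⁻¹' {y}) := (isClosed_singleton.preimage hφ).isCompact
      obtain ⟨m, hm⟩ := hc.elim_directed_cover (V n) (hV.op n) (fun c hc => by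
        obtain ⟨m, hm⟩ := hV.cov n c (show φ c ∈ Y by rw [show φ c = y from hc]; exact hy)
        exact mem_iUnion.2 ⟨m, hm⟩) (directed_of_isDirected_le fun m m' h => hV.mono n m m' h)
      refine ⟨m, ?_⟩
      rintro ⟨c, hc, hcy⟩
      exact hc (hm hcy)
  obtain ⟨g, -, -, hg⟩ := hY.sel hcov
  refine ⟨g, fun c hc => ?_⟩
  obtain ⟨n, -, hn⟩ := hg (φ c) hc 0
  refine ⟨n, ?_⟩
  by_contra h
  exact hn ⟨c, h, rfl⟩

theorem PS_of_unions (H : ∀ 𝓢 : Set (Set ℝ), #𝓢 < dd → (∀ S ∈ 𝓢, Menger S) → Menger (⋃₀ 𝓢))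
    {Y : Set ℝ} {T : Set (ℕ → Bool)} (hY : Menger Y) (hT : #(emb '' T : Set ℝ) < dd) : PS Y T := by
  intro V W hV hW
  have hTc : #T < dd := by rwa [mk_image_eq isEmbedding_emb.injective] at hT
  obtain ⟨e, he⟩ := exists_emb2
  obtain ⟨ψ, hψ, hψs⟩ := exists_nat_bool_continuous_surjective_of_compact (Icc (0 : ℝ) 1)
  let φ : (ℕ → Bool) → ℝ := fun c => (ψ c : ℝ)
  have hφ : Continuous φ := continuous_subtype_val.comp hψ
  have hφs : ∀ x : ℝ, ∃ c, φ c = Real.sigmoid x := fun x => by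
    obtain ⟨c, hc⟩ := hψs ⟨Real.sigmoid x, Real.sigmoid_nonneg x, Real.sigmoid_le_one x⟩
    exact ⟨c, congrArg Subtype.val hc⟩
  have hs : IsEmbedding Real.sigmoid := Real.sigmoid_strictMono.isEmbedding_of_ordConnected (by
    rw [Real.range_sigmoid]; exact ordConnected_Ioo)
  let Y' : Set (ℕ → Bool) := φ ⁻¹' (Real.sigmoid '' Y)
  have hY' : Menger Y' := (hY.image hs.continuous).preimage hφ
  let 𝓢 : Set (Set ℝ) := range fun t : T => e '' (Y' ×ˢ {t.1})
  have hM : Menger (⋃₀ 𝓢) := by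
    refine H 𝓢 (lt_of_le_of_lt mk_range_le hTc) ?_
    rintro _ ⟨t, rfl⟩
    have : e '' (Y' ×ˢ {t.1}) = (fun c => e (c, t.1)) '' Y' := by
      ext z; simp
    show Menger (e '' (Y' ×ˢ {t.1}))
    rw [this]
    exact hY'.image (he.continuous.comp (by fun_prop))
  let Z : ℕ → ℕ → Set ((ℕ → Bool) × (ℕ → Bool)) := fun n m =>
    (φ ⁻¹' (ext Real.sigmoid (V n m))) ×ˢ W n m
  have hZ : ∀ n m, IsOpen (Z n m) := fun n m => ((isOpen_ext _ _).preimage hφ).prod (hW.op n m)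
  have hcov : IncCover (⋃₀ 𝓢) fun n m => ext e (Z n m) := by
    refine ⟨fun n m => isOpen_ext _ _,
      fun n m m' h => ext_mono _ (prod_mono (preimage_mono (ext_mono _ (hV.mono n m m' h))) (hW.mono n m m' h)),
      fun n n' m h => ext_mono _ (prod_mono (preimage_mono (ext_mono _ (hV.anti n n' m h))) (hW.anti n n' m h)),
      ?_⟩
    rintro n _ ⟨_, ⟨t, rfl⟩, ⟨c, t'⟩, ⟨⟨y, hy, hyc⟩, ht'⟩, rfl⟩
    obtain rfl : t' = t.1 := ht'
    obtain ⟨m, hm⟩ := hW.cov n t.1 t.2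
    obtain ⟨m', hm'⟩ := hV.cov n y hy
    refine ⟨max m m', (mem_ext he.isInducing (hZ _ _)).2 ⟨?_, hW.mono _ _ _ (le_max_left _ _) hm⟩⟩
    show φ c ∈ ext Real.sigmoid (V n (max m m'))
    have hyc' : Real.sigmoid y = φ c := hyc
    rw [← hyc', mem_ext hs.isInducing (hV.op _ _)]
    exact hV.mono _ _ _ (le_max_right _ _) hm'
  obtain ⟨g, hg1, hg2, hg3⟩ := hM.sel hcov
  refine ⟨g, hg1, hg2, fun y hy t ht N => ?_⟩
  obtain ⟨c, hc⟩ := hφs y
  obtain ⟨n, hn, h1⟩ := hg3 (e (c, t)) ⟨_, ⟨⟨t, ht⟩, rfl⟩, (c, t), ⟨⟨y, hy, hc.symm⟩, rfl⟩, rfl⟩ N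
  rw [mem_ext he.isInducing (hZ _ _)] at h1
  have h2 : φ c ∈ ext Real.sigmoid (V n (g n)) := h1.1
  rw [hc, mem_ext hs.isInducing (hV.op _ _)] at h2
  exact ⟨n, hn, h2, h1.2⟩

theorem UM_of_unions (hR : ∃ R : Set (Set ℕ), Unsplit R ∧ #R < dd)
    (H : ∀ 𝓢 : Set (Set ℝ), #𝓢 < dd → (∀ S ∈ 𝓢, Menger S) → Menger (⋃₀ 𝓢)) :
    ∃ U : Ultrafilter ℕ, SmallU U ∧ ∀ X : Set ℝ, Menger X → UM U X :=
  UM_of_PS' hR fun _ _ hY hT => PS_of_unions H hY hT

end Pool.Agent.Helper25.MS
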